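import Pool.Agent.Q60.ED.Proj

/-!
# Tensor powers of matrices
-/

set_option linter.unusedSectionVars false

namespace Pool.Agent.Q60.ED

open MvPolynomial Module Matrix

variable {K : Type} [Field K] {ι : Type} [Fintype ι] [DecidableEq ι]

/-- The tensor power of a matrix. -/
def TP {K : Type} [CommMonoid K] (g : Matrix ι ι K) (n : ℕ) : Matrix (Fin n → ι) (Fin n → ι) K :=
  Matrix.of fun I J => ∏ k, g (I k) (J k)

lemma TP_apply {K : Type} [CommMonoid K] (g : Matrix ι ι K) (n : ℕ) (I J : Fin n → ι) :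
    TP g n I J = ∏ k, g (I k) (J k) := rfl

lemma tpow_eq (g : Matrix ι ι K) (n : ℕ) (t : (Fin n → ι) → K) : tpow g n t = (TP g n).mulVec t :=
  rfl

lemma TP_mul (g h : Matrix ι ι K) (n : ℕ) : TP (g * h) n = TP g n * TP h n := by
  apply Matrix.toLin'.injective
  refine LinearMap.ext fun t => ?_
  rw [Matrix.toLin'_apply, Matrix.toLin'_apply, ← Matrix.mulVec_mulVec]
  exact tpow_mul g h n t

lemma TP_one (n : ℕ) : TP (1 : Matrix ι ι K) n = 1 := by
  apply Matrix.toLin'.injective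
  refine LinearMap.ext fun t => ?_
  rw [Matrix.toLin'_apply, Matrix.toLin'_apply, Matrix.one_mulVec]
  exact tpow_one n t

lemma TP_transpose (g : Matrix ι ι K) (n : ℕ) : TP g.transpose n = (TP g n).transpose := rfl

lemma TP_map {L : Type} [Field L] (σ : K →+* L) (g : Matrix ι ι K) (n : ℕ) :
    TP (g.map σ) n = (TP g n).map σ := by
  ext I J
  rw [Matrix.map_apply, TP_apply, TP_apply, map_prod]
  rfl

lemma TP_det {g : Matrix ι ι K} (hg : g.det ≠ 0) (n : ℕ) :
    TP g n * TP g⁻¹ n = 1 ∧ TP g⁻¹ n * TP g n = 1 := by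
  have hu := isUnit_iff_ne_zero.2 hg
  rw [← TP_mul, ← TP_mul, Matrix.mul_nonsing_inv _ hu, Matrix.nonsing_inv_mul _ hu, TP_one]
  exact ⟨rfl, rfl⟩

/-- The tensor of a matrix. -/
def tenM {j i : ℕ} {K : Type} (N : Matrix (Fin j → ι) (Fin i → ι) K) : (Fin (j + i) → ι) → K :=
  fun L => N (fun k => L (Fin.castAdd i k)) fun k => L (Fin.natAdd j k)

lemma tenM_inj {j i : ℕ} {N N' : Matrix (Fin j → ι) (Fin i → ι) K} (h : tenM N = tenM N') :
    N = N' := by
  ext I J
  have h1 := congrFun h (Fin.append I J)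
  simpa [tenM] using h1

lemma sum_append {j i : ℕ} {M : Type} [AddCommMonoid M] (F : (Fin (j + i) → ι) → M) :
    ∑ L, F L = ∑ I : Fin j → ι, ∑ J : Fin i → ι, F (Fin.append I J) := by
  rw [← Equiv.sum_comp (Fin.appendEquiv j i), Fintype.sum_prod_type]
  rfl

lemma tpow_tenM {j i : ℕ} (g : Matrix ι ι K) (N : Matrix (Fin j → ι) (Fin i → ι) K) :
    tpow g (j + i) (tenM N) = tenM (TP g j * N * (TP g i).transpose) := by
  funext L
  rw [tpow_apply, sum_append, tenM, Matrix.mul_apply]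
  simp only [Matrix.mul_apply, Matrix.transpose_apply, Finset.sum_mul]
  rw [Finset.sum_comm]
  refine Finset.sum_congr rfl fun I _ => Finset.sum_congr rfl fun J _ => ?_
  rw [Fin.prod_univ_add]
  simp only [tenM, Fin.append_left, Fin.append_right, TP_apply]
  ring

/-- The invariance of the tensor of `M Ω` is the commutation of `M`. -/
lemma inv_iff {j i : ℕ} {g Ω : Matrix ι ι K} (hg : g.det ≠ 0) (hΩ : Ω.det ≠ 0)
    (hgΩ : g * Ω * g.transpose = Ω) (M : Matrix (Fin j → ι) (Fin i → ι) K) :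
    tpow g (j + i) (tenM (M * TP Ω i)) = tenM (M * TP Ω i) ↔ TP g j * M = M * TP g i := by
  have h1 : TP g i * TP Ω i * (TP g i).transpose = TP Ω i := by
    rw [← TP_transpose, ← TP_mul, ← TP_mul, hgΩ]
  have h2 : TP Ω i * (TP g i).transpose = TP g⁻¹ i * TP Ω i := by
    conv_rhs => rw [← h1]
    rw [← Matrix.mul_assoc, ← Matrix.mul_assoc, (TP_det hg i).2, Matrix.one_mul]
  have h3 : TP g j * (M * TP Ω i) * (TP g i).transpose = TP g j * M * TP g⁻¹ i * TP Ω i := by
    rw [← Matrix.mul_assoc, Matrix.mul_assoc _ (TP Ω i), h2, Matrix.mul_assoc _ (TP g⁻¹ i)]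
  rw [tpow_tenM, h3]
  constructor
  · intro h
    have h4 := tenM_inj h
    have h5 : TP g j * M * TP g⁻¹ i = M := by
      have h6 := congrArg (fun N => N * TP Ω⁻¹ i) h4
      simp only [Matrix.mul_assoc, (TP_det hΩ i).1, Matrix.mul_one] at h6
      rw [← Matrix.mul_assoc] at h6
      exact h6
    calc TP g j * M = TP g j * M * (TP g⁻¹ i * TP g i) := by
          rw [(TP_det hg i).2, Matrix.mul_one]
      _ = TP g j * M * TP g⁻¹ i * TP g i := (Matrix.mul_assoc _ _ _).symm
      _ = M * TP g i := by rw [h5]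
  · intro h
    rw [h, Matrix.mul_assoc M, (TP_det hg i).1, Matrix.mul_one]

end Pool.Agent.Q60.ED
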