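import Pool.Agent.Q60.ED.ThmB

/-!
# The invariants of bounded degree determine all invariants, end of the proof
-/

set_option linter.unusedSectionVars false

namespace Pool.Agent.Q60.ED

open MvPolynomial Module Matrix

variable {ι : Type} [Fintype ι] [DecidableEq ι] {D : ℕ}

/-- A block of a matrix. -/
def blk {K : Type} (M : Matrix (EI ι D) (EI ι D) K) (j i : Fin (D + 1)) (J : Fin j → ι)
    (I : Fin i → ι) : Matrix (Fin j → ι) (Fin i → ι) K :=
  Matrix.of fun L L' => M ⟨j, (L, J)⟩ ⟨i, (L', I)⟩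

lemma comm_iff (M : Matrix (EI ι D) (EI ι D) ℂ) (g : Matrix ι ι ℂ) :
    (∀ v, M *ᵥ (RR D g v) = RR D g (M *ᵥ v)) ↔
      ∀ (j i : Fin (D + 1)) (J : Fin j → ι) (I : Fin i → ι),
        TP g j * blk M j i J I = blk M j i J I * TP g i := by
  have h1 : ∀ (i : Fin (D + 1)) (L' I : Fin i → ι) (j : Fin (D + 1)) (L J : Fin j → ι),
      (M *ᵥ (RR D g (Pi.single ⟨i, (L', I)⟩ 1))) ⟨j, (L, J)⟩ =
        (blk M j i J I * TP g i) L L' := by
    intro i L' I j L J
    rw [Matrix.mulVec, dotProduct, Fintype.sum_sigma, Finset.sum_eq_single i]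
    · rw [Fintype.sum_prod_type, Matrix.mul_apply]
      refine Finset.sum_congr rfl fun L'' _ => ?_
      rw [Finset.sum_eq_single I]
      · have h2 : RR D g (Pi.single ⟨i, (L', I)⟩ 1) ⟨i, (L'', I)⟩ = TP g i L'' L' := by
          rw [RR_apply, tpow_apply, Finset.sum_eq_single L']
          · rw [Pi.single_eq_same, mul_one]
            rfl
          · intro K _ hK
            rw [Pi.single_eq_of_ne, mul_zero]
            intro h
            have h2 : (⟨i, (K, I)⟩ : EI ι D) = ⟨i, (L', I)⟩ := h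
            exact hK (Prod.mk.inj (eq_of_heq (Sigma.mk.inj h2).2)).1
          · intro h; exact absurd (Finset.mem_univ _) h
        rw [h2]
        rfl
      · intro I' _ hI'
        have h2 : RR D g (Pi.single ⟨i, (L', I)⟩ 1) ⟨i, (L'', I')⟩ = 0 := by
          rw [RR_apply, tpow_apply]
          refine Finset.sum_eq_zero fun K _ => ?_
          rw [Pi.single_eq_of_ne, mul_zero]
          intro h
          have h2 : (⟨i, (K, I')⟩ : EI ι D) = ⟨i, (L', I)⟩ := h
          exact hI' (Prod.mk.inj (eq_of_heq (Sigma.mk.inj h2).2)).2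
        rw [h2, mul_zero]
      · intro h; exact absurd (Finset.mem_univ _) h
    · intro i' _ hi'
      refine Finset.sum_eq_zero fun b _ => ?_
      have h2 : RR D g (Pi.single ⟨i, (L', I)⟩ 1) ⟨i', b⟩ = 0 := by
        rw [RR_apply, tpow_apply]
        refine Finset.sum_eq_zero fun K _ => ?_
        rw [Pi.single_eq_of_ne, mul_zero]
        intro h
        exact hi' (congrArg Sigma.fst h)
      rw [h2, mul_zero]
    · intro h; exact absurd (Finset.mem_univ _) h
  have h3 : ∀ (i : Fin (D + 1)) (L' I : Fin i → ι) (j : Fin (D + 1)) (L J : Fin j → ι),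
      (RR D g (M *ᵥ (Pi.single ⟨i, (L', I)⟩ 1))) ⟨j, (L, J)⟩ =
        (TP g j * blk M j i J I) L L' := by
    intro i L' I j L J
    rw [RR_apply, tpow_apply, Matrix.mul_apply]
    refine Finset.sum_congr rfl fun L'' _ => ?_
    congr 1
    rw [Matrix.mulVec_single_one]
    rfl
  constructor
  · intro h j i J I
    ext L L'
    rw [← h1, ← h3, h]
  · intro h v
    have h4 : v = ∑ a, v a • (Pi.single a (1 : ℂ) : EI ι D → ℂ) := by
      funext b
      rw [Finset.sum_apply, Finset.sum_eq_single b]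
      · simp
      · intro a _ ha
        rw [Pi.smul_apply, Pi.single_eq_of_ne (Ne.symm ha), smul_zero]
      · intro h; exact absurd (Finset.mem_univ _) h
    rw [h4]
    simp only [map_sum, map_smul, Matrix.mulVec_sum, Matrix.mulVec_smul]
    refine Finset.sum_congr rfl fun a _ => ?_
    congr 1
    funext b
    obtain ⟨i, L', I⟩ := a
    obtain ⟨j, L, J⟩ := b
    rw [h1, h3, h]

/-- The inverse of the complexification of a rational matrix. -/
lemma qc_inv {Q : Matrix ι ι ℚ} (hQ : (qc Q).det ≠ 0) : qc Q⁻¹ = (qc Q)⁻¹ := by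
  have h1 : (qc Q).det = ((Q.det : ℚ) : ℂ) := by
    have := RingHom.map_det (Rat.castHom ℂ) Q
    exact this.symm
  have h2 : Q.det ≠ 0 := by
    intro h
    rw [h1, h, Rat.cast_zero] at hQ
    exact hQ rfl
  symm
  apply Matrix.inv_eq_right_inv
  have h3 : qc Q * qc Q⁻¹ = qc (Q * Q⁻¹) := by
    have := Matrix.map_mul (f := Rat.castHom ℂ) (L := Q) (M := Q⁻¹)
    exact this.symm
  rw [h3, Matrix.mul_nonsing_inv _ (isUnit_iff_ne_zero.2 h2)]
  exact Matrix.map_one _ Rat.cast_zero Rat.cast_one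

namespace PHS

variable {V : PHS ι}

lemma det_Q : V.Q.det ≠ 0 := by
  have h1 : (qc V.Q).det = ((V.Q.det : ℚ) : ℂ) := (RingHom.map_det (Rat.castHom ℂ) V.Q).symm
  intro h
  have := qc_det (V := V)
  rw [h1, h, Rat.cast_zero] at this
  exact this rfl

lemma c_Om {z : ℂ} (hz : z ≠ 0) : V.c z * qc V.Q⁻¹ * (V.c z).transpose = qc V.Q⁻¹ := by
  rw [qc_inv qc_det]
  have h0 := isUnit_iff_ne_zero.2 (qc_det (V := V))
  have h1 : (V.c z).transpose * qc V.Q * V.c z = qc V.Q := V.inv z hz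
  have hc := isUnit_iff_ne_zero.2 (c_det (V := V) hz)
  have h2 : (V.c z * (qc V.Q)⁻¹ * (V.c z).transpose) * qc V.Q = 1 := by
    have h3 : (V.c z).transpose * qc V.Q = qc V.Q * (V.c z)⁻¹ := by
      conv_rhs => rw [← h1]
      rw [Matrix.mul_assoc, Matrix.mul_nonsing_inv _ hc, Matrix.mul_one]
    rw [Matrix.mul_assoc, h3, Matrix.mul_assoc, ← Matrix.mul_assoc (qc V.Q)⁻¹,
      Matrix.nonsing_inv_mul _ h0, Matrix.one_mul, Matrix.mul_nonsing_inv _ hc]
  exact (Matrix.inv_eq_left_inv h2).symm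

/-- The tensor of the inverse of the polarisation. -/
noncomputable def Om (Q : Matrix ι ι ℚ) : (Fin 2 → ι) → ℚ := fun I => Q⁻¹ (I 0) (I 1)

lemma mat2_Om (Q : Matrix ι ι ℚ) : mat2 (cx (Om Q)) = qc Q⁻¹ := by
  ext a b
  rw [mat2, Matrix.of_apply]
  rfl

lemma mat2_inj {Ω Ω' : (Fin 2 → ι) → ℂ} (h : mat2 Ω = mat2 Ω') : Ω = Ω' := by
  funext I
  have h1 := congrFun (congrFun h (I 0)) (I 1)
  rw [mat2, mat2, Matrix.of_apply, Matrix.of_apply] at h1
  have h2 : ![I 0, I 1] = I := by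
    funext k
    fin_cases k <;> rfl
  rwa [h2] at h1

lemma Om_mem : Om V.Q ∈ V.T 2 := by
  intro z hz
  apply mat2_inj
  rw [tpow_two, mat2_Om, c_Om hz]

/-- **Theorem B.** A matrix which fixes the invariants of bounded degree fixes all invariants. -/
theorem fix_all (V : PHS ι) (hD : (2 * V.d + 1) ^ (Fintype.card ι ^ 2) *
    (Fintype.card ι ^ 2 + 1) ^ (Fintype.card ι ^ 2 + 1) ≤ D) {h : Matrix ι ι ℂ}
    (hh : ∀ m ≤ 2 * D, ∀ t ∈ V.T m, tpow h m (cx t) = cx t) {n : ℕ} {t : (Fin n → ι) → ℚ}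
    (ht : t ∈ V.T n) : tpow h n (cx t) = cx t := by
  have hD1 : 1 ≤ D := by
    refine le_trans ?_ hD
    exact Nat.one_le_iff_ne_zero.2 (Nat.mul_ne_zero (pow_ne_zero _ (by omega))
      (pow_ne_zero _ (by omega)))
  -- the matrix preserves the polarisation
  have hOm : h * qc V.Q⁻¹ * h.transpose = qc V.Q⁻¹ := by
    have h1 := hh 2 (by omega) _ (Om_mem (V := V))
    rw [← mat2_Om, ← tpow_two, h1]
  have hOdet : (qc V.Q⁻¹).det ≠ 0 := by
    rw [qc_inv qc_det]
    intro h0
    have h1 := congrArg Matrix.det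
      (Matrix.mul_nonsing_inv (qc V.Q) (isUnit_iff_ne_zero.2 (qc_det (V := V))))
    rw [Matrix.det_mul, h0, mul_zero, Matrix.det_one] at h1
    exact zero_ne_one h1
  have hdet : h.det ≠ 0 := by
    intro h0
    have h1 := congrArg Matrix.det hOm
    rw [Matrix.det_mul, Matrix.det_mul, h0, zero_mul, zero_mul] at h1
    exact hOdet h1.symm
  -- the subspace of the equations
  let W : Submodule ℂ (EI ι D → ℂ) := (V.P.restrictScalars ℂ).comap (Phi D)
  have hW : ∀ e, e ∈ W ↔ Phi D e ∈ V.P := fun e => Iff.rfl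
  have hWst : ∀ (σ : ℂ ≃+* ℂ), ∀ e ∈ W, (fun i => σ (e i)) ∈ W := by
    intro σ e he
    rw [hW] at he ⊢
    rw [← map_Phi]
    exact map_mem_P he σ
  have hWR : ∀ g ∈ Gam V.d V.Es, ∀ e ∈ W, RR D g e ∈ W := by
    intro g hg e he
    rw [hW] at he ⊢
    rw [← rho_Phi]
    exact rho_mem_P he hg
  have hI := c_mem (V := V) Complex.I_ne_zero
  obtain ⟨B, hB, hgram⟩ := V.gram
  obtain ⟨Pr, hP1, hP2, hP3, hP4⟩ := exists_projection (GG D V.Q) W hWst (RR D (V.c Complex.I))
    (hWR _ hI) fun x hx => pos_GG hB hgram x hx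
  -- it commutes with the one-parameter family
  have hcomm : ∀ z : ℂ, z ≠ 0 → ∀ (j i : Fin (D + 1)) (J : Fin j → ι) (I : Fin i → ι),
      TP (V.c z) j * blk (Pr.map fun q : ℚ => (q : ℂ)) j i J I =
        blk (Pr.map fun q : ℚ => (q : ℂ)) j i J I * TP (V.c z) i := by
    intro z hz
    rw [← comm_iff]
    intro v
    refine projection_comm (G := (GG D V.Q).map fun q : ℚ => (q : ℂ)) (C := W) (Pr := cxM Pr)
      (g := RR D (V.c z)) (g' := RR D (V.c z⁻¹)) hP1 hP2 hP4 hP3 (hWR _ (c_mem hz))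
      (hWR _ (c_mem (inv_ne_zero hz))) (fun v => ?_) (fun v w => bf_RR (V.inv z hz) v w) v
    rw [RR_mul, c_inv hz, RR_one]
  -- hence with h
  have hcommh : ∀ v, (Pr.map fun q : ℚ => (q : ℂ)) *ᵥ (RR D h v) =
      RR D h ((Pr.map fun q : ℚ => (q : ℂ)) *ᵥ v) := by
    rw [comm_iff]
    intro j i J I
    rw [← inv_iff hdet hOdet hOm]
    have h1 : tenM (blk (Pr.map fun q : ℚ => (q : ℂ)) j i J I * TP (qc V.Q⁻¹) i) =
        cx (tenM (blk Pr j i J I * TP V.Q⁻¹ i)) := by
      funext L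
      simp only [tenM, cx, Matrix.mul_apply, Rat.cast_sum, Rat.cast_mul]
      refine Finset.sum_congr rfl fun L' _ => ?_
      congr 1
      rw [TP_apply, TP_apply, Rat.cast_prod]
      rfl
    rw [h1]
    apply hh
    · have := j.2
      have := i.2
      omega
    · intro z hz
      rw [← h1]
      exact (inv_iff (c_det hz) hOdet (c_Om hz) _).2 (hcomm z hz j i J I)
  have hWh : ∀ e ∈ W, RR D h e ∈ W := by
    intro e he
    have h1 := hcommh e
    have h2 : (Pr.map fun q : ℚ => (q : ℂ)) *ᵥ e = e := hP1 e he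
    rw [h2] at h1
    rw [← h1]
    exact hP2 _
  have hbd : ∀ f ∈ V.P, f.totalDegree ≤ D → evM h f = 0 := by
    intro f hf hfD
    obtain ⟨e, rfl⟩ := exists_Phi hfD
    have h1 := (hW _).1 (hWh e hf)
    rw [← rho_Phi] at h1
    have h2 := (mem_PG.1 h1) 1 (Submonoid.one_mem _)
    rwa [evM_rho, one_mul] at h2
  have hall := bounded_equations (E := V.Es) (fun σ => Es_one σ) hD hbd
  rw [← ft_eval_iff]
  intro I
  exact hall _ (ft_mem_P ht I)

end PHS

end Pool.Agent.Q60.ED
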