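import Pool.Agent.Q60.ED.ThmB2

/-!
# Closed systems of invariant tensors which contain the invariants of bounded degree
-/

set_option linter.unusedSectionVars false

namespace Pool.Agent.Q60.ED

open MvPolynomial Module Matrix

variable {ι : Type} [Fintype ι] [DecidableEq ι]

namespace TSys

/-- The complexification of a system of tensors. -/
noncomputable def cplx (T : TSys ℚ ι) : TSys ℂ ι := by
  have hpm : ∀ n u, (LinearMap.toMatrix' (T.p n)).mulVec u = T.p n u := fun n u => by
    rw [← Matrix.toLin'_apply, Matrix.toLin'_toMatrix']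
  have hcx : ∀ n u, cxM (LinearMap.toMatrix' (T.p n)) (cx u) = cx (T.p n u) := fun n u => by
    rw [cxM_cx, hpm]
  have hsum : ∀ {n : ℕ} (v : (Fin n → ι) → ℂ), v = ∑ a, v a • cx (Pi.single a (1 : ℚ)) := by
    intro n v
    funext b
    rw [Finset.sum_apply, Finset.sum_eq_single b]
    · simp [cx]
    · intro a _ ha
      rw [Pi.smul_apply, cx, Pi.single_apply, if_neg (Ne.symm ha), Rat.cast_zero, smul_zero]
    · intro h; exact absurd (Finset.mem_univ _) h
  exact
  { S := fun n => Submodule.span ℂ (cx '' (T.S n : Set ((Fin n → ι) → ℚ)))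
    p := fun n => cxM (LinearMap.toMatrix' (T.p n))
    p_mem := fun n t => by
      rw [hsum t, map_sum]
      refine Submodule.sum_mem _ fun a _ => ?_
      rw [map_smul, hcx]
      exact Submodule.smul_mem _ _ (Submodule.subset_span ⟨_, T.p_mem n _, rfl⟩)
    p_id := fun n t ht => by
      refine Submodule.span_induction (p := fun t _ =>
        cxM (LinearMap.toMatrix' (T.p n)) t = t) ?_ (map_zero _)
        (fun a b _ _ ha hb => by rw [map_add, ha, hb]) (fun c a _ ha => by rw [map_smul, ha]) ht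
      rintro _ ⟨s, hs, rfl⟩
      rw [hcx, T.p_id n s hs]
    p_perm := fun n σ t I => by
      let L : ((Fin n → ι) → ℂ) →ₗ[ℂ] ((Fin n → ι) → ℂ) := LinearMap.funLeft ℂ ℂ fun J => J ∘ σ
      have h1 : ∀ t, cxM (LinearMap.toMatrix' (T.p n)) (L t) =
          L (cxM (LinearMap.toMatrix' (T.p n)) t) := by
        intro t
        rw [hsum t]
        simp only [map_sum, map_smul]
        refine Finset.sum_congr rfl fun a _ => ?_
        congr 1
        have h2 : L (cx (Pi.single a (1 : ℚ))) = cx fun J => (Pi.single a (1 : ℚ) :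
          (Fin n → ι) → ℚ) (J ∘ σ) := rfl
        rw [h2, hcx, hcx]
        funext I
        change ((T.p n (fun J => (Pi.single a (1 : ℚ) : (Fin n → ι) → ℚ) (J ∘ σ)) I : ℚ) : ℂ) = _
        rw [T.p_perm n σ]
        rfl
      exact congrFun (h1 t) I
    p_tmul := fun m n s t hs => by
      have h1 : ∀ t, cxM (LinearMap.toMatrix' (T.p (m + n))) (tmul s t) =
          tmul s (cxM (LinearMap.toMatrix' (T.p n)) t) := by
        intro t
        have hadd : ∀ (s : (Fin m → ι) → ℂ) (t t' : (Fin n → ι) → ℂ),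
            tmul s (t + t') = tmul s t + tmul s t' := fun s t t' => by
          funext I; simp [tmul, mul_add]
        have hadd' : ∀ (s s' : (Fin m → ι) → ℂ) (t : (Fin n → ι) → ℂ),
            tmul (s + s') t = tmul s t + tmul s' t := fun s s' t => by
          funext I; simp [tmul, add_mul]
        have hsmul : ∀ (c : ℂ) (s : (Fin m → ι) → ℂ) (t : (Fin n → ι) → ℂ),
            tmul s (c • t) = c • tmul s t := fun c s t => by
          funext I; simp only [tmul, Pi.smul_apply, smul_eq_mul]; ring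
        have hsmul' : ∀ (c : ℂ) (s : (Fin m → ι) → ℂ) (t : (Fin n → ι) → ℂ),
            tmul (c • s) t = c • tmul s t := fun c s t => by
          funext I; simp only [tmul, Pi.smul_apply, smul_eq_mul]; ring
        have hzero : ∀ s : (Fin m → ι) → ℂ, tmul s (0 : (Fin n → ι) → ℂ) = 0 := fun s => by
          funext I; simp [tmul]
        have hzero' : ∀ t : (Fin n → ι) → ℂ, tmul (0 : (Fin m → ι) → ℂ) t = 0 := fun s => by
          funext I; simp [tmul]
        rw [hsum t]
        have h3 : ∀ S : Finset (Fin n → ι), cxM (LinearMap.toMatrix' (T.p (m + n)))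
            (tmul s (∑ a ∈ S, t a • cx (Pi.single a (1 : ℚ)))) =
            tmul s (cxM (LinearMap.toMatrix' (T.p n))
              (∑ a ∈ S, t a • cx (Pi.single a (1 : ℚ)))) := by
          intro S
          classical
          induction S using Finset.induction_on with
          | empty => rw [Finset.sum_empty, hzero, map_zero, map_zero, hzero]
          | insert a S ha ih =>
            rw [Finset.sum_insert ha, hadd, map_add, map_add, hadd, ih]
            congr 1
            rw [hsmul, map_smul, map_smul, hsmul]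
            congr 1
            refine Submodule.span_induction (p := fun s _ =>
              cxM (LinearMap.toMatrix' (T.p (m + n))) (tmul s (cx (Pi.single a (1 : ℚ)))) =
              tmul s (cxM (LinearMap.toMatrix' (T.p n)) (cx (Pi.single a (1 : ℚ))))) ?_
              (by rw [hzero', map_zero, hzero']) (fun a b _ _ ha hb => by
                rw [hadd', map_add, ha, hb, hadd']) (fun c a _ ha => by
                rw [hsmul', map_smul, ha, hsmul']) hs
            rintro _ ⟨s, hs, rfl⟩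
            have h4 : ∀ t : (Fin n → ι) → ℚ, tmul (cx s) (cx t) = cx (tmul s t) := fun t => by
              funext I; simp [tmul, cx]
            rw [h4, hcx, hcx, T.p_tmul m n s _ hs, h4]
        exact h3 _
      exact h1 t
    one := by
      have h1 : (fun _ => 1 : (Fin 0 → ι) → ℂ) = cx fun _ => 1 := by
        funext I; simp [cx]
      rw [h1]
      exact Submodule.subset_span ⟨_, T.one, rfl⟩ }

lemma cplx_S (T : TSys ℚ ι) (n : ℕ) :
    T.cplx.S n = Submodule.span ℂ (cx '' (T.S n : Set ((Fin n → ι) → ℚ))) := rfl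

lemma mem_cplx {T : TSys ℚ ι} {n : ℕ} {t : (Fin n → ι) → ℚ} (ht : t ∈ T.S n) :
    cx t ∈ T.cplx.S n := Submodule.subset_span ⟨t, ht, rfl⟩

lemma of_mem_cplx {T : TSys ℚ ι} {n : ℕ} {t : (Fin n → ι) → ℚ} (ht : cx t ∈ T.cplx.S n) :
    t ∈ T.S n := by
  have h1 := T.cplx.p_id n _ ht
  have h2 : T.cplx.p n (cx t) = cx (T.p n t) := by
    change cxM (LinearMap.toMatrix' (T.p n)) (cx t) = _
    rw [cxM_cx, ← Matrix.toLin'_apply, Matrix.toLin'_toMatrix']
  rw [h2] at h1
  rw [← cx_inj h1]
  exact T.p_mem n t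

end TSys

/-- A system of rational tensors which is closed under products, permutations and contractions
with a bilinear form, and contains the tensor of its inverse. -/
structure PSys (Q : Matrix ι ι ℚ) where
  /-- the tensors of the system -/
  S : ∀ n : ℕ, Submodule ℚ ((Fin n → ι) → ℚ)
  one : (fun _ => 1) ∈ S 0
  mul : ∀ {m n : ℕ} {s : (Fin m → ι) → ℚ} {t : (Fin n → ι) → ℚ}, s ∈ S m → t ∈ S n →
    tmul s t ∈ S (m + n)
  perm : ∀ {n : ℕ} (σ : Equiv.Perm (Fin n)) {t : (Fin n → ι) → ℚ}, t ∈ S n →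
    (fun J => t (J ∘ σ)) ∈ S n
  contr : ∀ {m n : ℕ} {s : (Fin m → ι) → ℚ} {t : (Fin (m + n) → ι) → ℚ}, s ∈ S m →
    t ∈ S (m + n) → (fun J => ∑ I, ∑ I', s I * TP Q m I I' * t (Fin.append I' J)) ∈ S n
  cas : PHS.Om Q ∈ S 2

namespace PHS

variable {V : PHS ι}

lemma pos_T {n : ℕ} {t : (Fin n → ι) → ℚ} (ht : t ∈ V.T n) (h : bf (TP V.Q n) t t = 0) : t = 0 := by
  obtain ⟨B, hB, hgram⟩ := V.gram
  have h1 := bf_gram hgram n (cx t)
  have h2 : (fun J => starRingEnd ℂ (cx t J)) = cx t := by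
    funext J
    simp [cx]
  rw [h2] at h1
  have h3 : tpow (coch V.d V.E Complex.I) n (cx t) = cx t := ht Complex.I Complex.I_ne_zero
  rw [h3] at h1
  have h4 : TP (qc V.Q) n = (TP V.Q n).map fun q : ℚ => (q : ℂ) := by
    ext I J
    rw [Matrix.map_apply, TP_apply, TP_apply, Rat.cast_prod]
    rfl
  rw [h4, bf_cx, h, Rat.cast_zero] at h1
  have h5 : ∑ J, Complex.normSq ((TP B n *ᵥ cx t) J) = 0 := by exact_mod_cast h1.symm
  rw [Finset.sum_eq_zero_iff_of_nonneg fun _ _ => Complex.normSq_nonneg _] at h5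
  have h6 : (TP B n *ᵥ cx t) = 0 := by
    funext L
    exact Complex.normSq_eq_zero.1 (h5 L (Finset.mem_univ _))
  have h7 := congrArg (fun v => TP B⁻¹ n *ᵥ v) h6
  simp only [Matrix.mulVec_mulVec, (TP_det hB n).2, Matrix.one_mulVec, Matrix.mulVec_zero] at h7
  apply cx_inj
  rw [h7]
  funext a
  simp [cx]

end PHS

lemma bf_tmul (Q : Matrix ι ι ℚ) {m n : ℕ} (s : (Fin m → ι) → ℚ) (t : (Fin n → ι) → ℚ)
    (w : (Fin (m + n) → ι) → ℚ) : bf (TP Q (m + n)) (tmul s t) w =
      bf (TP Q n) t fun J => ∑ I, ∑ I', s I * TP Q m I I' * w (Fin.append I' J) := by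
  simp only [bf, sum_append, Finset.mul_sum]
  rw [Finset.sum_comm]
  refine Finset.sum_congr rfl fun J _ => ?_
  have h1 : ∀ (x : Fin m → ι), ∑ x_1 : Fin m → ι, ∑ x_2 : Fin n → ι,
      tmul s t (Fin.append x J) * TP Q (m + n) (Fin.append x J) (Fin.append x_1 x_2) *
        w (Fin.append x_1 x_2) = ∑ x_2 : Fin n → ι, ∑ x_1 : Fin m → ι,
      t J * TP Q n J x_2 * (s x * TP Q m x x_1 * w (Fin.append x_1 x_2)) := by
    intro x
    rw [Finset.sum_comm]
    refine Finset.sum_congr rfl fun J' _ => Finset.sum_congr rfl fun I' _ => ?_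
    rw [TP_apply, TP_apply, TP_apply, Fin.prod_univ_add, tmul]
    simp only [Fin.append_left, Fin.append_right]
    ring
  simp only [h1]
  rw [Finset.sum_comm]

lemma bf_perm (Q : Matrix ι ι ℚ) {n : ℕ} (σ : Equiv.Perm (Fin n)) (s t : (Fin n → ι) → ℚ) :
    bf (TP Q n) (fun J => s (J ∘ σ)) t = bf (TP Q n) s fun J => t (J ∘ σ.symm) := by
  let e : (Fin n → ι) ≃ (Fin n → ι) := Equiv.arrowCongr σ (Equiv.refl ι)
  have he : ∀ J, e J = J ∘ σ.symm := fun J => rfl
  simp only [bf]
  rw [← Equiv.sum_comp e]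
  refine Finset.sum_congr rfl fun I _ => ?_
  rw [← Equiv.sum_comp e]
  refine Finset.sum_congr rfl fun J _ => ?_
  have h1 : e I ∘ σ = I := by
    rw [he]; funext k; simp
  have h2 : TP Q n (e I) (e J) = TP Q n I J := by
    rw [TP_apply, TP_apply, he, he]
    exact Equiv.prod_comp σ.symm fun k => Q (I k) (J k)
  rw [h1, h2, he]

namespace PSys

variable {V : PHS ι}

/-- The system with its orthogonal projections. -/
theorem exists_tsys (S : PSys V.Q) (hS : ∀ n, S.S n ≤ V.T n) : ∃ T : TSys ℚ ι, T.S = S.S := by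
  have hnd : ∀ n, ∀ v ∈ S.S n, (∀ w ∈ S.S n, bf (TP V.Q n) v w = 0) → v = 0 := by
    intro n v hv h
    exact PHS.pos_T (hS n hv) (h v hv)
  choose p h1 h2 h3 using fun n => exists_orth (TP V.Q n) (S.S n) (hnd n)
  have huniq : ∀ n v x, x ∈ S.S n → (∀ w ∈ S.S n, bf (TP V.Q n) x w = bf (TP V.Q n) v w) →
      p n v = x := by
    intro n v x hx h
    rw [← sub_eq_zero]
    apply hnd n _ (Submodule.sub_mem _ (h1 n v) hx)
    intro w hw
    rw [bf_sub_left, h3 n v w hw, h w hw, sub_self]
  refine ⟨⟨S.S, p, h1, h2, ?_, ?_, S.one⟩, rfl⟩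
  · intro n σ t I
    refine congrFun (huniq n _ (fun I => p n t (I ∘ σ)) (S.perm σ (h1 n t)) fun w hw => ?_) I
    rw [bf_perm, bf_perm, h3 n t _ (S.perm σ.symm hw)]
  · intro m n s t hs
    refine huniq _ _ _ (S.mul hs (h1 n t)) fun w hw => ?_
    rw [bf_tmul, bf_tmul, h3 n t _ (S.contr hs hw)]

/-- **Theorem C.** A closed system of invariant tensors, which contains all invariants of bounded
degree, consists of all invariants. -/
theorem eq_top (S : PSys V.Q) (hS : ∀ n, S.S n ≤ V.T n) {D : ℕ}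
    (hD : (2 * V.d + 1) ^ (Fintype.card ι ^ 2) *
      (Fintype.card ι ^ 2 + 1) ^ (Fintype.card ι ^ 2 + 1) ≤ D)
    (h : ∀ m ≤ 2 * D, V.T m ≤ S.S m) (n : ℕ) : V.T n ≤ S.S n := by
  obtain ⟨T, hT⟩ := S.exists_tsys hS
  intro t ht
  rw [← hT]
  apply TSys.of_mem_cplx
  have hOm : cx (PHS.Om V.Q) ∈ T.cplx.S 2 := by
    apply TSys.mem_cplx
    rw [hT]
    exact S.cas
  have hdet : (mat2 (cx (PHS.Om V.Q))).det ≠ 0 := by
    rw [PHS.mat2_Om, qc_inv PHS.qc_det]
    intro h0
    have h1 := congrArg Matrix.det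
      (Matrix.mul_nonsing_inv (qc V.Q) (isUnit_iff_ne_zero.2 (PHS.qc_det (V := V))))
    rw [Matrix.det_mul, h0, mul_zero, Matrix.det_one] at h1
    exact zero_ne_one h1
  refine T.cplx.mem_of_fixed hOm hdet fun g hg => ?_
  refine V.fix_all hD (fun m hm s hs => ?_) ht
  refine hg m _ (TSys.mem_cplx ?_)
  rw [hT]
  exact h m hm hs

end PSys

end Pool.Agent.Q60.ED
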