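import Pool.Agent.Q60.ED.Cartier

/-!
# A system of tensors consists of the invariants of its stabiliser
-/

set_option linter.unusedSectionVars false

namespace Pool.Agent.Q60.ED

open MvPolynomial Algebra Module

variable {K : Type} [Field K] {ι : Type} [Fintype ι] [DecidableEq ι]
  {S : ∀ n : ℕ, Submodule K ((Fin n → ι) → K)}

lemma sum_fin_two {M : Type} [AddCommMonoid M] (F : (Fin 2 → ι) → M) :
    ∑ J, F J = ∑ c, ∑ d, F ![c, d] := by
  rw [← Equiv.sum_comp (finTwoArrowEquiv ι).symm, Fintype.sum_prod_type]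
  rfl

/-- The matrix of a tensor of degree two. -/
def mat2 (Ω : (Fin 2 → ι) → K) : Matrix ι ι K := Matrix.of fun a b => Ω ![a, b]

lemma tpow_two (h : Matrix ι ι K) (Ω : (Fin 2 → ι) → K) :
    mat2 (tpow h 2 Ω) = h * mat2 Ω * h.transpose := by
  ext a b
  rw [mat2, Matrix.of_apply, tpow_apply, sum_fin_two, Matrix.mul_apply]
  simp only [Matrix.mul_apply, Matrix.transpose_apply, Finset.sum_mul, Fin.prod_univ_two,
    Matrix.cons_val_zero, Matrix.cons_val_one]
  rw [Finset.sum_comm]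
  refine Finset.sum_congr rfl fun c _ => Finset.sum_congr rfl fun d _ => ?_
  rw [mat2, Matrix.of_apply]
  ring

lemma fix_det {Ω : (Fin 2 → ι) → K} (hΩ : Ω ∈ S 2) (hdet : (mat2 Ω).det ≠ 0) {h : Matrix ι ι K}
    (hh : Fix S h) : h.det ≠ 0 := by
  intro h0
  have h1 := tpow_two h Ω
  rw [hh 2 Ω hΩ] at h1
  have h2 := congrArg Matrix.det h1
  rw [Matrix.det_mul, Matrix.det_mul, h0, zero_mul, zero_mul] at h2
  exact hdet h2

lemma tpow_inv {h : Matrix ι ι K} (hdet : h.det ≠ 0) {n : ℕ} {t : (Fin n → ι) → K}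
    (ht : tpow h n t = t) : tpow h⁻¹ n t = t := by
  conv_lhs => rw [← ht]
  rw [← tpow_mul, Matrix.nonsing_inv_mul _ (isUnit_iff_ne_zero.2 hdet), tpow_one]

lemma rho_IS {h : Matrix ι ι K} (hh : Fix S h) {f : MvPolynomial (ι × ι) K} (hf : f ∈ IS S) :
    rho h f ∈ IS S := by
  have h1 : IS S ≤ (IS S).comap (rho h).toRingHom := by
    rw [IS, Ideal.span_le]
    rintro _ ⟨n, s, I, hs, rfl⟩
    change rho h (ft s I) ∈ IS S
    rw [rho_ft (hh n s hs)]
    exact ft_mem hs I
  exact h1 hf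

/-- **Tensors fixed by the stabiliser satisfy the equations of the ideal.** -/
theorem ft_mem_of_fixed [IsAlgClosed K] [CharZero K] {Ω : (Fin 2 → ι) → K} (hΩ : Ω ∈ S 2)
    (hdet : (mat2 Ω).det ≠ 0) {n : ℕ} {t : (Fin n → ι) → K}
    (ht : ∀ h, Fix S h → tpow h n t = t) (I : Fin n → ι) : ft t I ∈ IS S := by
  have hf1 : ft t I ∈ (P1 : Ideal (MvPolynomial (ι × ι) K)) := by
    rw [mem_P1, evM_ft, tpow_one, sub_self]
  obtain ⟨u, hu1, hu⟩ := exists_unit (S := S) hf1 fun A hA => by
    rw [dA_ft, aop_eq_zero hA ht, xt_zero]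
  -- the ideal of the denominators
  let J : Ideal (MvPolynomial (ι × ι) K) :=
    { carrier := {v | v * ft t I ∈ IS S}
      add_mem' := fun {a b} ha hb => by
        change (a + b) * ft t I ∈ IS S
        rw [add_mul]; exact Ideal.add_mem _ ha hb
      zero_mem' := by
        change 0 * ft t I ∈ IS S
        rw [zero_mul]; exact Ideal.zero_mem _
      smul_mem' := fun c a ha => by
        change (c * a) * ft t I ∈ IS S
        rw [mul_assoc]; exact Ideal.mul_mem_left _ _ ha }
  have hJ : ∀ v, v ∈ J ↔ v * ft t I ∈ IS S := fun v => Iff.rfl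
  have htop : J = ⊤ := by
    by_contra hne
    obtain ⟨𝔪, h𝔪, hle⟩ := Ideal.exists_le_maximal J hne
    obtain ⟨x, hx⟩ := (isMaximal_iff_eq_vanishingIdeal_singleton (K := K)).1 h𝔪
    have h1 : ∀ v ∈ J, evM (Matrix.of fun a b => x (a, b)) v = 0 := by
      intro v hv
      have h2 := hle hv
      rw [hx, mem_vanishingIdeal_singleton_iff] at h2
      exact h2
    set h : Matrix ι ι K := Matrix.of fun a b => x (a, b) with hh
    have hfix : Fix S h := by
      rw [fix_iff]
      intro f hf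
      exact h1 f ((hJ f).2 (Ideal.mul_mem_right _ _ hf))
    have hd := fix_det hΩ hdet hfix
    have hfix' : Fix S h⁻¹ := fun m s hs => tpow_inv hd (hfix m s hs)
    have h3 : rho h⁻¹ u ∈ J := by
      rw [hJ]
      have h4 := rho_IS hfix' hu
      rw [map_mul, rho_ft (ht _ hfix')] at h4
      exact h4
    have h5 := h1 _ h3
    rw [evM_rho, Matrix.mul_nonsing_inv _ (isUnit_iff_ne_zero.2 hd), hu1] at h5
    exact one_ne_zero h5
  have h6 : (1 : MvPolynomial (ι × ι) K) ∈ J := by rw [htop]; trivial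
  rw [hJ, one_mul] at h6
  exact h6

/-- **Reconstruction.** A system of tensors with an invertible tensor of degree two consists of
the tensors which are fixed by its stabiliser. -/
theorem TSys.mem_of_fixed [IsAlgClosed K] [CharZero K] (T : TSys K ι) {Ω : (Fin 2 → ι) → K}
    (hΩ : Ω ∈ T.S 2) (hdet : (mat2 Ω).det ≠ 0) {n : ℕ} {t : (Fin n → ι) → K}
    (ht : ∀ h, Fix T.S h → tpow h n t = t) : t ∈ T.S n :=
  T.mem_of_ft fun I => ft_mem_of_fixed hΩ hdet ht I

end Pool.Agent.Q60.ED
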