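import Pool.Agent.Q60.ED.ThmA
import Pool.Agent.W437.HD.Fixed

/-!
# Rational projections onto subspaces which are stable under all automorphisms
-/

set_option linter.unusedSectionVars false

namespace Pool.Agent.Q60.ED

open Module Pool.Agent.W437.HD

variable {B : Type} [Fintype B] [DecidableEq B]

/-- The bilinear form of a matrix. -/
noncomputable def bf {K : Type} [Field K] (G : Matrix B B K) (v w : B → K) : K :=
  ∑ a, ∑ b, v a * G a b * w b

section

variable {K : Type} [Field K] (G : Matrix B B K)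

lemma bf_add_left (v v' w : B → K) : bf G (v + v') w = bf G v w + bf G v' w := by
  simp only [bf, Pi.add_apply, add_mul, Finset.sum_add_distrib]

lemma bf_add_right (v w w' : B → K) : bf G v (w + w') = bf G v w + bf G v w' := by
  simp only [bf, Pi.add_apply, mul_add, Finset.sum_add_distrib]

lemma bf_smul_left (c : K) (v w : B → K) : bf G (c • v) w = c * bf G v w := by
  simp only [bf, Pi.smul_apply, smul_eq_mul, Finset.mul_sum, mul_assoc]

lemma bf_smul_right (c : K) (v w : B → K) : bf G v (c • w) = c * bf G v w := by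
  simp only [bf, Pi.smul_apply, smul_eq_mul, Finset.mul_sum]
  exact Finset.sum_congr rfl fun a _ => Finset.sum_congr rfl fun b _ => by ring

lemma bf_zero_left (w : B → K) : bf G 0 w = 0 := by simp [bf]

lemma bf_zero_right (v : B → K) : bf G v 0 = 0 := by simp [bf]

lemma bf_sub_left (v v' w : B → K) : bf G (v - v') w = bf G v w - bf G v' w := by
  have h1 : v - v' = v + (-1 : K) • v' := by simp [sub_eq_add_neg]
  rw [h1, bf_add_left, bf_smul_left]
  ring

/-- The bilinear form as a linear map. -/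
noncomputable def bfL (W : Submodule K (B → K)) : (B → K) →ₗ[K] (Module.Dual K W) where
  toFun v :=
    { toFun := fun w => bf G v w
      map_add' := fun w w' => bf_add_right G v w w'
      map_smul' := fun c w => bf_smul_right G c v w }
  map_add' v v' := LinearMap.ext fun w => bf_add_left G v v' w
  map_smul' c v := LinearMap.ext fun w => bf_smul_left G c v w

lemma bfL_apply (W : Submodule K (B → K)) (v : B → K) (w : W) : bfL G W v w = bf G v w := rfl

/-- The orthogonal projection. -/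
theorem exists_orth (W : Submodule K (B → K)) (h : ∀ v ∈ W, (∀ w ∈ W, bf G v w = 0) → v = 0) :
    ∃ p : (B → K) →ₗ[K] (B → K), (∀ v, p v ∈ W) ∧ (∀ v ∈ W, p v = v) ∧
      ∀ v, ∀ w ∈ W, bf G (p v) w = bf G v w := by
  let φ : W →ₗ[K] Module.Dual K W := (bfL G W) ∘ₗ W.subtype
  have hφ : Function.Injective φ := by
    rw [injective_iff_map_eq_zero]
    intro v hv
    apply Subtype.ext
    refine h v.1 v.2 fun w hw => ?_
    have h1 := LinearMap.congr_fun hv ⟨w, hw⟩
    exact h1
  have hdim : finrank K W = finrank K (Module.Dual K W) := (Subspace.dual_finrank_eq).symm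
  let e : W ≃ₗ[K] Module.Dual K W := LinearEquiv.ofInjectiveOfFinrankEq φ hφ hdim
  have he : ∀ v, e v = φ v := fun v => rfl
  refine ⟨W.subtype ∘ₗ e.symm.toLinearMap ∘ₗ bfL G W, fun v => (e.symm (bfL G W v)).2, ?_, ?_⟩
  · intro v hv
    have h1 : bfL G W v = e ⟨v, hv⟩ := rfl
    change ((e.symm (bfL G W v) : W) : B → K) = v
    rw [h1, LinearEquiv.symm_apply_apply]
  · intro v w hw
    change bf G ((e.symm (bfL G W v) : W) : B → K) w = _
    have h1 : φ (e.symm (bfL G W v)) = bfL G W v := by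
      rw [← he, LinearEquiv.apply_symm_apply]
    have h2 := LinearMap.congr_fun h1 ⟨w, hw⟩
    exact h2

end

/-- A rational vector as a complex one. -/
def cx {B : Type} (u : B → ℚ) : B → ℂ := fun a => (u a : ℂ)

lemma cx_add (u v : B → ℚ) : cx (u + v) = cx u + cx v := by
  funext a; simp [cx]

lemma cx_smul (c : ℚ) (u : B → ℚ) : cx (c • u) = (c : ℂ) • cx u := by
  funext a; simp [cx]

lemma cx_inj {u v : B → ℚ} (h : cx u = cx v) : u = v := by
  funext a
  have h1 : ((u a : ℚ) : ℂ) = ((v a : ℚ) : ℂ) := congrFun h a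
  exact_mod_cast h1

lemma bf_cx (G : Matrix B B ℚ) (u v : B → ℚ) :
    bf (G.map fun q : ℚ => (q : ℂ)) (cx u) (cx v) = ((bf G u v : ℚ) : ℂ) := by
  simp only [bf, cx, Matrix.map_apply]
  push_cast
  rfl

/-- The complex linear extension of a rational matrix. -/
noncomputable def cxM {A : Type} (M : Matrix A B ℚ) : (B → ℂ) →ₗ[ℂ] (A → ℂ) :=
  (M.map fun q : ℚ => (q : ℂ)).mulVecLin

lemma cxM_apply {A : Type} (M : Matrix A B ℚ) (v : B → ℂ) (a : A) :
    cxM M v a = ∑ b, (M a b : ℂ) * v b := rfl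

lemma cxM_cx {A : Type} (M : Matrix A B ℚ) (v : B → ℚ) : cxM M (cx v) = cx (M.mulVec v) := by
  funext a
  rw [cxM_apply, cx, Matrix.mulVec, dotProduct]
  simp [cx]

/-- **Rational projection.** -/
theorem exists_projection (G : Matrix B B ℚ) (C : Submodule ℂ (B → ℂ))
    (hC : ∀ (σ : ℂ ≃+* ℂ), ∀ v ∈ C, (fun i => σ (v i)) ∈ C)
    (Cw : (B → ℂ) →ₗ[ℂ] (B → ℂ)) (hCw : ∀ v ∈ C, Cw v ∈ C)
    (hpos : ∀ x : B → ℂ, bf (G.map fun q : ℚ => (q : ℂ)) x
      (Cw fun a => starRingEnd ℂ (x a)) = 0 → x = 0) :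
    ∃ Pr : Matrix B B ℚ, (∀ v ∈ C, cxM Pr v = v) ∧ (∀ v, cxM Pr v ∈ C) ∧
      (∀ v, ∀ w ∈ C, bf (G.map fun q : ℚ => (q : ℂ)) (cxM Pr v) w =
        bf (G.map fun q : ℚ => (q : ℂ)) v w) ∧
      ∀ v, (∀ w ∈ C, bf (G.map fun q : ℚ => (q : ℂ)) v w = 0) → cxM Pr v = 0 := by
  set Gc : Matrix B B ℂ := G.map fun q : ℚ => (q : ℂ) with hGc
  -- the rational vectors
  let W : Submodule ℚ (B → ℚ) :=
    { carrier := {u | cx u ∈ C}
      add_mem' := fun {a b} ha hb => by
        change cx (a + b) ∈ C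
        rw [cx_add]; exact C.add_mem ha hb
      zero_mem' := by
        change cx 0 ∈ C
        have : cx (0 : B → ℚ) = 0 := by funext a; simp [cx]
        rw [this]; exact C.zero_mem
      smul_mem' := fun c a ha => by
        change cx (c • a) ∈ C
        rw [cx_smul]; exact C.smul_mem _ ha }
  have hW : ∀ u, u ∈ W ↔ cx u ∈ C := fun u => Iff.rfl
  have hspan := span_rational C hC
  have hind : ∀ (q : (B → ℂ) → Prop), (∀ u ∈ W, q (cx u)) → q 0 → (∀ a b, q a → q b → q (a + b)) →
      (∀ (c : ℂ) a, q a → q (c • a)) → ∀ v ∈ C, q v := by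
    intro q h1 h2 h3 h4 v hv
    rw [hspan] at hv
    refine Submodule.span_induction ?_ h2 (fun a b _ _ ha hb => h3 a b ha hb)
      (fun c a _ ha => h4 c a ha) hv
    rintro _ ⟨hw, u, rfl⟩
    exact h1 u hw
  have hnd : ∀ v ∈ C, (∀ w ∈ C, bf Gc v w = 0) → v = 0 := by
    intro v hv h
    apply hpos
    exact h _ (hCw _ (hC (starRingAut : ℂ ≃+* ℂ) v hv))
  have hndQ : ∀ v ∈ W, (∀ w ∈ W, bf G v w = 0) → v = 0 := by
    intro v hv h
    apply cx_inj
    have h0 : cx (0 : B → ℚ) = 0 := by funext a; simp [cx]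
    rw [h0]
    refine hnd _ hv ?_
    refine hind _ ?_ ?_ ?_ ?_
    · intro u hu
      rw [hGc, bf_cx, h u hu, Rat.cast_zero]
    · exact bf_zero_right _ _
    · intro a b ha hb; rw [bf_add_right, ha, hb, add_zero]
    · intro c a ha; rw [bf_smul_right, ha, mul_zero]
  obtain ⟨p, hp1, hp2, hp3⟩ := exists_orth G W hndQ
  have hpm : ∀ u, (LinearMap.toMatrix' p).mulVec u = p u := fun u => by
    rw [← Matrix.toLin'_apply, Matrix.toLin'_toMatrix']
  have hsum : ∀ v : B → ℂ, v = ∑ a, v a • cx (Pi.single a (1 : ℚ)) := by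
    intro v
    funext b
    rw [Finset.sum_apply, Finset.sum_eq_single b]
    · simp [cx]
    · intro a _ ha
      rw [Pi.smul_apply, cx, Pi.single_apply, if_neg (Ne.symm ha), Rat.cast_zero, smul_zero]
    · intro h; exact absurd (Finset.mem_univ _) h
  have hmem : ∀ v, cxM (LinearMap.toMatrix' p) v ∈ C := by
    intro v
    rw [hsum v, map_sum]
    refine Submodule.sum_mem _ fun a _ => ?_
    rw [map_smul, cxM_cx, hpm]
    exact C.smul_mem _ (hp1 _)
  have horth : ∀ v, ∀ w ∈ C, bf Gc (cxM (LinearMap.toMatrix' p) v) w = bf Gc v w := by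
    intro v
    refine hind (fun w => bf Gc (cxM (LinearMap.toMatrix' p) v) w = bf Gc v w) ?_ ?_ ?_ ?_
    · intro u hu
      have h1 : ∀ x : B → ℂ, bf Gc (cxM (LinearMap.toMatrix' p) x) (cx u) = bf Gc x (cx u) := by
        intro x
        rw [hsum x]
        have h2 : ∀ s : Finset B, bf Gc (cxM (LinearMap.toMatrix' p) (∑ a ∈ s,
            x a • cx (Pi.single a (1 : ℚ)))) (cx u) =
            bf Gc (∑ a ∈ s, x a • cx (Pi.single a (1 : ℚ))) (cx u) := by
          intro s
          induction s using Finset.induction_on with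
          | empty => simp [bf_zero_left]
          | insert a s ha ih =>
            rw [Finset.sum_insert ha, map_add, bf_add_left, bf_add_left, ih, map_smul,
              bf_smul_left, bf_smul_left, cxM_cx, hpm, hGc, bf_cx, bf_cx, hp3 _ u hu]
        exact h2 _
      exact h1 v
    · rw [bf_zero_right, bf_zero_right]
    · intro a b ha hb; rw [bf_add_right, bf_add_right, ha, hb]
    · intro c a ha; rw [bf_smul_right, bf_smul_right, ha]
  refine ⟨LinearMap.toMatrix' p, ?_, hmem, horth, ?_⟩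
  · refine hind _ ?_ ?_ ?_ ?_
    · intro u hu
      rw [cxM_cx, hpm, hp2 u hu]
    · exact map_zero _
    · intro a b ha hb; rw [map_add, ha, hb]
    · intro c a ha; rw [map_smul, ha]
  · intro v hv
    refine hnd _ (hmem v) fun w hw => ?_
    rw [horth v w hw, hv w hw]

/-- The projection commutes with the isometries which preserve the subspace. -/
theorem projection_comm {G : Matrix B B ℂ} {C : Submodule ℂ (B → ℂ)}
    {Pr : (B → ℂ) →ₗ[ℂ] (B → ℂ)} (h1 : ∀ v ∈ C, Pr v = v) (h2 : ∀ v, Pr v ∈ C)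
    (h3 : ∀ v, (∀ w ∈ C, bf G v w = 0) → Pr v = 0) (h4 : ∀ v, ∀ w ∈ C, bf G (Pr v) w = bf G v w)
    {g g' : (B → ℂ) →ₗ[ℂ] (B → ℂ)} (hg : ∀ v ∈ C, g v ∈ C) (hg' : ∀ v ∈ C, g' v ∈ C)
    (hgg : ∀ v, g (g' v) = v) (hiso : ∀ v w, bf G (g v) (g w) = bf G v w) (v : B → ℂ) :
    Pr (g v) = g (Pr v) := by
  have h5 : Pr (g (v - Pr v)) = 0 := by
    apply h3
    intro w hw
    rw [← hgg w, hiso, bf_sub_left, h4 _ _ (hg' w hw), sub_self]
  have h6 : g v = g (Pr v) + g (v - Pr v) := by rw [← map_add]; congr 1; abel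
  rw [h6, map_add, h5, add_zero, h1 _ (hg _ (h2 v))]

end Pool.Agent.Q60.ED
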