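import Pool.Agent.Q60.ED.Chain2

/-!
# Equations of bounded degree for the closure of a monoid generated by one-parameter families
-/

set_option linter.unusedSectionVars false

namespace Pool.Agent.Q60.ED

open MvPolynomial Algebra Cardinal Module

variable {K : Type} [Field K] {ι : Type} [Fintype ι] [DecidableEq ι]

/-- The arithmetic of the degrees. -/
lemma arith {d s D : ℕ} (h : (2 * d + 1) ^ s * (s + 1) ^ (s + 1) ≤ D) :
    (2 * d * D + 1) ^ s < (D / (s + 1) + 1) ^ (s + 1) := by
  have hs : 0 < s + 1 := Nat.succ_pos s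
  have hD : 1 ≤ D := le_trans (Nat.mul_pos (by positivity) (by positivity)) h
  have h1 : D < (D / (s + 1) + 1) * (s + 1) := by
    have := Nat.lt_succ_iff.1 (Nat.lt_succ_self (D / (s + 1)))
    exact Nat.lt_mul_of_div_lt (Nat.lt_succ_self _) hs
  have h2 : (2 * d * D + 1) ^ s * (s + 1) ^ (s + 1) ≤ D ^ (s + 1) := by
    calc (2 * d * D + 1) ^ s * (s + 1) ^ (s + 1) ≤ ((2 * d + 1) * D) ^ s * (s + 1) ^ (s + 1) := by
          refine Nat.mul_le_mul_right _ (Nat.pow_le_pow_left ?_ _)
          nlinarith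
      _ = ((2 * d + 1) ^ s * (s + 1) ^ (s + 1)) * D ^ s := by rw [mul_pow]; ring
      _ ≤ D * D ^ s := Nat.mul_le_mul_right _ h
      _ = D ^ (s + 1) := by rw [pow_succ]; ring
  have h3 : D ^ (s + 1) < (D / (s + 1) + 1) ^ (s + 1) * (s + 1) ^ (s + 1) := by
    rw [← mul_pow]
    exact Nat.pow_lt_pow_left h1 hs.ne'
  exact lt_of_mul_lt_mul_right (h2.trans_lt h3) (Nat.zero_le _)

/-- **Equations of bounded degree.** Every matrix which satisfies all equations of degree at most `D`
of the monoid generated by the one-parameter families satisfies all equations. -/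
theorem bounded_equations [IsAlgClosed K] {J : Type} {d : ℕ} {E : J → ℕ → Matrix ι ι K}
    (h1 : ∀ j, coch d (E j) 1 = 1) {D : ℕ}
    (hD : (2 * d + 1) ^ Fintype.card ι ^ 2 * (Fintype.card ι ^ 2 + 1) ^ (Fintype.card ι ^ 2 + 1) ≤ D)
    {h : Matrix ι ι K} (hh : ∀ f ∈ PG d E, f.totalDegree ≤ D → evM h f = 0) :
    ∀ f ∈ PG d E, evM h f = 0 := by
  classical
  have hinf : Infinite K := IsAlgClosed.instInfinite
  have hG := good_PG (K := K) h1
  set P := PG d E with hP
  have hprime := hG.prime
  intro f hf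
  by_contra hcon
  -- the numbers
  have htr := tr_le P
  have hD' : (2 * d + 1) ^ tr P * (tr P + 1) ^ (tr P + 1) ≤ D := by
    refine le_trans (Nat.mul_le_mul (Nat.pow_le_pow_right (by omega) htr) ?_) hD
    exact (Nat.pow_le_pow_left (by omega) _).trans (Nat.pow_le_pow_right (by omega) (by omega))
  have hlt := arith hD'
  let φ : Fin (Fintype.card (ι × ι)) ≃ ι × ι := (Fintype.equivFin (ι × ι)).symm
  let x : Fin (Fintype.card (ι × ι)) → MvPolynomial (ι × ι) K ⧸ P := fun i => cq P (φ i)
  have hxs : ∀ g : MvPolynomial (ι × ι) K, aeval x (rename φ.symm g) = Ideal.Quotient.mk P g := by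
    intro g
    rw [aeval_rename, ← aeval_cq P g]
    congr 2
    funext p
    simp [x]
  have hal : Algebra.IsAlgebraic (adjoin K (Set.range x)) (MvPolynomial (ι × ι) K ⧸ P) := by
    refine ⟨fun a => ?_⟩
    obtain ⟨g, rfl⟩ := Ideal.Quotient.mk_surjective a
    have h2 : Ideal.Quotient.mk P g ∈ adjoin K (Set.range x) := by
      rw [Algebra.adjoin_range_eq_range_aeval]
      exact ⟨_, hxs g⟩
    exact isAlgebraic_algebraMap (⟨_, h2⟩ : adjoin K (Set.range x))
  have hfin : finrank K (imD (K := K) x D) < (D / (tr P + 1) + 1) ^ (tr P + 1) := by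
    refine lt_of_le_of_lt ?_ (lt_of_le_of_lt (hG.hf D) hlt)
    refine Submodule.finrank_mono (imD_mono (fun i => X (φ i)) (fun i => ?_) (fun i => ?_) D)
    · rw [totalDegree_X]
    · rw [aeval_X]
  obtain ⟨g, hgD, hg, hgv⟩ := separation (trdeg_eq_tr P) (Nat.div_mul_le_self D (tr P + 1)) _ x hal
    hfin (fun i => h (φ i).1 (φ i).2) ⟨rename φ.symm f, by
      rw [hxs]; exact Ideal.Quotient.eq_zero_iff_mem.2 hf, by
      rw [eval_rename]
      intro h3
      apply hcon
      rw [← h3, evM, aeval_eval]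
      congr 2
      funext p
      simp⟩
  apply hgv
  have h4 := hh (rename φ g) (by
    rw [← Ideal.Quotient.eq_zero_iff_mem, ← hxs, rename_rename]
    simpa using hg) ((totalDegree_rename_le _ _).trans hgD)
  rw [evM, aeval_eval, eval_rename] at h4
  exact h4

end Pool.Agent.Q60.ED
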