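import Pool.Agent.Q60.ED.Euler

/-!
# The ideal of a system of tensors is radical (on invariant matrix coefficients)
-/

set_option linter.unusedSectionVars false

namespace Pool.Agent.Q60.ED

open MvPolynomial Algebra Module

variable {K : Type} [Field K] {ι : Type} [Fintype ι] [DecidableEq ι]
  {S : ∀ n : ℕ, Submodule K ((Fin n → ι) → K)}

/-- The matrices which annihilate the tensors of the system. -/
def Lie (S : ∀ n : ℕ, Submodule K ((Fin n → ι) → K)) (A : Matrix ι ι K) : Prop :=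
  ∀ n, ∀ s ∈ S n, aop A s = 0

/-- The matrices which fix the tensors of the system. -/
def Fix (S : ∀ n : ℕ, Submodule K ((Fin n → ι) → K)) (h : Matrix ι ι K) : Prop :=
  ∀ n, ∀ s ∈ S n, tpow h n s = s

lemma fix_one : Fix S (1 : Matrix ι ι K) := fun n s _ => tpow_one n s

lemma evM_IS {h : Matrix ι ι K} (hh : Fix S h) {f : MvPolynomial (ι × ι) K} (hf : f ∈ IS S) :
    evM h f = 0 := by
  have h1 : IS S ≤ RingHom.ker (evM h).toRingHom := by
    rw [IS, Ideal.span_le]
    rintro _ ⟨n, s, I, hs, rfl⟩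
    change evM h (ft s I) = 0
    rw [evM_ft, hh n s hs, sub_self]
  exact h1 hf

lemma fix_iff {h : Matrix ι ι K} : Fix S h ↔ ∀ f ∈ IS S, evM h f = 0 := by
  constructor
  · intro hh f hf; exact evM_IS hh hf
  · intro hh n s hs
    rw [← ft_eval_iff]
    exact fun I => hh _ (ft_mem hs I)

lemma dA_IS {A : Matrix ι ι K} (hA : Lie S A) {f : MvPolynomial (ι × ι) K} (hf : f ∈ IS S) :
    dA A f ∈ IS S := by
  refine Submodule.span_induction (p := fun f _ => dA A f ∈ IS S) ?_ ?_ ?_ ?_ hf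
  · rintro _ ⟨n, s, I, hs, rfl⟩
    rw [dA_ft, hA n s hs, xt_zero]
    exact Ideal.zero_mem _
  · rw [map_zero]; exact Ideal.zero_mem _
  · intro a b _ _ ha hb
    rw [map_add]; exact Ideal.add_mem _ ha hb
  · intro c a ha hda
    rw [smul_eq_mul, Derivation.leibniz, smul_eq_mul, smul_eq_mul]
    exact Ideal.add_mem _ (Ideal.mul_mem_left _ _ hda) (Ideal.mul_mem_right _ _ ha)

lemma IS_le_P1 : IS S ≤ (P1 : Ideal (MvPolynomial (ι × ι) K)) := fun _ hf =>
  mem_P1.2 (evM_IS fix_one hf)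

/-- Tensors which are fixed by the stabiliser satisfy its infinitesimal equations. -/
lemma aop_eq_zero [IsAlgClosed K] [CharZero K] {A : Matrix ι ι K} (hA : Lie S A) {n : ℕ}
    {t : (Fin n → ι) → K} (ht : ∀ h, Fix S h → tpow h n t = t) : aop A t = 0 := by
  have h1 : ∀ I, ft t I ∈ (IS S).radical := by
    intro I
    rw [← vanishingIdeal_zeroLocus_eq_radical (k := K) (K := K)]
    rw [mem_vanishingIdeal_iff]
    intro x hx
    have h2 : Fix S (Matrix.of fun a b => x (a, b)) := by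
      rw [fix_iff]
      intro f hf
      exact hx f hf
    have h3 := (ft_eval_iff _ t).2 (ht _ h2) I
    exact h3
  let _ : Algebra ℚ (MvPolynomial (ι × ι) K) := inferInstance
  have h4 : ∀ I, dA A (ft t I) ∈ (IS S).radical := by
    intro I
    exact der_radical ((dA A).restrictScalars ℤ) (IS S) (fun f hf => dA_IS hA hf) (h1 I)
  funext I
  obtain ⟨m, hm⟩ := h4 I
  have h5 := evM_IS (S := S) fix_one hm
  rw [map_pow, dA_ft, evM_one_xt] at h5
  by_contra hne
  exact pow_ne_zero m hne h5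

/-- The projection along the gradients of the equations. -/
lemma exists_proj (S : ∀ n : ℕ, Submodule K ((Fin n → ι) → K)) :
    ∃ Q : (ι × ι → K) →ₗ[K] (ι × ι → K), (∀ f ∈ IS S, Q (grd f) = 0) ∧
      ∀ v, ∃ f ∈ IS S, v - Q v = grd f := by
  let N : Submodule K (ι × ι → K) := ((IS S).restrictScalars K).map grd
  obtain ⟨s, hs⟩ := N.mkQ.exists_rightInverse_of_surjective N.range_mkQ
  refine ⟨s ∘ₗ N.mkQ, fun f hf => ?_, fun v => ?_⟩
  · have h1 : N.mkQ (grd f) = 0 := (Submodule.Quotient.mk_eq_zero N).2 ⟨f, hf, rfl⟩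
    rw [LinearMap.comp_apply, h1, map_zero]
  · have h1 : v - (s ∘ₗ N.mkQ) v ∈ N := by
      rw [← Submodule.Quotient.mk_eq_zero, ← Submodule.mkQ_apply, map_sub, LinearMap.comp_apply]
      have h2 := LinearMap.congr_fun hs (N.mkQ v)
      rw [LinearMap.comp_apply, LinearMap.id_apply] at h2
      rw [h2, sub_self]
    obtain ⟨f, hf, hfv⟩ := h1
    exact ⟨f, hf, hfv.symm⟩

section Eu

variable (Q : (ι × ι → K) →ₗ[K] (ι × ι → K))

/-- The rows of the projection. -/
noncomputable def row (p : ι × ι) : Matrix ι ι K := Matrix.of fun a b => Q (Pi.single (a, b) 1) p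

lemma row_sum (p : ι × ι) (v : ι × ι → K) : ∑ q, row Q p q.1 q.2 * v q = Q v p := by
  have h1 : v = ∑ q, v q • (Pi.single q 1 : ι × ι → K) := by
    funext r
    rw [Finset.sum_apply, Finset.sum_eq_single r]
    · simp
    · intro q _ hq
      rw [Pi.smul_apply, Pi.single_apply, if_neg (Ne.symm hq), smul_zero]
    · intro h; exact absurd (Finset.mem_univ _) h
  conv_rhs => rw [h1, map_sum, Finset.sum_apply]
  refine Finset.sum_congr rfl fun q _ => ?_
  rw [map_smul, Pi.smul_apply, smul_eq_mul, mul_comm]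
  rfl

/-- The Euler derivation. -/
noncomputable def Eu : Derivation K (MvPolynomial (ι × ι) K) (MvPolynomial (ι × ι) K) :=
  ∑ p : ι × ι, (xi p : MvPolynomial (ι × ι) K) • dA (row Q p)

lemma Eu_apply (f : MvPolynomial (ι × ι) K) : Eu Q f = ∑ p, xi p * dA (row Q p) f := by
  rw [Eu]
  have h1 : ∀ s : Finset (ι × ι), (∑ p ∈ s, (xi p : MvPolynomial (ι × ι) K) • dA (row Q p)) f =
      ∑ p ∈ s, xi p * dA (row Q p) f := by
    classical
    intro s
    induction s using Finset.induction_on with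
    | empty => simp
    | insert a s ha ih =>
      rw [Finset.sum_insert ha, Finset.sum_insert ha, Derivation.add_apply, ih,
        Derivation.smul_apply, smul_eq_mul]
  exact h1 _

variable {Q}

lemma row_lie (hQ : ∀ f ∈ IS S, Q (grd f) = 0) (p : ι × ι) : Lie S (row Q p) := by
  intro n s hs
  funext I
  rw [← evM_one_xt (aop (row Q p) s) I, ← dA_ft, evM_dA, row_sum, hQ _ (ft_mem hs I)]
  rfl

lemma Eu_IS (hQ : ∀ f ∈ IS S, Q (grd f) = 0) {f : MvPolynomial (ι × ι) K} (hf : f ∈ IS S) :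
    Eu Q f ∈ IS S := by
  rw [Eu_apply]
  exact Ideal.sum_mem _ fun p _ => Ideal.mul_mem_left _ _ (dA_IS (row_lie hQ p) hf)

lemma Eu_mem (f : MvPolynomial (ι × ι) K) :
    Eu Q f ∈ (P1 : Ideal (MvPolynomial (ι × ι) K)) := by
  rw [Eu_apply]
  exact Ideal.sum_mem _ fun p _ => Ideal.mul_mem_right _ _ (xi_mem p)

lemma Eu_sub (hQ2 : ∀ v, ∃ f ∈ IS S, v - Q v = grd f)
    {f : MvPolynomial (ι × ι) K} (hf : f ∈ (P1 : Ideal (MvPolynomial (ι × ι) K))) :
    Eu Q f - f ∈ (P1 : Ideal (MvPolynomial (ι × ι) K)) ^ 2 ⊔ IS S := by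
  obtain ⟨h, hh, hhf⟩ := hQ2 (grd f)
  have h1 := taylor f
  have h2 := taylor h
  rw [mem_P1.1 hf, map_zero, sub_zero] at h1
  rw [mem_P1.1 (IS_le_P1 hh), map_zero, sub_zero] at h2
  have h3 : Eu Q f - ∑ p, C (Q (grd f) p) * xi p ∈ (P1 : Ideal (MvPolynomial (ι × ι) K)) ^ 2 := by
    rw [Eu_apply, ← Finset.sum_sub_distrib]
    refine Ideal.sum_mem _ fun p _ => ?_
    have h4 : xi p * dA (row Q p) f - C (Q (grd f) p) * xi p =
        xi p * (dA (row Q p) f - C (evM (1 : Matrix ι ι K) (dA (row Q p) f))) := by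
      rw [evM_dA, row_sum]
      ring
    rw [h4, sq]
    exact Ideal.mul_mem_mul (xi_mem p) (sub_C_mem _)
  have h5 : ∑ p, C (grd h p) * xi p = ∑ p, C (grd f p) * xi p - ∑ p, C (Q (grd f) p) * xi p := by
    rw [← Finset.sum_sub_distrib]
    refine Finset.sum_congr rfl fun p _ => ?_
    rw [← hhf, Pi.sub_apply, map_sub]
    ring
  have h6 : Eu Q f - f = (Eu Q f - ∑ p, C (Q (grd f) p) * xi p) -
      (f - ∑ p, C (grd f p) * xi p) + (h - ∑ p, C (grd h p) * xi p) - h := by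
    rw [h5]; ring
  rw [h6]
  refine Ideal.sub_mem _ (Submodule.mem_sup_left ?_) (Submodule.mem_sup_right hh)
  exact Ideal.add_mem _ (Ideal.sub_mem _ h3 h1) h2

lemma Eu_pow (hQ2 : ∀ v, ∃ f ∈ IS S, v - Q v = grd f) (k : ℕ) :
    ∀ f ∈ (P1 : Ideal (MvPolynomial (ι × ι) K)) ^ k,
      Eu Q f - (k : MvPolynomial (ι × ι) K) * f ∈
        (P1 : Ideal (MvPolynomial (ι × ι) K)) ^ (k + 1) ⊔ IS S := by
  induction k with
  | zero =>
    intro f _
    rw [Nat.cast_zero, zero_mul, sub_zero, zero_add, pow_one]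
    exact Submodule.mem_sup_left (Eu_mem f)
  | succ k ih =>
    intro f hf
    rw [pow_succ] at hf
    refine Submodule.mul_induction_on hf ?_ ?_
    · intro a ha b hb
      have h1 : Eu Q (a * b) - ((k + 1 : ℕ) : MvPolynomial (ι × ι) K) * (a * b) =
          a * (Eu Q b - b) + b * (Eu Q a - (k : MvPolynomial (ι × ι) K) * a) := by
        rw [Derivation.leibniz, smul_eq_mul, smul_eq_mul, Nat.cast_succ]
        ring
      rw [h1]
      refine Ideal.add_mem _ ?_ ?_
      · obtain ⟨c, hc, d, hd, hcd⟩ := Submodule.mem_sup.1 (Eu_sub hQ2 hb)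
        rw [← hcd, mul_add]
        refine Submodule.add_mem_sup ?_ (Ideal.mul_mem_left _ _ hd)
        rw [show k + 1 + 1 = k + 2 by ring, pow_add]
        exact Ideal.mul_mem_mul ha hc
      · obtain ⟨c, hc, d, hd, hcd⟩ := Submodule.mem_sup.1 (ih a ha)
        rw [← hcd, mul_add]
        refine Submodule.add_mem_sup ?_ (Ideal.mul_mem_left _ _ hd)
        rw [pow_succ, mul_comm b c]
        exact Ideal.mul_mem_mul hc hb
    · intro a b ha hb
      have h1 : Eu Q (a + b) - ((k + 1 : ℕ) : MvPolynomial (ι × ι) K) * (a + b) =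
          (Eu Q a - ((k + 1 : ℕ) : MvPolynomial (ι × ι) K) * a) +
          (Eu Q b - ((k + 1 : ℕ) : MvPolynomial (ι × ι) K) * b) := by
        rw [map_add]; ring
      rw [h1]
      exact Ideal.add_mem _ ha hb

lemma mem_pow [CharZero K] (hQ : ∀ f ∈ IS S, Q (grd f) = 0)
    (hQ2 : ∀ v, ∃ f ∈ IS S, v - Q v = grd f) {f : MvPolynomial (ι × ι) K}
    (hf : f ∈ (P1 : Ideal (MvPolynomial (ι × ι) K))) (hE : Eu Q f = 0) (k : ℕ) :
    f ∈ (P1 : Ideal (MvPolynomial (ι × ι) K)) ^ (k + 1) ⊔ IS S := by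
  induction k with
  | zero => rw [zero_add, pow_one]; exact Submodule.mem_sup_left hf
  | succ k ih =>
    obtain ⟨g, hg, h, hh, hgh⟩ := Submodule.mem_sup.1 ih
    have h1 := Eu_pow hQ2 (k + 1) g hg
    have h2 : Eu Q g = - Eu Q h := by
      have h3 := congrArg (Eu Q) hgh
      rw [map_add, hE] at h3
      exact eq_neg_of_add_eq_zero_left h3
    have h4 : ((k + 1 : ℕ) : MvPolynomial (ι × ι) K) * g ∈
        (P1 : Ideal (MvPolynomial (ι × ι) K)) ^ (k + 1 + 1) ⊔ IS S := by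
      have h5 : ((k + 1 : ℕ) : MvPolynomial (ι × ι) K) * g = - Eu Q h -
          (Eu Q g - ((k + 1 : ℕ) : MvPolynomial (ι × ι) K) * g) := by
        rw [h2]; ring
      rw [h5]
      exact Ideal.sub_mem _ (Submodule.mem_sup_right (Ideal.neg_mem_iff _ |>.2 (Eu_IS hQ hh))) h1
    have h6 : g ∈ (P1 : Ideal (MvPolynomial (ι × ι) K)) ^ (k + 1 + 1) ⊔ IS S := by
      have h7 := Ideal.mul_mem_left _ (C ((k + 1 : ℕ) : K)⁻¹) h4
      have h8 : (C ((k + 1 : ℕ) : K)⁻¹ : MvPolynomial (ι × ι) K) *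
          (((k + 1 : ℕ) : MvPolynomial (ι × ι) K) * g) = g := by
        rw [← mul_assoc, ← map_natCast (C : K →+* MvPolynomial (ι × ι) K), ← map_mul,
          inv_mul_cancel₀ (Nat.cast_ne_zero.2 (Nat.succ_ne_zero k)), map_one, one_mul]
      rwa [h8] at h7
    rw [← hgh]
    exact Ideal.add_mem _ h6 (Submodule.mem_sup_right hh)

end Eu

/-- Near the unit matrix the ideal contains the equation. -/
lemma exists_unit [CharZero K] {f : MvPolynomial (ι × ι) K} (hf : f ∈ (P1 : Ideal (MvPolynomial (ι × ι) K)))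
    (hA : ∀ A, Lie S A → dA A f = 0) :
    ∃ u, evM (1 : Matrix ι ι K) u = 1 ∧ u * f ∈ IS S := by
  obtain ⟨Q, hQ, hQ2⟩ := exists_proj S
  have hE : Eu Q f = 0 := by
    rw [Eu_apply]
    refine Finset.sum_eq_zero fun p _ => ?_
    rw [hA _ (row_lie hQ p), mul_zero]
  have h1 := mem_pow hQ hQ2 hf hE
  have h2 : (Ideal.Quotient.mk (IS S) f) ∈
      (⨅ i : ℕ, (P1 : Ideal (MvPolynomial (ι × ι) K)) ^ i • ⊤ :
        Submodule (MvPolynomial (ι × ι) K) (MvPolynomial (ι × ι) K ⧸ IS S)) := by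
    rw [Submodule.mem_iInf]
    intro i
    rcases Nat.eq_zero_or_pos i with rfl | hi
    · rw [pow_zero, Ideal.one_eq_top, Submodule.top_smul]
      trivial
    · obtain ⟨k, rfl⟩ : ∃ k, i = k + 1 := ⟨i - 1, by omega⟩
      obtain ⟨g, hg, h, hh, hgh⟩ := Submodule.mem_sup.1 (h1 k)
      have h3 : Ideal.Quotient.mk (IS S) f = g • (1 : MvPolynomial (ι × ι) K ⧸ IS S) := by
        rw [← hgh, map_add, Ideal.Quotient.eq_zero_iff_mem.2 hh, add_zero]
        change Ideal.Quotient.mk (IS S) g = Ideal.Quotient.mk (IS S) (g * 1)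
        rw [mul_one]
      rw [h3]
      exact Submodule.smul_mem_smul hg trivial
  rw [Ideal.mem_iInf_smul_pow_eq_bot_iff] at h2
  obtain ⟨r, hr⟩ := h2
  refine ⟨1 - r.1, ?_, ?_⟩
  · rw [map_sub, map_one, mem_P1.1 r.2, sub_zero]
  · rw [← Ideal.Quotient.eq_zero_iff_mem, sub_mul, one_mul, map_sub]
    have h4 : Ideal.Quotient.mk (IS S) (r.1 * f) = r.1 • Ideal.Quotient.mk (IS S) f := by
      rfl
    rw [h4, hr, sub_self]

end Pool.Agent.Q60.ED
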