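import Pool.Agent.Q60.ED.Tor

/-!
# The vanishing ideal of a monoid generated by one-parameter families
-/

set_option linter.unusedSectionVars false

namespace Pool.Agent.Q60.ED

open MvPolynomial Algebra Cardinal Module

variable {K : Type} [Field K] {ι : Type} [Fintype ι] [DecidableEq ι]

section Star

variable {d : ℕ} {E : ℕ → Matrix ι ι K} {D : ℕ} {P : Ideal (MvPolynomial (ι × ι) K)}

/-- The constants in the quotient. -/
lemma mkC_injective (hP : P.IsPrime) :
    Function.Injective fun z : K => Ideal.Quotient.mk P (C z) := by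
  have h1 : Function.Injective ((Ideal.Quotient.mk P).comp (C : K →+* MvPolynomial (ι × ι) K)) :=
    RingHom.injective _
  exact h1

lemma map_eval {f : MvPolynomial (ι × ι) K} (hf : f.totalDegree ≤ D) {z : K} (hz : z ≠ 0) :
    ((Gf d E D f).map (Ideal.Quotient.mk P)).eval (Ideal.Quotient.mk P (C z)) =
      Ideal.Quotient.mk P (C (z ^ (d * D))) * Ideal.Quotient.mk P (rho (coch d E z) f) := by
  rw [Polynomial.eval_map, Polynomial.eval₂_at_apply, ← map_mul, ← Gf_eval hf hz]

lemma mk_C_ne (hP : P.IsPrime) {c : K} (hc : c ≠ 0) : Ideal.Quotient.mk P (C c) ≠ 0 := by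
  intro h
  apply hc
  apply mkC_injective hP
  change Ideal.Quotient.mk P (C c) = Ideal.Quotient.mk P (C 0)
  rw [h, map_zero, map_zero]

/-- A polynomial over the quotient with roots at all nonzero constants is zero. -/
lemma eq_zero_of_roots [Infinite K] (hP : P.IsPrime)
    {G : Polynomial (MvPolynomial (ι × ι) K ⧸ P)}
    (h : ∀ z : K, z ≠ 0 → G.eval (Ideal.Quotient.mk P (C z)) = 0) : G = 0 := by
  apply Polynomial.eq_zero_of_infinite_isRoot
  have h1 : (Set.range fun z : {z : K // z ≠ 0} => Ideal.Quotient.mk P (C z.1)).Infinite := by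
    have h2 : Infinite {z : K // z ≠ 0} := by
      have h3 : ({0}ᶜ : Set K).Infinite := (Set.finite_singleton 0).infinite_compl
      exact h3.to_subtype
    exact Set.infinite_range_of_injective fun a b hab => Subtype.ext (mkC_injective hP hab)
  refine h1.mono ?_
  rintro _ ⟨z, rfl⟩
  exact h z.1 z.2

lemma mem_star_iff [Infinite K] (hP : P.IsPrime) {f : MvPolynomial (ι × ι) K}
    (hf : f.totalDegree ≤ D) :
    f ∈ star P (coch d E) ↔ ∀ j, (Gf d E D f).coeff j ∈ P := by
  rw [mem_star]
  constructor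
  · intro h
    have h1 : (Gf d E D f).map (Ideal.Quotient.mk P) = 0 := by
      apply eq_zero_of_roots hP
      intro z hz
      rw [map_eval hf hz, Ideal.Quotient.eq_zero_iff_mem.2 (h z hz), mul_zero]
    intro j
    have h2 := congrArg (fun G => Polynomial.coeff G j) h1
    rw [Polynomial.coeff_map, Polynomial.coeff_zero] at h2
    exact Ideal.Quotient.eq_zero_iff_mem.1 h2
  · intro h z hz
    have h1 : (Gf d E D f).map (Ideal.Quotient.mk P) = 0 := by
      ext j : 1
      rw [Polynomial.coeff_map, Polynomial.coeff_zero]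
      exact Ideal.Quotient.eq_zero_iff_mem.2 (h j)
    have h2 := map_eval (P := P) (d := d) (E := E) hf hz
    rw [h1, Polynomial.eval_zero] at h2
    have := hP
    rcases mul_eq_zero.1 h2.symm with h3 | h3
    · exact absurd h3 (mk_C_ne hP (pow_ne_zero _ hz))
    · exact Ideal.Quotient.eq_zero_iff_mem.1 h3

lemma star_prime [Infinite K] (hP : P.IsPrime) : (star P (coch d E)).IsPrime := by
  refine ⟨?_, fun {f g} hfg => ?_⟩
  · intro h
    have h1 : (1 : MvPolynomial (ι × ι) K) ∈ star P (coch d E) := by rw [h]; trivial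
    have h2 := mem_star.1 h1 1 one_ne_zero
    rw [map_one] at h2
    exact hP.ne_top ((Ideal.eq_top_iff_one _).2 h2)
  · by_contra hcon
    push Not at hcon
    obtain ⟨hf, hg⟩ := hcon
    set D := max f.totalDegree g.totalDegree with hD
    have hfD : f.totalDegree ≤ D := le_max_left _ _
    have hgD : g.totalDegree ≤ D := le_max_right _ _
    have hF : (Gf d E D f).map (Ideal.Quotient.mk P) ≠ 0 := by
      intro h
      apply hf
      rw [mem_star_iff hP hfD]
      intro j
      have h2 := congrArg (fun G => Polynomial.coeff G j) h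
      rw [Polynomial.coeff_map, Polynomial.coeff_zero] at h2
      exact Ideal.Quotient.eq_zero_iff_mem.1 h2
    have hG : (Gf d E D g).map (Ideal.Quotient.mk P) ≠ 0 := by
      intro h
      apply hg
      rw [mem_star_iff hP hgD]
      intro j
      have h2 := congrArg (fun G => Polynomial.coeff G j) h
      rw [Polynomial.coeff_map, Polynomial.coeff_zero] at h2
      exact Ideal.Quotient.eq_zero_iff_mem.1 h2
    have := hP
    refine mul_ne_zero hF hG (eq_zero_of_roots hP fun z hz => ?_)
    rw [Polynomial.eval_mul, map_eval hfD hz, map_eval hgD hz]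
    have h1 := mem_star.1 hfg z hz
    rw [map_mul, ← Ideal.Quotient.eq_zero_iff_mem, map_mul] at h1
    calc _ = Ideal.Quotient.mk P (C (z ^ (d * D))) * Ideal.Quotient.mk P (C (z ^ (d * D))) *
          (Ideal.Quotient.mk P (rho (coch d E z) f) *
            Ideal.Quotient.mk P (rho (coch d E z) g)) := by ring
      _ = 0 := by rw [h1, mul_zero]

end Star

/-- The coordinates in the quotient. -/
noncomputable def cq (P : Ideal (MvPolynomial (ι × ι) K)) (p : ι × ι) :
    MvPolynomial (ι × ι) K ⧸ P := Ideal.Quotient.mk P (X p)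

lemma aeval_cq (P : Ideal (MvPolynomial (ι × ι) K)) (f : MvPolynomial (ι × ι) K) :
    aeval (cq P) f = Ideal.Quotient.mk P f := by
  have h1 : aeval (cq P) = Ideal.Quotient.mkₐ K P := by
    refine MvPolynomial.algHom_ext fun p => ?_
    rw [aeval_X]
    rfl
  rw [h1]
  rfl

/-- The Hilbert function. -/
noncomputable def HF (P : Ideal (MvPolynomial (ι × ι) K)) (D : ℕ) : ℕ :=
  finrank K (imD (K := K) (cq P) D)

/-- The transcendence degree of the quotient. -/
noncomputable def tr (P : Ideal (MvPolynomial (ι × ι) K)) : ℕ :=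
  (trdeg K (MvPolynomial (ι × ι) K ⧸ P)).toNat

lemma trdeg_eq_tr (P : Ideal (MvPolynomial (ι × ι) K)) :
    trdeg K (MvPolynomial (ι × ι) K ⧸ P) = tr P := by
  rw [tr, Cardinal.cast_toNat_of_lt_aleph0]
  exact trdeg_lt_aleph0 (Ideal.Quotient.mkₐ K P) (Ideal.Quotient.mkₐ_surjective K P)

lemma tr_le (P : Ideal (MvPolynomial (ι × ι) K)) : tr P ≤ Fintype.card ι ^ 2 := by
  have h1 := trdeg_le_card (Ideal.Quotient.mkₐ K P) (Ideal.Quotient.mkₐ_surjective K P)
  rw [trdeg_eq_tr, Fintype.card_prod] at h1
  have h2 : tr P ≤ Fintype.card ι * Fintype.card ι := by exact_mod_cast h1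
  rwa [sq]

lemma tr_lt {P Q : Ideal (MvPolynomial (ι × ι) K)} (hP : P.IsPrime) (hQ : Q.IsPrime) (h : Q < P) :
    tr P < tr Q := by
  obtain ⟨hle, f, hf, hfQ⟩ := SetLike.lt_iff_le_and_exists.1 h
  have h1 := trdeg_lt_of_surjective (Ideal.Quotient.factorₐ K hle)
    (Ideal.Quotient.factor_surjective hle) (a := Ideal.Quotient.mk Q f)
    (fun h0 => hfQ (Ideal.Quotient.eq_zero_iff_mem.1 h0)) (by
      change Ideal.Quotient.mk P f = 0
      exact Ideal.Quotient.eq_zero_iff_mem.2 hf)
    (trdeg_lt_aleph0 (Ideal.Quotient.mkₐ K Q) (Ideal.Quotient.mkₐ_surjective K Q))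
  rw [trdeg_eq_tr, trdeg_eq_tr] at h1
  exact_mod_cast h1

end Pool.Agent.Q60.ED
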