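import Pool.Agent.Q60.ED.Chain

/-!
# The vanishing ideal of a monoid generated by one-parameter families: degrees
-/

set_option linter.unusedSectionVars false

namespace Pool.Agent.Q60.ED

open MvPolynomial Algebra Cardinal Module

variable {K : Type} [Field K] {ι : Type} [Fintype ι] [DecidableEq ι]

lemma finrank_range_le_of_ker {V A B : Type} [AddCommGroup V] [Module K V] [Module.Finite K V]
    [AddCommGroup A] [Module K A] [AddCommGroup B] [Module K B] (f : V →ₗ[K] A) (g : V →ₗ[K] B)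
    (h : LinearMap.ker g ≤ LinearMap.ker f) :
    finrank K (LinearMap.range f) ≤ finrank K (LinearMap.range g) := by
  have h1 := f.finrank_range_add_finrank_ker
  have h2 := g.finrank_range_add_finrank_ker
  have h3 := Submodule.finrank_mono h
  omega

/-- The reduction of the polynomials of bounded degree. -/
noncomputable def redD (P : Ideal (MvPolynomial (ι × ι) K)) (D : ℕ) :
    restrictTotalDegree (ι × ι) K D →ₗ[K] MvPolynomial (ι × ι) K ⧸ P :=
  (Ideal.Quotient.mkₐ K P).toLinearMap ∘ₗ Submodule.subtype _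

lemma redD_range (P : Ideal (MvPolynomial (ι × ι) K)) (D : ℕ) :
    LinearMap.range (redD P D) = imD (cq P) D := by
  ext a
  rw [mem_imD]
  constructor
  · rintro ⟨f, rfl⟩
    exact ⟨f.1, (mem_restrictTotalDegree _ _ _).1 f.2, aeval_cq P f.1⟩
  · rintro ⟨f, hf, rfl⟩
    exact ⟨⟨f, (mem_restrictTotalDegree _ _ _).2 hf⟩, (aeval_cq P f).symm⟩

lemma mem_imD_cq {P : Ideal (MvPolynomial (ι × ι) K)} {D : ℕ} {f : MvPolynomial (ι × ι) K}
    (hf : f.totalDegree ≤ D) : Ideal.Quotient.mk P f ∈ imD (K := K) (cq P) D :=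
  mem_imD.2 ⟨f, hf, aeval_cq P f⟩

section

variable {d : ℕ} {E : ℕ → Matrix ι ι K} {D : ℕ} {P : Ideal (MvPolynomial (ι × ι) K)}

/-- The coefficients of the translates. -/
noncomputable def coD (P : Ideal (MvPolynomial (ι × ι) K)) (d : ℕ) (E : ℕ → Matrix ι ι K) (D : ℕ) :
    restrictTotalDegree (ι × ι) K D →ₗ[K] (Fin (2 * d * D + 1) → imD (K := K) (cq P) D) where
  toFun f j := ⟨Ideal.Quotient.mk P ((Gf d E D f.1).coeff j),
    mem_imD_cq ((Gf_bd ((mem_restrictTotalDegree _ _ _).1 f.2)).2 _)⟩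
  map_add' f g := by
    funext j
    apply Subtype.ext
    change Ideal.Quotient.mk P ((Gf d E D (f.1 + g.1)).coeff j) =
      Ideal.Quotient.mk P ((Gf d E D f.1).coeff j) + Ideal.Quotient.mk P ((Gf d E D g.1).coeff j)
    rw [map_add, Polynomial.coeff_add, map_add]
  map_smul' c f := by
    funext j
    apply Subtype.ext
    change Ideal.Quotient.mk P ((Gf d E D (c • f.1)).coeff j) =
      c • Ideal.Quotient.mk P ((Gf d E D f.1).coeff j)
    rw [map_smul, Polynomial.coeff_smul]
    rfl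

lemma HF_star [Infinite K] (hP : P.IsPrime) :
    HF (star P (coch d E)) D ≤ (2 * d * D + 1) * HF P D := by
  have h1 : finrank K (LinearMap.range (redD (star P (coch d E)) D)) ≤
      finrank K (LinearMap.range (coD P d E D)) := by
    apply finrank_range_le_of_ker
    intro f hf
    rw [LinearMap.mem_ker] at hf ⊢
    have hfD := (mem_restrictTotalDegree _ _ _).1 f.2
    change Ideal.Quotient.mk (star P (coch d E)) f.1 = 0
    rw [Ideal.Quotient.eq_zero_iff_mem, mem_star_iff hP hfD]
    intro j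
    by_cases hj : j < 2 * d * D + 1
    · have h2 := congrArg Subtype.val (congrFun hf ⟨j, hj⟩)
      exact Ideal.Quotient.eq_zero_iff_mem.1 h2
    · rw [Polynomial.coeff_eq_zero_of_natDegree_lt (lt_of_le_of_lt (Gf_bd hfD).1 (by omega))]
      exact P.zero_mem
  rw [redD_range] at h1
  refine h1.trans ((Submodule.finrank_le _).trans ?_)
  rw [Module.finrank_pi_fintype]
  simp [HF]

end

section Gamma

variable {J : Type} (d : ℕ) (E : J → ℕ → Matrix ι ι K)

/-- The monoid generated by the one-parameter families. -/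
def Gam : Submonoid (Matrix ι ι K) :=
  Submonoid.closure {g | ∃ (j : J) (z : K), z ≠ 0 ∧ g = coch d (E j) z}

/-- The vanishing ideal of the monoid. -/
noncomputable def PG : Ideal (MvPolynomial (ι × ι) K) :=
  ⨅ γ : Gam d E, RingHom.ker (evM γ.1).toRingHom

variable {d E}

lemma mem_PG {f : MvPolynomial (ι × ι) K} : f ∈ PG d E ↔ ∀ γ ∈ Gam d E, evM γ f = 0 := by
  rw [PG, Ideal.mem_iInf]
  constructor
  · intro h γ hγ; exact h ⟨γ, hγ⟩
  · intro h γ; exact h γ.1 γ.2

lemma coch_mem (j : J) {z : K} (hz : z ≠ 0) : coch d (E j) z ∈ Gam d E :=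
  Submonoid.subset_closure ⟨j, z, hz, rfl⟩

/-- The ideal of the unit matrix. -/
noncomputable def P1 : Ideal (MvPolynomial (ι × ι) K) :=
  RingHom.ker (evM (1 : Matrix ι ι K)).toRingHom

lemma mem_P1 {f : MvPolynomial (ι × ι) K} : f ∈ (P1 : Ideal (MvPolynomial (ι × ι) K)) ↔
    evM (1 : Matrix ι ι K) f = 0 := Iff.rfl

lemma P1_prime : (P1 : Ideal (MvPolynomial (ι × ι) K)).IsPrime := RingHom.ker_isPrime _

lemma HF_P1 (D : ℕ) : HF (P1 : Ideal (MvPolynomial (ι × ι) K)) D ≤ 1 := by
  rw [HF]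
  have h1 : imD (K := K) (cq (P1 : Ideal (MvPolynomial (ι × ι) K))) D ≤
      Submodule.span K {(1 : MvPolynomial (ι × ι) K ⧸ (P1 : Ideal (MvPolynomial (ι × ι) K)))} := by
    intro a ha
    obtain ⟨f, -, rfl⟩ := mem_imD.1 ha
    rw [aeval_cq]
    have h2 : Ideal.Quotient.mk P1 f = Ideal.Quotient.mk P1 (C (evM (1 : Matrix ι ι K) f)) := by
      rw [Ideal.Quotient.eq, mem_P1, map_sub, evM_C, sub_self]
    rw [h2]
    refine Submodule.mem_span_singleton.2 ⟨evM (1 : Matrix ι ι K) f, ?_⟩
    exact (Algebra.algebraMap_eq_smul_one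
      (A := MvPolynomial (ι × ι) K ⧸ (P1 : Ideal (MvPolynomial (ι × ι) K))) _).symm
  refine (Submodule.finrank_mono h1).trans ?_
  refine (finrank_span_le_card _).trans ?_
  simp

/-- Good approximations of the ideal. -/
structure Good (d : ℕ) (E : J → ℕ → Matrix ι ι K) (P : Ideal (MvPolynomial (ι × ι) K)) : Prop where
  prime : P.IsPrime
  le : PG d E ≤ P
  le1 : P ≤ P1
  hf : ∀ D, HF P D ≤ (2 * d * D + 1) ^ tr P

lemma good_P1 : Good d E (P1 : Ideal (MvPolynomial (ι × ι) K)) where
  prime := P1_prime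
  le f hf := mem_PG.1 hf 1 (Submonoid.one_mem _)
  le1 := le_rfl
  hf D := (HF_P1 D).trans (Nat.one_le_pow _ _ (by omega))

lemma good_star [Infinite K] (h1 : ∀ j, coch d (E j) 1 = 1) {P : Ideal (MvPolynomial (ι × ι) K)}
    (hP : Good d E P) (j : J) (hne : star P (coch d (E j)) ≠ P) :
    Good d E (star P (coch d (E j))) ∧ tr P < tr (star P (coch d (E j))) := by
  have hlt : star P (coch d (E j)) < P := lt_of_le_of_ne (star_le (h1 j)) hne
  have hpr : (star P (coch d (E j))).IsPrime := star_prime hP.prime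
  have htr := tr_lt hP.prime hpr hlt
  refine ⟨⟨hpr, ?_, hlt.le.trans hP.le1, fun D => ?_⟩, htr⟩
  · intro f hf
    rw [mem_star]
    intro z hz
    apply hP.le
    rw [mem_PG] at hf ⊢
    intro γ hγ
    rw [evM_rho]
    exact hf _ (Submonoid.mul_mem _ hγ (coch_mem j hz))
  · calc HF (star P (coch d (E j))) D ≤ (2 * d * D + 1) * HF P D := HF_star hP.prime
      _ ≤ (2 * d * D + 1) * (2 * d * D + 1) ^ tr P := Nat.mul_le_mul_left _ (hP.hf D)
      _ = (2 * d * D + 1) ^ (tr P + 1) := by rw [pow_succ, mul_comm]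
      _ ≤ _ := Nat.pow_le_pow_right (by omega) htr

/-- There is a good ideal which is stable. -/
lemma exists_stable [Infinite K] (h1 : ∀ j, coch d (E j) 1 = 1) :
    ∃ P : Ideal (MvPolynomial (ι × ι) K), Good d E P ∧ ∀ j, star P (coch d (E j)) = P := by
  by_contra hcon
  push Not at hcon
  have key : ∀ n : ℕ, ∃ P : Ideal (MvPolynomial (ι × ι) K), Good d E P ∧ n ≤ tr P := by
    intro n
    induction n with
    | zero => exact ⟨P1, good_P1, Nat.zero_le _⟩
    | succ n ih =>
      obtain ⟨P, hP, hn⟩ := ih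
      obtain ⟨j, hj⟩ := hcon P hP
      obtain ⟨h2, h3⟩ := good_star h1 hP j hj
      exact ⟨_, h2, by omega⟩
  obtain ⟨P, -, hP⟩ := key (Fintype.card ι ^ 2 + 1)
  have := tr_le P
  omega

/-- **The vanishing ideal of the monoid is good.** -/
theorem good_PG [Infinite K] (h1 : ∀ j, coch d (E j) 1 = 1) : Good d E (PG d E) := by
  obtain ⟨P, hP, hst⟩ := exists_stable (d := d) (E := E) h1
  have h2 : P = PG d E := by
    apply le_antisymm _ hP.le
    intro f hf
    rw [mem_PG]
    have h3 : ∀ γ ∈ Gam d E, ∀ f ∈ P, rho γ f ∈ P := by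
      intro γ hγ
      induction hγ using Submonoid.closure_induction with
      | mem g hg =>
        obtain ⟨j, z, hz, rfl⟩ := hg
        intro f hf
        rw [← hst j] at hf
        exact mem_star.1 hf z hz
      | one => intro f hf; rwa [rho_one]
      | mul g g' _ _ ih ih' =>
        intro f hf
        rw [← rho_rho]
        exact ih _ (ih' _ hf)
    intro γ hγ
    have h4 := mem_P1.1 (hP.le1 (h3 γ hγ f hf))
    rwa [evM_rho, one_mul] at h4
  rwa [← h2]

end Gamma

end Pool.Agent.Q60.ED
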