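import Pool.Agent.Q60.ED.Lam

/-!
# Invariant derivations
-/

set_option linter.unusedSectionVars false

namespace Pool.Agent.Q60.ED

open MvPolynomial Algebra Module

variable {K : Type} [Field K] {ι : Type} [Fintype ι] [DecidableEq ι]

/-- In characteristic zero a derivation which preserves an ideal preserves its radical. -/
theorem der_radical {R : Type} [CommRing R] [Algebra ℚ R] (D : Derivation ℤ R R) (I : Ideal R)
    (hD : ∀ f ∈ I, D f ∈ I) {f : R} (hf : f ∈ I.radical) : D f ∈ I.radical := by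
  obtain ⟨n, hn⟩ := hf
  have hq : ∀ (m : ℕ) (a : R), m ≠ 0 → (m : R) * a ∈ I → a ∈ I := by
    intro m a hm ha
    have h1 := I.mul_mem_left (algebraMap ℚ R (m : ℚ)⁻¹) ha
    rw [← mul_assoc, ← map_natCast (algebraMap ℚ R) m, ← map_mul,
      inv_mul_cancel₀ (Nat.cast_ne_zero.2 hm), map_one, one_mul] at h1
    exact h1
  have key : ∀ k ≤ n, f ^ (n - k) * D f ^ (2 * k) ∈ I := by
    intro k
    induction k with
    | zero => intro _; simpa using hn
    | succ k ih =>
      intro hk
      have h1 := ih (by omega)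
      obtain ⟨m, hm⟩ : ∃ m, n - k = m + 1 := ⟨n - k - 1, by omega⟩
      have hm' : n - (k + 1) = m := by omega
      rw [hm'] at *
      rw [hm] at h1
      have h2 := hD _ h1
      rw [D.leibniz, smul_eq_mul, smul_eq_mul, D.leibniz_pow, D.leibniz_pow] at h2
      simp only [Nat.add_sub_cancel, nsmul_eq_mul, smul_eq_mul] at h2
      have h3 := I.mul_mem_right (D f) h2
      apply hq (m + 1) _ (Nat.succ_ne_zero m)
      have h4 : (f ^ (m + 1) * (((2 * k : ℕ) : R) * (D f ^ (2 * k - 1) * D (D f))) +
          D f ^ (2 * k) * (((m + 1 : ℕ) : R) * (f ^ m * D f))) * D f =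
          ((m + 1 : ℕ) : R) * (f ^ m * D f ^ (2 * (k + 1))) +
          (((2 * k : ℕ) : R) * D (D f)) * (f ^ (m + 1) * (D f ^ (2 * k - 1) * D f)) := by
        have h5 : D f ^ (2 * (k + 1)) = D f ^ (2 * k) * D f * D f := by
          rw [show 2 * (k + 1) = 2 * k + 1 + 1 by ring, pow_succ, pow_succ]
        rw [h5]
        ring
      rw [h4] at h3
      refine (Ideal.add_mem_iff_left _ ?_).1 h3
      rcases Nat.eq_zero_or_pos k with rfl | hk0
      · simp
      · apply I.mul_mem_left
        rw [← pow_succ, show 2 * k - 1 + 1 = 2 * k by omega]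
        exact h1
  refine ⟨2 * n, ?_⟩
  have h1 := key n le_rfl
  rwa [Nat.sub_self, pow_zero, one_mul] at h1

/-- The invariant derivation defined by a matrix. -/
noncomputable def dA (A : Matrix ι ι K) :
    Derivation K (MvPolynomial (ι × ι) K) (MvPolynomial (ι × ι) K) :=
  mkDerivation K fun p => ∑ c, X (p.1, c) * C (A c p.2)

lemma dA_X (A : Matrix ι ι K) (p : ι × ι) : dA A (X p) = ∑ c, X (p.1, c) * C (A c p.2) :=
  mkDerivation_X _ _ _

/-- The infinitesimal action of a matrix on tensors. -/
noncomputable def aop (A : Matrix ι ι K) {n : ℕ} (t : (Fin n → ι) → K) : (Fin n → ι) → K :=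
  fun L => ∑ J : Fin n → ι, ∑ k : Fin n, ∑ c : ι,
    if Function.update J k c = L then A c (J k) * t J else 0

lemma prod_X_update {n : ℕ} (I J : Fin n → ι) (k : Fin n) (c : ι) :
    (∏ l ∈ Finset.univ.erase k, X (I l, J l)) * X (I k, c) =
      (mon I (Function.update J k c) : MvPolynomial (ι × ι) K) := by
  rw [mon, ← Finset.mul_prod_erase _ _ (Finset.mem_univ k), Function.update_self, mul_comm]
  congr 1
  refine Finset.prod_congr rfl fun l hl => ?_
  rw [Function.update_of_ne (Finset.ne_of_mem_erase hl)]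

lemma der_prod {R : Type} [CommRing R] [Algebra K R] (D : Derivation K R R) {τ : Type}
    [DecidableEq τ] (s : Finset τ) (f : τ → R) :
    D (∏ i ∈ s, f i) = ∑ i ∈ s, (∏ j ∈ s.erase i, f j) * D (f i) := by
  induction s using Finset.induction_on with
  | empty => simp
  | insert a s ha ih =>
    rw [Finset.prod_insert ha, D.leibniz, ih, Finset.sum_insert ha, Finset.erase_insert ha,
      smul_eq_mul, smul_eq_mul, add_comm, Finset.mul_sum]
    congr 1
    refine Finset.sum_congr rfl fun i hi => ?_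
    have h1 : i ≠ a := fun h => ha (h ▸ hi)
    rw [Finset.erase_insert_of_ne (Ne.symm h1), Finset.prod_insert
      (fun h => ha (Finset.mem_of_mem_erase h))]
    ring

lemma dA_C (A : Matrix ι ι K) (c : K) : dA A (C c) = 0 := (dA A).map_algebraMap c

lemma dA_mon (A : Matrix ι ι K) {n : ℕ} (I J : Fin n → ι) :
    dA A (mon I J) = ∑ k, ∑ c, C (A c (J k)) * mon I (Function.update J k c) := by
  rw [mon, der_prod]
  refine Finset.sum_congr rfl fun k _ => ?_
  rw [dA_X, Finset.mul_sum]
  refine Finset.sum_congr rfl fun c _ => ?_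
  rw [← prod_X_update]
  ring

lemma dA_xt (A : Matrix ι ι K) {n : ℕ} (t : (Fin n → ι) → K) (I : Fin n → ι) :
    dA A (xt t I) = xt (aop A t) I := by
  rw [xt, map_sum, xt]
  have h1 : ∀ J, dA A (C (t J) * mon I J) =
      ∑ k, ∑ c, C (A c (J k) * t J) * mon I (Function.update J k c) := by
    intro J
    rw [Derivation.leibniz, smul_eq_mul, smul_eq_mul]
    rw [dA_C, mul_zero, add_zero, dA_mon, Finset.mul_sum]
    refine Finset.sum_congr rfl fun k _ => ?_
    rw [Finset.mul_sum]
    refine Finset.sum_congr rfl fun c _ => ?_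
    rw [map_mul]
    ring
  simp only [h1, aop, map_sum, Finset.sum_mul]
  rw [Finset.sum_comm (s := Finset.univ) (t := Finset.univ) (f := fun (L J : Fin n → ι) => _)]
  refine Finset.sum_congr rfl fun J _ => ?_
  rw [Finset.sum_comm (s := Finset.univ) (t := Finset.univ) (f := fun (L : Fin n → ι) (k : Fin n) => _)]
  refine Finset.sum_congr rfl fun k _ => ?_
  rw [Finset.sum_comm (s := Finset.univ) (t := Finset.univ) (f := fun (L : Fin n → ι) (c : ι) => _)]
  refine Finset.sum_congr rfl fun c _ => ?_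
  rw [Finset.sum_eq_single (Function.update J k c)]
  · rw [if_pos rfl]
  · intro L _ hL
    rw [if_neg (Ne.symm hL), map_zero, zero_mul]
  · intro h; exact absurd (Finset.mem_univ _) h

lemma dA_ft (A : Matrix ι ι K) {n : ℕ} (t : (Fin n → ι) → K) (I : Fin n → ι) :
    dA A (ft t I) = xt (aop A t) I := by
  rw [ft, map_sub, dA_xt]
  rw [dA_C, sub_zero]

lemma evM_one_xt {n : ℕ} (t : (Fin n → ι) → K) (I : Fin n → ι) :
    evM (1 : Matrix ι ι K) (xt t I) = t I := by
  rw [evM_xt, tpow_one]

lemma xt_zero {n : ℕ} (I : Fin n → ι) : (xt (0 : (Fin n → ι) → K) I) = 0 := by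
  rw [xt]
  refine Finset.sum_eq_zero fun J _ => ?_
  rw [Pi.zero_apply, map_zero, zero_mul]

end Pool.Agent.Q60.ED
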