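import Pool.Agent.Q60.ED.Der

/-!
# The Euler argument
-/

set_option linter.unusedSectionVars false

namespace Pool.Agent.Q60.ED

open MvPolynomial Algebra Module

variable {K : Type} [Field K] {ι : Type} [Fintype ι] [DecidableEq ι]

/-- The gradient at the unit matrix. -/
noncomputable def grd : MvPolynomial (ι × ι) K →ₗ[K] (ι × ι → K) where
  toFun f p := evM (1 : Matrix ι ι K) (pderiv p f)
  map_add' f g := by funext p; simp
  map_smul' c f := by funext p; simp

lemma grd_apply (f : MvPolynomial (ι × ι) K) (p : ι × ι) :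
    grd f p = evM (1 : Matrix ι ι K) (pderiv p f) := rfl

/-- The coordinates at the unit matrix. -/
noncomputable def xi (p : ι × ι) : MvPolynomial (ι × ι) K := X p - C ((1 : Matrix ι ι K) p.1 p.2)

lemma xi_mem (p : ι × ι) : xi p ∈ (P1 : Ideal (MvPolynomial (ι × ι) K)) := by
  rw [mem_P1, xi, map_sub, evM_X, evM_C, sub_self]

lemma sub_C_mem (f : MvPolynomial (ι × ι) K) :
    f - C (evM (1 : Matrix ι ι K) f) ∈ (P1 : Ideal (MvPolynomial (ι × ι) K)) := by
  rw [mem_P1, map_sub, evM_C, sub_self]

lemma grd_mul_X (f : MvPolynomial (ι × ι) K) (q p : ι × ι) :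
    grd (f * X q) p = grd f p * (1 : Matrix ι ι K) q.1 q.2 +
      evM (1 : Matrix ι ι K) f * (if q = p then 1 else 0) := by
  rw [grd_apply, Derivation.leibniz, pderiv_X, map_add, smul_eq_mul, smul_eq_mul, map_mul,
    map_mul, evM_X, grd_apply]
  have h2 : evM (1 : Matrix ι ι K) ((Pi.single p (1 : MvPolynomial (ι × ι) K) :
      ι × ι → MvPolynomial (ι × ι) K) q) = if q = p then 1 else 0 := by
    rw [Pi.single_apply]
    split_ifs <;> simp
  rw [h2]
  ring

/-- The Taylor formula. -/
lemma taylor (f : MvPolynomial (ι × ι) K) : f - C (evM (1 : Matrix ι ι K) f) -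
    ∑ p, C (grd f p) * xi p ∈ (P1 : Ideal (MvPolynomial (ι × ι) K)) ^ 2 := by
  induction f using MvPolynomial.induction_on with
  | C a =>
    have h1 : ∀ p, grd (C a : MvPolynomial (ι × ι) K) p = 0 := by
      intro p
      rw [grd_apply, pderiv_C, map_zero]
    simp only [h1, evM_C, map_zero, zero_mul, Finset.sum_const_zero, sub_self]
    exact Ideal.zero_mem _
  | add f g hf hg =>
    have h1 : f + g - C (evM (1 : Matrix ι ι K) (f + g)) - ∑ p, C (grd (f + g) p) * xi p =
        (f - C (evM (1 : Matrix ι ι K) f) - ∑ p, C (grd f p) * xi p) +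
        (g - C (evM (1 : Matrix ι ι K) g) - ∑ p, C (grd g p) * xi p) := by
      simp only [map_add, Pi.add_apply, add_mul, Finset.sum_add_distrib]
      ring
    rw [h1]
    exact Ideal.add_mem _ hf hg
  | mul_X f q hf =>
    set δ : K := (1 : Matrix ι ι K) q.1 q.2 with hδ
    have h1 := grd_mul_X f q
    rw [← hδ] at h1
    have h3 : f * X q - C (evM (1 : Matrix ι ι K) (f * X q)) - ∑ p, C (grd (f * X q) p) * xi p =
        C δ * (f - C (evM (1 : Matrix ι ι K) f) - ∑ p, C (grd f p) * xi p) +
        (f - C (evM (1 : Matrix ι ι K) f)) * xi q := by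
      simp only [h1, map_add, map_mul, add_mul, Finset.sum_add_distrib, evM_X]
      have h4 : ∑ p, C (evM (1 : Matrix ι ι K) f) * C (if q = p then (1 : K) else 0) * xi p =
          C (evM (1 : Matrix ι ι K) f) * xi q := by
        rw [Finset.sum_eq_single q]
        · rw [if_pos rfl, map_one, mul_one]
        · intro p _ hp
          rw [if_neg (Ne.symm hp), map_zero, mul_zero, zero_mul]
        · intro h; exact absurd (Finset.mem_univ _) h
      have h5 : ∑ p, C (grd f p) * C δ * xi p = C δ * ∑ p, C (grd f p) * xi p := by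
        rw [Finset.mul_sum]
        exact Finset.sum_congr rfl fun p _ => by ring
      rw [h4, h5, ← hδ, xi, ← hδ]
      ring
    rw [h3]
    refine Ideal.add_mem _ (Ideal.mul_mem_left _ _ hf) ?_
    rw [sq]
    exact Ideal.mul_mem_mul (sub_C_mem f) (xi_mem q)

lemma evM_dA (A : Matrix ι ι K) (f : MvPolynomial (ι × ι) K) :
    evM (1 : Matrix ι ι K) (dA A f) = ∑ p, A p.1 p.2 * grd f p := by
  induction f using MvPolynomial.induction_on with
  | C a =>
    rw [dA_C, map_zero]
    refine (Finset.sum_eq_zero fun p _ => ?_).symm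
    rw [grd_apply, pderiv_C, map_zero, mul_zero]
  | add f g hf hg =>
    rw [map_add, map_add, hf, hg, ← Finset.sum_add_distrib]
    refine Finset.sum_congr rfl fun p _ => ?_
    rw [map_add, Pi.add_apply, mul_add]
  | mul_X f q hf =>
    rw [Derivation.leibniz, map_add, smul_eq_mul, smul_eq_mul, map_mul, map_mul, hf, evM_X]
    have h1 := grd_mul_X f q
    simp only [h1, mul_add, Finset.sum_add_distrib]
    have h6 : evM (1 : Matrix ι ι K) (dA A (X q)) = A q.1 q.2 := by
      rw [dA_X, map_sum]
      rw [Finset.sum_eq_single q.1]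
      · rw [map_mul, evM_X, evM_C, Matrix.one_apply_eq, one_mul]
      · intro c _ hc
        rw [map_mul, evM_X, Matrix.one_apply_ne (Ne.symm hc), zero_mul]
      · intro h; exact absurd (Finset.mem_univ _) h
    have h7 : ∑ p : ι × ι, A p.1 p.2 * (evM (1 : Matrix ι ι K) f * if q = p then 1 else 0) =
        evM (1 : Matrix ι ι K) f * A q.1 q.2 := by
      rw [Finset.sum_eq_single q]
      · rw [if_pos rfl]; ring
      · intro p _ hp
        rw [if_neg (Ne.symm hp), mul_zero, mul_zero]
      · intro h; exact absurd (Finset.mem_univ _) h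
    rw [h6, h7, Finset.mul_sum, add_comm]
    congr 1
    exact Finset.sum_congr rfl fun p _ => by ring

end Pool.Agent.Q60.ED
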