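import Pool.Agent.Q60.ED.Trd

/-!
# Homogeneous relations
-/

namespace Pool.Agent.Q60.ED

open MvPolynomial Algebra Cardinal

variable {K : Type} [Field K]

lemma aeval_smul_homog {B : Type} [CommRing B] [Algebra K B] {σ : Type} {g : MvPolynomial σ K}
    {j : ℕ} (hg : g.IsHomogeneous j) (t : B) (x : σ → B) :
    aeval (fun i => t * x i) g = t ^ j * aeval x g := by
  rw [aeval_def, eval₂_eq, aeval_def, eval₂_eq, Finset.mul_sum]
  refine Finset.sum_congr rfl fun d hd => ?_
  have h1 : ∑ i ∈ d.support, d i = j := by
    have h2 := hg (mem_support_iff.1 hd)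
    rw [Finsupp.weight_apply, Finsupp.sum] at h2
    simpa using h2
  rw [← h1]
  simp only [mul_pow, Finset.prod_mul_distrib, Finset.prod_pow_eq_pow_sum]
  ring

/-- More than `trdeg + 1` elements satisfy a homogeneous relation. -/
theorem exists_homog {A : Type} [CommRing A] [IsDomain A] [Algebra K A] {r m : ℕ}
    (hr : trdeg K A = r) (hm : r + 2 ≤ m) (x : Fin m → A) :
    ∃ (e : ℕ) (q : MvPolynomial (Fin m) K), q.IsHomogeneous e ∧ q ≠ 0 ∧ aeval x q = 0 := by
  classical
  have h1 : trdeg K (Polynomial A) = r + 1 := by
    rw [← trdeg_add_eq K A (A := Polynomial A), hr, Polynomial.trdeg_of_isDomain]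
  have h2 : ¬ AlgebraicIndependent K fun i => (Polynomial.X : Polynomial A) *
      Polynomial.C (x i) := by
    intro h
    have h3 := h.cardinalMk_le_trdeg
    rw [h1, mk_fin] at h3
    have h4 : m ≤ r + 1 := by exact_mod_cast h3
    omega
  rw [algebraicIndependent_iff] at h2
  push Not at h2
  obtain ⟨f, hf, hf0⟩ := h2
  have h5 : ∃ j, homogeneousComponent j f ≠ 0 := by
    by_contra hcon
    push Not at hcon
    apply hf0
    rw [← sum_homogeneousComponent f]
    exact Finset.sum_eq_zero fun j _ => hcon j
  obtain ⟨j, hj⟩ := h5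
  refine ⟨j, homogeneousComponent j f, homogeneousComponent_isHomogeneous j f, hj, ?_⟩
  have h6 : ∀ i, aeval (fun i => (Polynomial.X : Polynomial A) * Polynomial.C (x i))
      (homogeneousComponent i f) = Polynomial.X ^ i * Polynomial.C (aeval x
        (homogeneousComponent i f)) := by
    intro i
    rw [aeval_smul_homog (homogeneousComponent_isHomogeneous i f)]
    congr 1
    have h7 := aeval_algebraMap_apply (Polynomial A) x (homogeneousComponent i f)
    exact h7
  rw [← sum_homogeneousComponent f, map_sum] at hf
  simp only [h6] at hf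
  have h8 := congrArg (fun p => Polynomial.coeff p j) hf
  simp only [Polynomial.finsetSum_coeff, Polynomial.coeff_zero, Polynomial.coeff_X_pow_mul',
    Polynomial.coeff_C] at h8
  by_cases hjd : j < f.totalDegree + 1
  · rw [Finset.sum_eq_single j] at h8
    · simpa using h8
    · intro b _ hb
      split_ifs with h9 h10
      · omega
      · rfl
      · rfl
    · intro h9
      exact absurd (Finset.mem_range.2 hjd) h9
  · exfalso
    apply hj
    exact homogeneousComponent_eq_zero j f (by omega)

end Pool.Agent.Q60.ED
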