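import Pool.Agent.Q60.ED.Hom

/-!
# Integrality from a homogeneous relation
-/

namespace Pool.Agent.Q60.ED

open MvPolynomial Algebra Cardinal

variable {K : Type} [Field K]

section

variable {S : Type} [CommRing S]

/-- The degree is at most `n` and the coefficient in degree `n` is `a`. -/
def HasTop (p : Polynomial S) (n : ℕ) (a : S) : Prop := p.natDegree ≤ n ∧ p.coeff n = a

lemma HasTop.mul {p q : Polynomial S} {n m : ℕ} {a b : S} (hp : HasTop p n a)
    (hq : HasTop q m b) : HasTop (p * q) (n + m) (a * b) :=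
  ⟨Polynomial.natDegree_mul_le.trans (add_le_add hp.1 hq.1), by
    rw [Polynomial.coeff_mul_add_eq_of_natDegree_le hp.1 hq.1, hp.2, hq.2]⟩

lemma HasTop.one : HasTop (1 : Polynomial S) 0 1 := ⟨by simp, by simp⟩

lemma HasTop.pow {p : Polynomial S} {a : S} (hp : HasTop p 1 a) (m : ℕ) :
    HasTop (p ^ m) m (a ^ m) := by
  induction m with
  | zero => simpa using HasTop.one
  | succ m ih => rw [pow_succ, pow_succ]; exact ih.mul hp

lemma HasTop.prod {ι : Type} (s : Finset ι) {p : ι → Polynomial S} {n : ι → ℕ} {a : ι → S}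
    (h : ∀ i ∈ s, HasTop (p i) (n i) (a i)) :
    HasTop (∏ i ∈ s, p i) (∑ i ∈ s, n i) (∏ i ∈ s, a i) := by
  classical
  induction s using Finset.induction_on with
  | empty => simpa using HasTop.one
  | insert i s hi ih =>
    rw [Finset.prod_insert hi, Finset.sum_insert hi, Finset.prod_insert hi]
    exact (h i (Finset.mem_insert_self _ _)).mul (ih fun j hj => h j (Finset.mem_insert_of_mem hj))

lemma HasTop.C_mul {p : Polynomial S} {n : ℕ} {a : S} (c : S) (hp : HasTop p n a) :
    HasTop (Polynomial.C c * p) n (c * a) :=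
  ⟨(Polynomial.natDegree_C_mul_le _ _).trans hp.1, by rw [Polynomial.coeff_C_mul, hp.2]⟩

lemma HasTop.sum {ι : Type} (s : Finset ι) {p : ι → Polynomial S} {n : ℕ} {a : ι → S}
    (h : ∀ i ∈ s, HasTop (p i) n (a i)) : HasTop (∑ i ∈ s, p i) n (∑ i ∈ s, a i) :=
  ⟨Polynomial.natDegree_sum_le_of_forall_le _ _ fun i hi => (h i hi).1, by
    rw [Polynomial.finsetSum_coeff]
    exact Finset.sum_congr rfl fun i hi => (h i hi).2⟩

lemma HasTop.lin (a b : S) : HasTop (Polynomial.C a * Polynomial.X + Polynomial.C b) 1 a :=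
  ⟨by
    refine (Polynomial.natDegree_add_le _ _).trans (max_le ?_ ?_)
    · exact (Polynomial.natDegree_C_mul_le _ _).trans Polynomial.natDegree_X_le
    · simp, by simp⟩

end

/-- Integrality of `t` from a homogeneous relation between the elements `c i * t + Y i`. -/
theorem integral_of_homog {σ S A : Type} [CommRing S] [CommRing A] [Algebra S A] [Algebra K S]
    [Algebra K A] [IsScalarTower K S A] {q : MvPolynomial σ K} {e : ℕ} (hq : q.IsHomogeneous e)
    (c : σ → K) (Y : σ → S) (t : A)
    (h0 : aeval (fun i => algebraMap K A (c i) * t + algebraMap S A (Y i)) q = 0)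
    (hc : eval c q ≠ 0) : IsIntegral S t := by
  classical
  set F : Polynomial S := aeval (fun i => Polynomial.C (algebraMap K S (c i)) * Polynomial.X +
    Polynomial.C (Y i)) q with hF
  have h1 : HasTop F e (algebraMap K S (eval c q)) := by
    rw [hF, aeval_def, eval₂_eq, eval_eq, map_sum]
    refine HasTop.sum _ fun d hd => ?_
    rw [map_mul, map_prod]
    refine HasTop.C_mul _ ?_
    have h2 : ∑ i ∈ d.support, d i = e := by
      have h2 := hq (mem_support_iff.1 hd)
      rw [Finsupp.weight_apply, Finsupp.sum] at h2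
      simpa using h2
    rw [← h2]
    refine HasTop.prod _ fun i _ => ?_
    rw [map_pow]
    exact (HasTop.lin _ _).pow _
  have h3 : HasTop (Polynomial.C (algebraMap K S (eval c q)⁻¹) * F) e 1 := by
    have h4 := h1.C_mul (algebraMap K S (eval c q)⁻¹)
    rw [← map_mul, inv_mul_cancel₀ hc, map_one] at h4
    exact h4
  refine ⟨Polynomial.C (algebraMap K S (eval c q)⁻¹) * F,
    Polynomial.monic_of_natDegree_le_of_coeff_eq_one e h3.1 h3.2, ?_⟩
  rw [← Polynomial.aeval_def, map_mul]
  have h5 : Polynomial.aeval t F = 0 := by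
    have h6 := comp_aeval_apply (f := fun i => Polynomial.C (algebraMap K S (c i)) *
      Polynomial.X + Polynomial.C (Y i)) ((Polynomial.aeval (R := S) t).restrictScalars K) q
    rw [hF]
    refine h6.trans ?_
    rw [← h0]
    congr 2
    funext i
    simp [← IsScalarTower.algebraMap_apply]
  rw [h5, mul_zero]

end Pool.Agent.Q60.ED
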