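import Pool.Agent.Q60.ED.TP

/-!
# Polarised Hodge structures in coordinates, and their invariant tensors
-/

set_option linter.unusedSectionVars false

namespace Pool.Agent.Q60.ED

open MvPolynomial Module Matrix

variable {ι : Type} [Fintype ι] [DecidableEq ι]

/-- The complexification of a rational matrix. -/
noncomputable def qc (Q : Matrix ι ι ℚ) : Matrix ι ι ℂ := Q.map fun q : ℚ => (q : ℂ)

/-- A polarised rational Hodge structure in coordinates. The element `z` acts on the part of type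
`(p, q)` of the complexification as multiplication by `z ^ (p - q)`, where `|p - q| ≤ d`. -/
structure PHS (ι : Type) [Fintype ι] [DecidableEq ι] where
  /-- the bound for the differences `p - q` -/
  d : ℕ
  /-- the projections to the parts with `p - q = w - d` -/
  E : ℕ → Matrix ι ι ℂ
  /-- the polarisation -/
  Q : Matrix ι ι ℚ
  one : coch d E 1 = 1
  mul : ∀ z z' : ℂ, z ≠ 0 → z' ≠ 0 → coch d E (z * z') = coch d E z * coch d E z'
  inv : ∀ z : ℂ, z ≠ 0 → (coch d E z).transpose * qc Q * coch d E z = qc Q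
  gram : ∃ B : Matrix ι ι ℂ, B.det ≠ 0 ∧ qc Q * coch d E Complex.I = B.conjTranspose * B

namespace PHS

variable (V : PHS ι)

/-- The action of a nonzero complex number. -/
noncomputable def c (z : ℂ) : Matrix ι ι ℂ := coch V.d V.E z

/-- The family of the conjugates. -/
noncomputable def Es (σ : ℂ ≃+* ℂ) (w : ℕ) : Matrix ι ι ℂ := (V.E w).map σ

/-- The vanishing ideal of the monoid generated by the conjugates. -/
noncomputable def P : Ideal (MvPolynomial (ι × ι) ℂ) := PG V.d V.Es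

variable {V}

lemma map_one_mat (σ : ℂ ≃+* ℂ) : (1 : Matrix ι ι ℂ).map σ = 1 :=
  Matrix.map_one σ (map_zero σ) (map_one σ)

lemma c_one : V.c 1 = 1 := V.one

lemma c_inv {z : ℂ} (hz : z ≠ 0) : V.c z * V.c z⁻¹ = 1 := by
  rw [c, c, ← V.mul z z⁻¹ hz (inv_ne_zero hz), mul_inv_cancel₀ hz, V.one]

lemma c_det {z : ℂ} (hz : z ≠ 0) : (V.c z).det ≠ 0 := by
  intro h
  have h1 := congrArg Matrix.det (c_inv (V := V) hz)
  rw [Matrix.det_mul, h, zero_mul, Matrix.det_one] at h1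
  exact zero_ne_one h1

lemma qc_det : (qc V.Q).det ≠ 0 := by
  obtain ⟨B, hB, h⟩ := V.gram
  intro h0
  have h1 := congrArg Matrix.det h
  rw [Matrix.det_mul, h0, zero_mul, Matrix.det_mul, Matrix.det_conjTranspose] at h1
  exact mul_ne_zero (star_ne_zero.2 hB) hB h1.symm

lemma coch_Es (σ : ℂ ≃+* ℂ) (z : ℂ) : coch V.d (V.Es σ) (σ z) = (V.c z).map σ := by
  ext a b
  simp only [coch, c, Es, Matrix.smul_apply, Matrix.sum_apply, Matrix.map_apply, smul_eq_mul,
    map_mul, map_sum, map_pow, map_inv₀]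

lemma coch_Es' (σ : ℂ ≃+* ℂ) (z : ℂ) : coch V.d (V.Es σ) z = (V.c (σ.symm z)).map σ := by
  rw [← coch_Es, RingEquiv.apply_symm_apply]

lemma Es_one (σ : ℂ ≃+* ℂ) : coch V.d (V.Es σ) 1 = 1 := by
  have h1 := coch_Es (V := V) σ 1
  rw [map_one, c_one] at h1
  rw [h1]
  exact map_one_mat σ

lemma c_mem {z : ℂ} (hz : z ≠ 0) : V.c z ∈ Gam V.d V.Es := by
  have h1 := coch_mem (K := ℂ) (d := V.d) (E := V.Es) (RingEquiv.refl ℂ) hz
  have h2 : V.Es (RingEquiv.refl ℂ) = V.E := by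
    funext w; ext a b; rfl
  rwa [h2] at h1

lemma gam_map {g : Matrix ι ι ℂ} (hg : g ∈ Gam V.d V.Es) (τ : ℂ ≃+* ℂ) :
    g.map τ ∈ Gam V.d V.Es := by
  induction hg using Submonoid.closure_induction with
  | mem g hg =>
    obtain ⟨σ, z, hz, rfl⟩ := hg
    have h1 : (coch V.d (V.Es σ) z).map τ = coch V.d (V.Es (σ.trans τ)) (τ z) := by
      rw [coch_Es', coch_Es']
      ext a b
      simp
    rw [h1]
    exact coch_mem _ ((map_ne_zero_iff τ τ.injective).2 hz)
  | one =>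
    rw [map_one_mat]
    exact Submonoid.one_mem _
  | mul a b _ _ ha hb =>
    have h1 : (a * b).map τ = a.map τ * b.map τ := Matrix.map_mul (f := (τ : ℂ →+* ℂ))
    rw [h1]
    exact Submonoid.mul_mem _ ha hb

lemma evM_map (τ : ℂ ≃+* ℂ) (g : Matrix ι ι ℂ) (f : MvPolynomial (ι × ι) ℂ) :
    evM (g.map τ) (MvPolynomial.map (τ : ℂ →+* ℂ) f) = τ (evM g f) := by
  have h1 : ((evM (g.map τ)).toRingHom.comp (MvPolynomial.map (τ : ℂ →+* ℂ))) =
      (τ : ℂ →+* ℂ).comp (evM g).toRingHom := by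
    refine MvPolynomial.ringHom_ext (fun a => ?_) fun p => ?_
    · change evM (g.map τ) (MvPolynomial.map (τ : ℂ →+* ℂ) (C a)) = τ (evM g (C a))
      rw [map_C, evM_C, evM_C]
      rfl
    · change evM (g.map τ) (MvPolynomial.map (τ : ℂ →+* ℂ) (X p)) = τ (evM g (X p))
      rw [map_X, evM_X, evM_X]
      rfl
  exact congrArg (fun φ : MvPolynomial (ι × ι) ℂ →+* ℂ => φ f) h1

lemma map_mem_P {f : MvPolynomial (ι × ι) ℂ} (hf : f ∈ V.P) (τ : ℂ ≃+* ℂ) :
    MvPolynomial.map (τ : ℂ →+* ℂ) f ∈ V.P := by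
  rw [P, mem_PG] at hf ⊢
  intro γ hγ
  have h1 := gam_map hγ τ.symm
  have h2 : (γ.map τ.symm).map τ = γ := by
    ext a b; simp
  rw [← h2, evM_map, hf _ h1, map_zero]

lemma rho_mem_P {f : MvPolynomial (ι × ι) ℂ} (hf : f ∈ V.P) {g : Matrix ι ι ℂ}
    (hg : g ∈ Gam V.d V.Es) : rho g f ∈ V.P := by
  rw [P, mem_PG] at hf ⊢
  intro γ hγ
  rw [evM_rho]
  exact hf _ (Submonoid.mul_mem _ hγ hg)

variable (V)

/-- The invariant rational tensors. -/
noncomputable def T (n : ℕ) : Submodule ℚ ((Fin n → ι) → ℚ) where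
  carrier := {t | ∀ z : ℂ, z ≠ 0 → tpow (V.c z) n (cx t) = cx t}
  add_mem' {a b} ha hb z hz := by rw [cx_add, map_add, ha z hz, hb z hz]
  zero_mem' z hz := by
    have : cx (0 : (Fin n → ι) → ℚ) = 0 := by funext a; simp [cx]
    rw [this, map_zero]
  smul_mem' q a ha z hz := by rw [cx_smul, map_smul, ha z hz]

variable {V}

lemma mem_T {n : ℕ} {t : (Fin n → ι) → ℚ} :
    t ∈ V.T n ↔ ∀ z : ℂ, z ≠ 0 → tpow (V.c z) n (cx t) = cx t := Iff.rfl

lemma tpow_map {K L : Type} [Field K] [Field L] (σ : K →+* L) (g : Matrix ι ι K) {n : ℕ}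
    (t : (Fin n → ι) → K) : tpow (g.map σ) n (fun I => σ (t I)) = fun I => σ (tpow g n t I) := by
  funext I
  rw [tpow_apply, tpow_apply, map_sum]
  refine Finset.sum_congr rfl fun J _ => ?_
  rw [map_mul, map_prod]
  rfl

/-- The invariant tensors are fixed by the whole monoid. -/
lemma gam_fix {n : ℕ} {t : (Fin n → ι) → ℚ} (ht : t ∈ V.T n) {g : Matrix ι ι ℂ}
    (hg : g ∈ Gam V.d V.Es) : tpow g n (cx t) = cx t := by
  induction hg using Submonoid.closure_induction with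
  | mem g hg =>
    obtain ⟨σ, z, hz, rfl⟩ := hg
    rw [coch_Es']
    have h1 : cx t = fun I => σ (cx t I) := by
      funext I
      simp [cx]
    have h2 := tpow_map (σ : ℂ →+* ℂ) (V.c (σ.symm z)) (cx t)
    have h3 := ht (σ.symm z) ((map_ne_zero_iff σ.symm σ.symm.injective).2 hz)
    rw [h3] at h2
    conv_lhs => rw [h1]
    refine h2.trans ?_
    exact h1.symm
  | one => exact tpow_one _ _
  | mul a b _ _ ha hb => rw [tpow_mul, hb, ha]

lemma ft_mem_P {n : ℕ} {t : (Fin n → ι) → ℚ} (ht : t ∈ V.T n) (I : Fin n → ι) :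
    ft (cx t) I ∈ V.P := by
  rw [P, mem_PG]
  intro γ hγ
  rw [evM_ft, gam_fix ht hγ, sub_self]

end PHS

end Pool.Agent.Q60.ED
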