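import Pool.Agent.Q60.ED.Integ

/-!
# Separation of points from an irreducible variety by polynomials of bounded degree
-/

namespace Pool.Agent.Q60.ED

open MvPolynomial Algebra Cardinal Module

variable {K : Type} [Field K]

section

variable {A : Type} [CommRing A] [Algebra K A]

/-- The values at `x` of the polynomials of degree at most `D`. -/
noncomputable def imD {σ : Type} (x : σ → A) (D : ℕ) : Submodule K A :=
  (restrictTotalDegree σ K D).map (aeval x).toLinearMap

lemma mem_imD {σ : Type} {x : σ → A} {D : ℕ} {a : A} :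
    a ∈ imD (K := K) x D ↔ ∃ f : MvPolynomial σ K, f.totalDegree ≤ D ∧ aeval x f = a := by
  rw [imD, Submodule.mem_map]
  simp only [mem_restrictTotalDegree, AlgHom.toLinearMap_apply]

instance {σ : Type} [Finite σ] (x : σ → A) (D : ℕ) : Module.Finite K (imD (K := K) x D) := by
  unfold imD
  infer_instance

/-- Few values of the polynomials of degree at most `D` in `n` elements: a relation. -/
lemma exists_relation {n D e : ℕ} (he : e * n ≤ D) (x : Fin n → A)
    (h : finrank K (imD (K := K) x D) < (e + 1) ^ n) :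
    ∃ g : MvPolynomial (Fin n) K, g ≠ 0 ∧ g.totalDegree ≤ D ∧ aeval x g = 0 := by
  classical
  let mon : (Fin n → Fin (e + 1)) → (Fin n →₀ ℕ) := fun s => Finsupp.equivFunOnFinite.symm
    fun i => (s i : ℕ)
  have hmon : Function.Injective mon := by
    intro s s' hs
    funext i
    have h1 := DFunLike.congr_fun hs i
    exact Fin.ext h1
  have hdeg : ∀ s, (monomial (mon s) (1 : K)).totalDegree ≤ D := by
    intro s
    refine (totalDegree_monomial_le _ _).trans (le_trans ?_ he)
    rw [Finsupp.sum_fintype _ _ (fun _ => rfl)]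
    calc ∑ i : Fin n, (mon s) i ≤ ∑ _i : Fin n, e :=
          Finset.sum_le_sum fun i _ => Nat.lt_succ_iff.1 (s i).2
      _ = e * n := by rw [Finset.sum_const, Finset.card_univ, Fintype.card_fin, smul_eq_mul,
          mul_comm]
  let b : (Fin n → Fin (e + 1)) → imD (K := K) x D := fun s =>
    ⟨aeval x (monomial (mon s) (1 : K)), mem_imD.2 ⟨_, hdeg s, rfl⟩⟩
  have hb : ¬ LinearIndependent K b := by
    intro hli
    have h1 := hli.fintype_card_le_finrank
    rw [Fintype.card_fun, Fintype.card_fin, Fintype.card_fin] at h1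
    omega
  rw [Fintype.not_linearIndependent_iff] at hb
  obtain ⟨g, hg, s, hs⟩ := hb
  refine ⟨∑ s, monomial (mon s) (g s), ?_, ?_, ?_⟩
  · intro h0
    apply hs
    have h1 := congrArg (coeff (mon s)) h0
    rw [coeff_sum, coeff_zero] at h1
    rw [Finset.sum_eq_single s] at h1
    · simpa using h1
    · intro s' _ hs'
      rw [coeff_monomial, if_neg fun h => hs' (hmon h)]
    · intro h; exact absurd (Finset.mem_univ _) h
  · refine totalDegree_finsetSum_le fun s _ => ?_
    have h1 : monomial (mon s) (g s) = g s • monomial (mon s) (1 : K) := by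
      rw [smul_monomial, smul_eq_mul, mul_one]
    rw [h1]
    exact (totalDegree_smul_le _ _).trans (hdeg s)
  · rw [map_sum]
    have h1 := congrArg (Submodule.subtype _) hg
    rw [map_sum, map_zero] at h1
    rw [← h1]
    refine Finset.sum_congr rfl fun s _ => ?_
    rw [map_smul]
    have h2 : monomial (mon s) (g s) = g s • monomial (mon s) (1 : K) := by
      rw [smul_monomial, smul_eq_mul, mul_one]
    rw [h2, map_smul]
    rfl

end

section Base

variable {A : Type} [CommRing A] [IsDomain A] [Algebra K A]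

/-- The case of a hypersurface. -/
lemma separation_hyper {r D e : ℕ} (hr : trdeg K A = r) (he : e * (r + 1) ≤ D)
    (x : Fin (r + 1) → A) [hx : Algebra.IsAlgebraic (adjoin K (Set.range x)) A]
    (hD : finrank K (imD (K := K) x D) < (e + 1) ^ (r + 1)) (v : Fin (r + 1) → K)
    (hv : ∃ f : MvPolynomial (Fin (r + 1)) K, aeval x f = 0 ∧ eval v f ≠ 0) :
    ∃ f : MvPolynomial (Fin (r + 1)) K, f.totalDegree ≤ D ∧ aeval x f = 0 ∧ eval v f ≠ 0 := by
  classical
  obtain ⟨g, hg0, hgD, hg⟩ := exists_relation he x hD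
  -- an irreducible factor of the relation
  obtain ⟨q, hq, hqg, hqx⟩ : ∃ q, Prime q ∧ q ∣ g ∧ aeval x q = 0 := by
    have h1 := UniqueFactorizationMonoid.factors_prod hg0
    have h2 : aeval x (UniqueFactorizationMonoid.factors g).prod = 0 := by
      obtain ⟨u, hu⟩ := h1
      have h3 := congrArg (aeval x) hu
      rw [map_mul, hg] at h3
      rcases mul_eq_zero.1 h3 with h4 | h4
      · exact h4
      · exfalso
        exact (u.isUnit.map (aeval x)).ne_zero h4
    rw [map_multiset_prod] at h2
    obtain ⟨q, hq, hq0⟩ := Multiset.mem_map.1 (Multiset.prod_eq_zero_iff.1 h2)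
    exact ⟨q, UniqueFactorizationMonoid.prime_of_factor q hq,
      UniqueFactorizationMonoid.dvd_of_mem_factors hq, hq0⟩
  have hqD : q.totalDegree ≤ D := (totalDegree_le_of_dvd_of_isDomain hqg hg0).trans hgD
  -- every relation is a multiple of it
  have hdvd : ∀ f : MvPolynomial (Fin (r + 1)) K, aeval x f = 0 → q ∣ f := by
    intro f hf
    by_contra hcon
    let ψ : MvPolynomial (Fin (r + 1)) K →ₐ[K] adjoin K (Set.range x) :=
      (aeval x).codRestrict _ fun p => by
        rw [Algebra.adjoin_range_eq_range_aeval]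
        exact ⟨p, rfl⟩
    have hψs : Function.Surjective ψ := by
      rintro ⟨y, hy⟩
      obtain ⟨p, hp⟩ := (Algebra.adjoin_range_eq_range_aeval K x).le hy
      exact ⟨p, Subtype.ext hp⟩
    have hψ0 : ∀ p, aeval x p = 0 → ψ p = 0 := fun p hp => Subtype.ext hp
    let I : Ideal (MvPolynomial (Fin (r + 1)) K) := Ideal.span {q}
    have hI : I.IsPrime := (Ideal.span_singleton_prime hq.ne_zero).2 hq
    let χ : (MvPolynomial (Fin (r + 1)) K ⧸ I) →ₐ[K] adjoin K (Set.range x) :=
      Ideal.Quotient.liftₐ I ψ (by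
        intro a ha
        obtain ⟨c, rfl⟩ := Ideal.mem_span_singleton'.1 ha
        rw [map_mul, hψ0 q hqx, mul_zero])
    have hχs : Function.Surjective χ := by
      intro y
      obtain ⟨p, hp⟩ := hψs y
      exact ⟨Ideal.Quotient.mk I p, hp⟩
    have hfin : trdeg K (MvPolynomial (Fin (r + 1)) K ⧸ I) < ℵ₀ :=
      trdeg_lt_aleph0 (Ideal.Quotient.mkₐ K I) (Ideal.Quotient.mkₐ_surjective K I)
    have h1 : trdeg K (adjoin K (Set.range x)) < trdeg K (MvPolynomial (Fin (r + 1)) K ⧸ I) := by
      refine trdeg_lt_of_surjective χ hχs (a := Ideal.Quotient.mk I f) ?_ ?_ hfin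
      · rw [Ne, Ideal.Quotient.eq_zero_iff_mem, Ideal.mem_span_singleton]
        exact hcon
      · exact hψ0 f hf
    have h2 : trdeg K (MvPolynomial (Fin (r + 1)) K ⧸ I) <
        trdeg K (MvPolynomial (Fin (r + 1)) K) := by
      refine trdeg_lt_of_surjective (Ideal.Quotient.mkₐ K I) (Ideal.Quotient.mkₐ_surjective K I)
        (a := q) hq.ne_zero ?_ ?_
      · exact Ideal.Quotient.eq_zero_iff_mem.2 (Ideal.mem_span_singleton_self q)
      · rw [MvPolynomial.trdeg_of_isDomain, lift_id, mk_fin]
        exact Cardinal.natCast_lt_aleph0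
    have h3 : trdeg K (adjoin K (Set.range x)) = r := by
      have h6 : trdeg (adjoin K (Set.range x)) A = 0 := trdeg_eq_zero
      have h7 := trdeg_add_eq K (adjoin K (Set.range x)) (A := A)
      rw [h6, add_zero, hr] at h7
      exact h7
    rw [h3] at h1
    rw [MvPolynomial.trdeg_of_isDomain, lift_id, mk_fin] at h2
    obtain ⟨n, hn⟩ := Cardinal.lt_aleph0.1 hfin
    rw [hn] at h1 h2
    have h4 : r < n := by exact_mod_cast h1
    have h5 : n < r + 1 := by exact_mod_cast h2
    omega
  obtain ⟨f, hf, hfv⟩ := hv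
  refine ⟨q, hqD, hqx, fun h => hfv ?_⟩
  obtain ⟨c, rfl⟩ := hdvd f hf
  rw [map_mul, h, zero_mul]

end Base

end Pool.Agent.Q60.ED
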