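import Pool.Agent.Q60.ED.Sep

/-!
# Separation of points from an irreducible variety by polynomials of bounded degree: projections
-/

namespace Pool.Agent.Q60.ED

open MvPolynomial Algebra Cardinal Module

variable {K : Type} [Field K]

lemma aeval_eval {σ : Type} (a : σ → K) (f : MvPolynomial σ K) : aeval a f = eval a f := rfl

lemma totalDegree_aeval_le {σ τ : Type} (g : σ → MvPolynomial τ K)
    (hg : ∀ i, (g i).totalDegree ≤ 1) (f : MvPolynomial σ K) :
    (aeval g f).totalDegree ≤ f.totalDegree := by
  classical
  rw [aeval_def, eval₂_eq]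
  refine totalDegree_finsetSum_le fun d hd => ?_
  refine (totalDegree_mul _ _).trans ?_
  rw [algebraMap_eq, totalDegree_C, zero_add]
  refine (totalDegree_finsetProd _ _).trans ?_
  refine le_trans (Finset.sum_le_sum fun i _ => ?_) (le_totalDegree hd)
  refine (totalDegree_pow _ _).trans ?_
  calc d i * (g i).totalDegree ≤ d i * 1 := Nat.mul_le_mul_left _ (hg i)
    _ = d i := mul_one _

lemma imD_mono {σ τ A : Type} [CommRing A] [Algebra K A] {x : σ → A} {y : τ → A}
    (g : τ → MvPolynomial σ K) (hg : ∀ i, (g i).totalDegree ≤ 1) (h : ∀ i, aeval x (g i) = y i)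
    (D : ℕ) : imD (K := K) y D ≤ imD x D := by
  intro a ha
  obtain ⟨f, hf, rfl⟩ := mem_imD.1 ha
  refine mem_imD.2 ⟨aeval g f, (totalDegree_aeval_le g hg f).trans hf, ?_⟩
  rw [comp_aeval_apply]
  congr 2
  funext i
  exact h i

/-- **Lying over a point.** If the elements `x i` are integral over the ring generated by the `y j`,
and all relations between the `y j` vanish at the origin, then there is a point where all relations
between the `x i` and the `y j` vanish and whose coordinates `y j` are zero. -/
lemma exists_point [IsAlgClosed K] {σ τ A : Type} [CommRing A] [Algebra K A]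
    (x : σ → A) (y : τ → A)
    (hint : ∀ i, (aeval y : MvPolynomial τ K →ₐ[K] A).toRingHom.IsIntegralElem (x i))
    (h0 : ∀ g : MvPolynomial τ K, aeval y g = 0 → eval 0 g = 0) :
    ∃ w : σ → K, ∀ f : MvPolynomial (σ ⊕ τ) K, aeval (Sum.elim x y) f = 0 →
      eval (Sum.elim w 0) f = 0 := by
  classical
  let alg : Algebra (MvPolynomial τ K) A := (aeval y : MvPolynomial τ K →ₐ[K] A).toRingHom.toAlgebra
  have halg : ∀ g : MvPolynomial τ K, algebraMap (MvPolynomial τ K) A g = aeval y g := fun g => rfl
  let S := integralClosure (MvPolynomial τ K) A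
  let x' : σ → S := fun i => ⟨x i, hint i⟩
  let P : Ideal (MvPolynomial τ K) := RingHom.ker (eval (0 : τ → K))
  have hsurj : Function.Surjective (eval (0 : τ → K)) := fun c => ⟨C c, eval_C _⟩
  have hP : P.IsMaximal := RingHom.ker_isMaximal_of_surjective _ hsurj
  have hker : RingHom.ker (algebraMap (MvPolynomial τ K) S) ≤ P := by
    intro g hg
    have h1 : algebraMap (MvPolynomial τ K) S g = 0 := hg
    have h2 := congrArg (fun s : S => (s : A)) h1
    exact h0 g h2
  obtain ⟨Q, hQ, hQP⟩ := Ideal.exists_ideal_over_maximal_of_isIntegral (S := S) P hker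
  let φ : K →+* S ⧸ Q := (Ideal.Quotient.mk Q).comp ((algebraMap (MvPolynomial τ K) S).comp C)
  let algF : Algebra K (S ⧸ Q) := φ.toAlgebra
  have hφ : ∀ g : MvPolynomial τ K, Ideal.Quotient.mk Q (algebraMap (MvPolynomial τ K) S g) =
      φ (eval 0 g) := by
    intro g
    have h1 : g - C (eval 0 g) ∈ P := by
      rw [RingHom.mem_ker, map_sub, eval_C, sub_self]
    rw [← hQP, Ideal.mem_comap, ← Ideal.Quotient.eq_zero_iff_mem, map_sub, map_sub] at h1
    exact sub_eq_zero.1 h1
  have hQ' : Q.IsPrime := hQ.isPrime
  have hI : Algebra.IsIntegral K (S ⧸ Q) := by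
    refine ⟨fun a => ?_⟩
    obtain ⟨s, rfl⟩ := Ideal.Quotient.mk_surjective a
    obtain ⟨p, hp, hp0⟩ := Algebra.IsIntegral.isIntegral (R := MvPolynomial τ K) s
    refine ⟨p.map (eval 0), hp.map _, ?_⟩
    have h2 : (algebraMap K (S ⧸ Q)).comp (eval (0 : τ → K)) =
        (Ideal.Quotient.mk Q).comp (algebraMap (MvPolynomial τ K) S) := by
      refine RingHom.ext fun g => ?_
      exact (hφ g).symm
    rw [Polynomial.eval₂_map, h2, ← Polynomial.hom_eval₂, hp0, map_zero]
  have hbij := IsAlgClosed.algebraMap_bijective_of_isIntegral (k := K) (K := S ⧸ Q)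
  let e : K ≃+* S ⧸ Q := RingEquiv.ofBijective (algebraMap K (S ⧸ Q)) hbij
  let χ : S →+* K := (e.symm : S ⧸ Q →+* K).comp (Ideal.Quotient.mk Q)
  have hχ : ∀ g : MvPolynomial τ K, χ (algebraMap (MvPolynomial τ K) S g) = eval 0 g := by
    intro g
    change e.symm (Ideal.Quotient.mk Q (algebraMap (MvPolynomial τ K) S g)) = _
    rw [hφ g]
    exact e.symm_apply_apply _
  refine ⟨fun i => χ (x' i), fun f hf => ?_⟩
  let x'' : σ ⊕ τ → S := Sum.elim x' fun j => algebraMap (MvPolynomial τ K) S (X j)
  have h3 : eval₂ ((algebraMap (MvPolynomial τ K) S).comp C) x'' f = 0 := by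
    apply Subtype.ext
    have h4 : ((eval₂ ((algebraMap (MvPolynomial τ K) S).comp C) x'' f : S) : A) =
        S.val (eval₂ ((algebraMap (MvPolynomial τ K) S).comp C) x'' f) := rfl
    rw [h4, ← AlgHom.coe_toRingHom, hom_eval₂]
    have h5 : (S.val : S →+* A).comp ((algebraMap (MvPolynomial τ K) S).comp C) =
        algebraMap K A := by
      refine RingHom.ext fun c => ?_
      change algebraMap (MvPolynomial τ K) A (C c) = algebraMap K A c
      rw [halg, aeval_C]
    have h6 : (fun i => (S.val : S →+* A) (x'' i)) = Sum.elim x y := by
      funext i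
      rcases i with i | j
      · rfl
      · change algebraMap (MvPolynomial τ K) A (X j) = y j
        rw [halg, aeval_X]
    rw [h5, h6]
    exact hf
  have h8 := congrArg χ h3
  rw [hom_eval₂, map_zero] at h8
  have h9 : χ.comp ((algebraMap (MvPolynomial τ K) S).comp C) = RingHom.id K := by
    refine RingHom.ext fun c => ?_
    change χ (algebraMap (MvPolynomial τ K) S (C c)) = c
    rw [hχ, eval_C]
  have h10 : (fun i => χ (x'' i)) = Sum.elim (fun i => χ (x' i)) 0 := by
    funext i
    rcases i with i | j
    · rfl
    · change χ (algebraMap (MvPolynomial τ K) S (X j)) = 0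
      rw [hχ, eval_X]
      rfl
  rw [h9, h10] at h8
  exact h8

/-- **Separation.** Let `A` be a domain of transcendence degree `r` and let the elements `x i` of `A`
have few values of polynomials of degree at most `D`. Then every point which does not satisfy all
relations between the elements `x i` does not satisfy a relation of degree at most `D`. -/
theorem separation [IsAlgClosed K] {A : Type} [CommRing A] [IsDomain A] [Algebra K A]
    {r D e : ℕ} (hr : trdeg K A = r) (he : e * (r + 1) ≤ D) : ∀ (m : ℕ) (x : Fin m → A),
    Algebra.IsAlgebraic (adjoin K (Set.range x)) A →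
    finrank K (imD (K := K) x D) < (e + 1) ^ (r + 1) → ∀ v : Fin m → K,
    (∃ f : MvPolynomial (Fin m) K, aeval x f = 0 ∧ eval v f ≠ 0) →
    ∃ f : MvPolynomial (Fin m) K, f.totalDegree ≤ D ∧ aeval x f = 0 ∧ eval v f ≠ 0 := by
  classical
  intro m
  induction m with
  | zero =>
    intro x hx _ v hv
    obtain ⟨f, hf, hfv⟩ := hv
    exfalso
    have h1 : IsTranscendenceBasis K x := by
      refine Algebra.IsAlgebraic.isTranscendenceBasis_of_le_trdeg_of_finite K x ?_
      rw [mk_fin, Nat.cast_zero]
      exact zero_le
    rw [h1.1.eq_zero_of_aeval_eq_zero f hf, map_zero] at hfv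
    exact hfv rfl
  | succ m ih =>
    intro x hx hD v hv
    rcases lt_trichotomy (m + 1) (r + 1) with hm | hm | hm
    · obtain ⟨f, hf, hfv⟩ := hv
      exfalso
      have h1 : IsTranscendenceBasis K x := by
        refine Algebra.IsAlgebraic.isTranscendenceBasis_of_le_trdeg_of_finite K x ?_
        rw [mk_fin, hr]
        exact_mod_cast Nat.lt_succ_iff.1 hm
      rw [h1.1.eq_zero_of_aeval_eq_zero f hf, map_zero] at hfv
      exact hfv rfl
    · obtain rfl : m = r := by omega
      exact separation_hyper hr he x hD v hv
    · -- the projection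
      obtain ⟨x', hx'⟩ : ∃ x' : Fin (m + 1) → A, x' = fun i => x i - algebraMap K A (v i) :=
        ⟨_, rfl⟩
      obtain ⟨d, q, hq, hq0, hqx⟩ := exists_homog hr (by omega : r + 2 ≤ m + 1) x'
      have hinf : Infinite K := IsAlgClosed.instInfinite
      obtain ⟨a, ha⟩ : ∃ a, eval a q ≠ 0 := by
        by_contra hcon
        push Not at hcon
        exact hq0 (MvPolynomial.funext fun a => by rw [hcon a, map_zero])
      obtain ⟨j, hj⟩ : ∃ j, a j ≠ 0 := by
        by_contra hcon
        push Not at hcon
        have ha0 : a = fun i => (0 : K) * a i := funext fun i => by rw [hcon i, mul_zero]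
        have h1 := aeval_smul_homog (B := K) hq 0 a
        rcases Nat.eq_zero_or_pos d with hd | hd
        · subst hd
          rw [← totalDegree_zero_iff_isHomogeneous, totalDegree_eq_zero_iff_eq_C] at hq
          rw [hq, aeval_C] at hqx
          have h2 := (map_eq_zero_iff _ (algebraMap K A).injective).1 hqx
          rw [h2, map_zero] at hq
          exact hq0 hq
        · rw [zero_pow hd.ne', zero_mul, ← ha0, aeval_eval] at h1
          exact ha h1
      obtain ⟨c, hc⟩ : ∃ c : Fin (m + 1) → K, c = fun i => (a j)⁻¹ * a i := ⟨_, rfl⟩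
      have hcj : c j = 1 := by rw [hc]; exact inv_mul_cancel₀ hj
      have hcq : eval c q ≠ 0 := by
        have h1 := aeval_smul_homog (B := K) hq (a j)⁻¹ a
        rw [← hc, aeval_eval, aeval_eval] at h1
        rw [h1]
        exact mul_ne_zero (pow_ne_zero _ (inv_ne_zero hj)) ha
      let lin : Fin m → MvPolynomial (Fin (m + 1)) K := fun i =>
        (X (j.succAbove i) - C (v (j.succAbove i))) - C (c (j.succAbove i)) * (X j - C (v j))
      have hlin : ∀ i, (lin i).totalDegree ≤ 1 := by
        intro i
        refine (totalDegree_sub _ _).trans (max_le ?_ ?_)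
        · refine (totalDegree_sub_C_le _ _).trans ?_
          rw [totalDegree_X]
        · refine (totalDegree_mul _ _).trans ?_
          rw [totalDegree_C, zero_add]
          refine (totalDegree_sub_C_le _ _).trans ?_
          rw [totalDegree_X]
      let y : Fin m → A := fun i => aeval x (lin i)
      have hy : ∀ i, y i = x' (j.succAbove i) - algebraMap K A (c (j.succAbove i)) * x' j := by
        intro i
        simp only [y, lin, hx', map_sub, map_mul, aeval_X, aeval_C]
      let Y : Fin (m + 1) → MvPolynomial (Fin m) K :=
        Fin.insertNth (α := fun _ => MvPolynomial (Fin m) K) j 0 X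
      have hYj : Y j = 0 := Fin.insertNth_apply_same _ _ _
      have hYi : ∀ i, Y (j.succAbove i) = X i := fun i => Fin.insertNth_apply_succAbove _ _ _ _
      have hxY : ∀ i, x' i = algebraMap K A (c i) * x' j + aeval y (Y i) := by
        intro i
        rcases Fin.eq_self_or_eq_succAbove j i with rfl | ⟨i, rfl⟩
        · rw [hcj, hYj, map_one, one_mul, map_zero, add_zero]
        · rw [hYi, aeval_X, hy]
          ring
      -- integrality
      have hintj : (aeval y : MvPolynomial (Fin m) K →ₐ[K] A).toRingHom.IsIntegralElem (x' j) := by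
        let alg : Algebra (MvPolynomial (Fin m) K) A :=
          (aeval y : MvPolynomial (Fin m) K →ₐ[K] A).toRingHom.toAlgebra
        have htow : IsScalarTower K (MvPolynomial (Fin m) K) A := by
          refine IsScalarTower.of_algebraMap_eq fun c => ?_
          change algebraMap K A c = aeval y (C c)
          rw [aeval_C]
        refine integral_of_homog (S := MvPolynomial (Fin m) K) hq c Y (x' j) ?_ hcq
        rw [← hqx]
        congr 2
        funext i
        exact (hxY i).symm
      have hint : ∀ i, (aeval y : MvPolynomial (Fin m) K →ₐ[K] A).toRingHom.IsIntegralElem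
          (x' i) := by
        intro i
        rw [hxY i]
        refine RingHom.IsIntegralElem.add _ (RingHom.IsIntegralElem.mul _ ?_ hintj) ?_
        · have h1 := (aeval y : MvPolynomial (Fin m) K →ₐ[K] A).toRingHom.isIntegralElem_map
            (x := C (c i))
          have h2 : (aeval y : MvPolynomial (Fin m) K →ₐ[K] A).toRingHom (C (c i)) =
              algebraMap K A (c i) := aeval_C _ _
          rw [h2] at h1
          exact h1
        · exact (aeval y : MvPolynomial (Fin m) K →ₐ[K] A).toRingHom.isIntegralElem_map
      -- a relation between the `y i` which does not vanish at the origin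
      have hrel : ∃ g : MvPolynomial (Fin m) K, aeval y g = 0 ∧ eval 0 g ≠ 0 := by
        by_contra hcon
        push Not at hcon
        obtain ⟨w, hw⟩ := exists_point x' y hint hcon
        have hwx : ∀ f : MvPolynomial (Fin (m + 1)) K, aeval x' f = 0 → eval w f = 0 := by
          intro f hf
          have h1 := hw (rename Sum.inl f) (by
            rw [aeval_rename, Sum.elim_comp_inl]
            exact hf)
          rw [eval_rename, Sum.elim_comp_inl] at h1
          exact h1
        have hwy : ∀ i, w i = c i * w j + eval 0 (Y i) := by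
          intro i
          have h1 := hw (X (Sum.inl i) - C (c i) * X (Sum.inl j) - rename Sum.inr (Y i)) (by
            rw [map_sub, map_sub, map_mul, aeval_X, aeval_C, aeval_X, aeval_rename,
              Sum.elim_comp_inr, Sum.elim_inl, Sum.elim_inl, hxY i]
            ring)
          rw [map_sub, map_sub, map_mul, eval_X, eval_C, eval_X, eval_rename,
            Sum.elim_comp_inr, Sum.elim_inl, Sum.elim_inl] at h1
          linear_combination h1
        have hY0 : ∀ i, eval (0 : Fin m → K) (Y i) = 0 := by
          intro i
          rcases Fin.eq_self_or_eq_succAbove j i with rfl | ⟨i, rfl⟩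
          · rw [hYj, map_zero]
          · rw [hYi, eval_X]
            rfl
        have hwc : w = fun i => w j * c i := by
          funext i
          rw [hwy i, hY0, add_zero, mul_comm]
        have h1 := aeval_smul_homog (B := K) hq (w j) c
        rw [← hwc, aeval_eval, aeval_eval, hwx q hqx] at h1
        have h2 : w j = 0 := by
          rcases mul_eq_zero.1 h1.symm with h3 | h3
          · by_contra hne
            exact pow_ne_zero d hne h3
          · exact absurd h3 hcq
        have hw0 : w = 0 := by
          rw [hwc, h2]
          funext i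
          exact zero_mul _
        obtain ⟨f, hf, hfv⟩ := hv
        apply hfv
        have h3 := hwx (aeval (fun i => X i + C (v i)) f) (by
          rw [comp_aeval_apply]
          rw [← hf]
          congr 2
          funext i
          rw [map_add, aeval_X, aeval_C, hx']
          ring)
        rw [hw0, ← aeval_eval, comp_aeval_apply] at h3
        rw [← h3, ← aeval_eval]
        congr 2
        funext i
        rw [map_add, aeval_X, aeval_C]
        exact (zero_add _).symm
      -- the induction hypothesis
      have hal : Algebra.IsAlgebraic (adjoin K (Set.range y)) A := by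
        refine ⟨fun b => ?_⟩
        refine IsAlgebraic.adjoin_of_forall_isAlgebraic (s := Set.range x) ?_
          (hx.isAlgebraic b)
        rintro _ ⟨⟨i, rfl⟩, -⟩
        have h1 : IsIntegral (adjoin K (Set.range y)) (x' i) := by
          obtain ⟨p, hp, hp0⟩ := hint i
          let ψ : MvPolynomial (Fin m) K →+* adjoin K (Set.range y) :=
            ((aeval y).codRestrict _ fun p => by
              rw [Algebra.adjoin_range_eq_range_aeval]
              exact ⟨p, rfl⟩ : MvPolynomial (Fin m) K →ₐ[K] adjoin K (Set.range y)).toRingHom
          refine ⟨p.map ψ, hp.map _, ?_⟩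
          rw [Polynomial.eval₂_map]
          exact hp0
        have h2 : x i = x' i + algebraMap (adjoin K (Set.range y)) A
            (algebraMap K (adjoin K (Set.range y)) (v i)) := by
          rw [hx', ← IsScalarTower.algebraMap_apply]
          ring
        rw [h2]
        exact (h1.add isIntegral_algebraMap).isAlgebraic
      have hDy : finrank K (imD (K := K) y D) < (e + 1) ^ (r + 1) := by
        refine lt_of_le_of_lt ?_ hD
        exact Submodule.finrank_mono (imD_mono lin hlin (fun i => rfl) D)
      obtain ⟨g, hg, hg0⟩ := hrel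
      obtain ⟨f, hfD, hf, hf0⟩ := ih y hal hDy 0 ⟨g, hg, hg0⟩
      refine ⟨aeval lin f, (totalDegree_aeval_le lin hlin f).trans hfD, ?_, ?_⟩
      · rw [comp_aeval_apply]
        exact hf
      · rw [← aeval_eval, comp_aeval_apply]
        have h1 : (fun i => aeval v (lin i)) = (0 : Fin m → K) := by
          funext i
          simp only [lin, map_sub, map_mul, aeval_X, aeval_C]
          change (v (j.succAbove i) - v (j.succAbove i)) - c (j.succAbove i) * (v j - v j) = 0
          ring
        rw [h1, aeval_eval]
        exact hf0

end Pool.Agent.Q60.ED
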