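import Pool.Agent.Q60.ED.Bound

/-!
# Tensors and matrix coefficients
-/

set_option linter.unusedSectionVars false

namespace Pool.Agent.Q60.ED

open MvPolynomial Algebra Module

section Seq

variable {τ : Type}

lemma exists_seq (m : τ →₀ ℕ) : ∃ (n : ℕ) (q : Fin n → τ), ∑ k, Finsupp.single (q k) 1 = m := by
  classical
  induction m using Finsupp.induction_linear with
  | zero => exact ⟨0, Fin.elim0, by simp⟩
  | add f g hf hg =>
    obtain ⟨n, q, rfl⟩ := hf
    obtain ⟨n', q', rfl⟩ := hg
    refine ⟨n + n', Fin.append q q', ?_⟩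
    rw [Fin.sum_univ_add]
    simp
  | single a b =>
    refine ⟨b, fun _ => a, ?_⟩
    rw [Finset.sum_const, Finset.card_univ, Fintype.card_fin]
    simp

lemma exists_equiv {n n' : ℕ} (q : Fin n → τ) (q' : Fin n' → τ)
    (h : ∑ k, Finsupp.single (q k) 1 = ∑ k, Finsupp.single (q' k) (1 : ℕ)) :
    ∃ e : Fin n ≃ Fin n', ∀ k, q' (e k) = q k := by
  classical
  have h1 : ∀ a, Nonempty ({k // q k = a} ≃ {k // q' k = a}) := by
    intro a
    have h2 := DFunLike.congr_fun h a
    rw [Finsupp.finsetSum_apply, Finsupp.finsetSum_apply] at h2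
    simp only [Finsupp.single_apply] at h2
    rw [Finset.sum_boole, Finset.sum_boole] at h2
    have h3 : Fintype.card {k // q k = a} = Fintype.card {k // q' k = a} := by
      rw [Fintype.card_subtype, Fintype.card_subtype]
      exact_mod_cast h2
    exact ⟨Fintype.equivOfCardEq h3⟩
  let e := Equiv.ofFiberEquiv (f := q) (g := q') fun a => (h1 a).some
  exact ⟨e, fun k => Equiv.ofFiberEquiv_map _ k⟩

end Seq

variable {K : Type} [Field K] {ι : Type} [Fintype ι] [DecidableEq ι]

/-- The action of a matrix on tensors. -/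
noncomputable def tpow (g : Matrix ι ι K) (n : ℕ) : ((Fin n → ι) → K) →ₗ[K] ((Fin n → ι) → K) where
  toFun t I := ∑ J, (∏ k, g (I k) (J k)) * t J
  map_add' t u := by
    funext I
    simp only [Pi.add_apply, mul_add, Finset.sum_add_distrib]
  map_smul' c t := by
    funext I
    simp only [Pi.smul_apply, smul_eq_mul, RingHom.id_apply, Finset.mul_sum]
    refine Finset.sum_congr rfl fun J _ => ?_
    ring

lemma tpow_apply (g : Matrix ι ι K) (n : ℕ) (t : (Fin n → ι) → K) (I : Fin n → ι) :
    tpow g n t I = ∑ J, (∏ k, g (I k) (J k)) * t J := rfl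

lemma tpow_mul (g h : Matrix ι ι K) (n : ℕ) (t : (Fin n → ι) → K) :
    tpow (g * h) n t = tpow g n (tpow h n t) := by
  funext I
  simp only [tpow_apply, Matrix.mul_apply, Finset.mul_sum]
  rw [Finset.sum_comm]
  refine Finset.sum_congr rfl fun J _ => ?_
  rw [Finset.prod_univ_sum, Finset.sum_mul]
  rw [← Finset.sum_subset (Finset.subset_univ (Fintype.piFinset fun _ => Finset.univ))]
  · refine Finset.sum_congr rfl fun L _ => ?_
    rw [Finset.prod_mul_distrib]
    ring
  · intro L _ hL
    exact absurd (Fintype.mem_piFinset.2 fun _ => Finset.mem_univ _) hL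

lemma tpow_one (n : ℕ) (t : (Fin n → ι) → K) : tpow 1 n t = t := by
  funext I
  rw [tpow_apply, Finset.sum_eq_single I]
  · simp
  · intro J _ hJ
    have : ∃ k, I k ≠ J k := by
      by_contra hcon
      push Not at hcon
      exact hJ (funext fun k => (hcon k).symm)
    obtain ⟨k, hk⟩ := this
    rw [Finset.prod_eq_zero (Finset.mem_univ k), zero_mul]
    rw [Matrix.one_apply_ne hk]
  · intro h; exact absurd (Finset.mem_univ _) h

/-- A product of coordinate functions. -/
noncomputable def mon {n : ℕ} (I J : Fin n → ι) : MvPolynomial (ι × ι) K := ∏ k, X (I k, J k)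

/-- The tensor `t` multiplied by the generic matrix. -/
noncomputable def xt {n : ℕ} (t : (Fin n → ι) → K) (I : Fin n → ι) : MvPolynomial (ι × ι) K :=
  ∑ J, C (t J) * mon I J

/-- The equations of the stabiliser of `t`. -/
noncomputable def ft {n : ℕ} (t : (Fin n → ι) → K) (I : Fin n → ι) : MvPolynomial (ι × ι) K :=
  xt t I - C (t I)

lemma evM_mon (g : Matrix ι ι K) {n : ℕ} (I J : Fin n → ι) :
    evM g (mon I J) = ∏ k, g (I k) (J k) := by
  rw [mon, map_prod]
  exact Finset.prod_congr rfl fun k _ => evM_X g _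

lemma evM_xt (g : Matrix ι ι K) {n : ℕ} (t : (Fin n → ι) → K) (I : Fin n → ι) :
    evM g (xt t I) = tpow g n t I := by
  rw [xt, map_sum, tpow_apply]
  refine Finset.sum_congr rfl fun J _ => ?_
  rw [map_mul, evM_C, evM_mon, mul_comm]

lemma evM_ft (g : Matrix ι ι K) {n : ℕ} (t : (Fin n → ι) → K) (I : Fin n → ι) :
    evM g (ft t I) = tpow g n t I - t I := by
  rw [ft, map_sub, evM_xt, evM_C]

lemma ft_eval_iff (g : Matrix ι ι K) {n : ℕ} (t : (Fin n → ι) → K) :
    (∀ I, evM g (ft t I) = 0) ↔ tpow g n t = t := by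
  constructor
  · intro h
    funext I
    have := h I
    rw [evM_ft] at this
    exact sub_eq_zero.1 this
  · intro h I
    rw [evM_ft, h, sub_self]

lemma rho_mon (g : Matrix ι ι K) {n : ℕ} (I J : Fin n → ι) :
    rho g (mon I J) = ∑ L, C (∏ k, g (L k) (J k)) * mon I L := by
  rw [mon, map_prod]
  simp only [rho_X]
  rw [Finset.prod_univ_sum]
  rw [← Finset.sum_subset (Finset.subset_univ (Fintype.piFinset fun _ => Finset.univ))]
  · refine Finset.sum_congr rfl fun L _ => ?_
    rw [Finset.prod_mul_distrib, mon, map_prod, mul_comm]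
  · intro L _ hL
    exact absurd (Fintype.mem_piFinset.2 fun _ => Finset.mem_univ _) hL

lemma rho_xt (g : Matrix ι ι K) {n : ℕ} (t : (Fin n → ι) → K) (I : Fin n → ι) :
    rho g (xt t I) = xt (tpow g n t) I := by
  rw [xt, map_sum, xt]
  simp only [map_mul, rho_C, rho_mon, tpow_apply, map_sum, Finset.mul_sum, Finset.sum_mul]
  rw [Finset.sum_comm]
  refine Finset.sum_congr rfl fun J _ => Finset.sum_congr rfl fun L _ => ?_
  ring

lemma rho_ft {g : Matrix ι ι K} {n : ℕ} {t : (Fin n → ι) → K} (h : tpow g n t = t)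
    (I : Fin n → ι) : rho g (ft t I) = ft t I := by
  rw [ft, map_sub, rho_xt, h, rho_C]

/-- The tensor product of tensors. -/
def tmul {m n : ℕ} (s : (Fin m → ι) → K) (t : (Fin n → ι) → K) : (Fin (m + n) → ι) → K :=
  fun I => s (fun k => I (Fin.castAdd n k)) * t (fun k => I (Fin.natAdd m k))

lemma mon_append {m n : ℕ} (I J : Fin m → ι) (I' J' : Fin n → ι) :
    (mon (Fin.append I I') (Fin.append J J') : MvPolynomial (ι × ι) K) = mon I J * mon I' J' := by
  rw [mon, Fin.prod_univ_add]
  simp [mon]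

end Pool.Agent.Q60.ED
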