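import Pool.Agent.Q60.ED.Pol

/-!
# The invariants of bounded degree determine all invariants
-/

set_option linter.unusedSectionVars false

namespace Pool.Agent.Q60.ED

open MvPolynomial Module Matrix

variable {ι : Type} [Fintype ι] [DecidableEq ι]

/-- The indices of the coefficients of polynomial functions of degree at most `D`. -/
abbrev EI (ι : Type) (D : ℕ) : Type := Σ i : Fin (D + 1), (Fin i → ι) × (Fin i → ι)

lemma xt_add {K : Type} [Field K] {n : ℕ} (s t : (Fin n → ι) → K) (I : Fin n → ι) :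
    xt (s + t) I = xt s I + xt t I := by
  simp only [xt, Pi.add_apply, map_add, add_mul, Finset.sum_add_distrib]

lemma xt_smul {K : Type} [Field K] {n : ℕ} (c : K) (t : (Fin n → ι) → K) (I : Fin n → ι) :
    xt (c • t) I = c • xt t I := by
  simp only [xt, Pi.smul_apply, smul_eq_mul, Finset.smul_sum, map_mul, smul_eq_C_mul, mul_assoc]

variable {D : ℕ}

/-- The polynomial function with given coefficients. -/
noncomputable def Phi (D : ℕ) : (EI ι D → ℂ) →ₗ[ℂ] MvPolynomial (ι × ι) ℂ where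
  toFun e := ∑ i : Fin (D + 1), ∑ I : Fin i → ι, xt (fun J => e ⟨i, (J, I)⟩) I
  map_add' a b := by
    rw [← Finset.sum_add_distrib]
    refine Finset.sum_congr rfl fun i _ => ?_
    rw [← Finset.sum_add_distrib]
    exact Finset.sum_congr rfl fun I _ => xt_add _ _ _
  map_smul' c a := by
    rw [RingHom.id_apply, Finset.smul_sum]
    refine Finset.sum_congr rfl fun i _ => ?_
    rw [Finset.smul_sum]
    exact Finset.sum_congr rfl fun I _ => xt_smul _ _ _

lemma Phi_apply (e : EI ι D → ℂ) :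
    Phi D e = ∑ i : Fin (D + 1), ∑ I : Fin i → ι, xt (fun J => e ⟨i, (J, I)⟩) I := rfl

/-- The action on the coefficients. -/
noncomputable def RR (D : ℕ) (g : Matrix ι ι ℂ) : (EI ι D → ℂ) →ₗ[ℂ] (EI ι D → ℂ) where
  toFun e a := tpow g a.1 (fun J => e ⟨a.1, (J, a.2.2)⟩) a.2.1
  map_add' a b := by
    funext x
    exact congrFun (map_add (tpow g (x.1 : ℕ)) (fun J => a ⟨x.1, (J, x.2.2)⟩)
      fun J => b ⟨x.1, (J, x.2.2)⟩) x.2.1
  map_smul' c a := by
    funext x
    exact congrFun (map_smul (tpow g (x.1 : ℕ)) c (fun J => a ⟨x.1, (J, x.2.2)⟩)) x.2.1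

lemma RR_apply (g : Matrix ι ι ℂ) (e : EI ι D → ℂ) (a : EI ι D) :
    RR D g e a = tpow g a.1 (fun J => e ⟨a.1, (J, a.2.2)⟩) a.2.1 := rfl

lemma RR_mul (g h : Matrix ι ι ℂ) (e : EI ι D → ℂ) : RR D g (RR D h e) = RR D (g * h) e := by
  funext a
  rw [RR_apply, RR_apply, tpow_mul]
  rfl

lemma RR_one (e : EI ι D → ℂ) : RR D 1 e = e := by
  funext a
  rw [RR_apply, tpow_one]

lemma rho_Phi (g : Matrix ι ι ℂ) (e : EI ι D → ℂ) : rho g (Phi D e) = Phi D (RR D g e) := by
  rw [Phi_apply, Phi_apply, map_sum]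
  refine Finset.sum_congr rfl fun i _ => ?_
  rw [map_sum]
  refine Finset.sum_congr rfl fun I _ => ?_
  rw [rho_xt]
  rfl

lemma map_Phi (τ : ℂ ≃+* ℂ) (e : EI ι D → ℂ) :
    MvPolynomial.map (τ : ℂ →+* ℂ) (Phi D e) = Phi D fun a => τ (e a) := by
  rw [Phi_apply, Phi_apply, map_sum]
  refine Finset.sum_congr rfl fun i _ => ?_
  rw [map_sum]
  refine Finset.sum_congr rfl fun I _ => ?_
  rw [xt, xt, map_sum]
  refine Finset.sum_congr rfl fun J _ => ?_
  rw [map_mul, map_C, mon, map_prod]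
  simp only [map_X]
  rfl

lemma Phi_single (a : EI ι D) : Phi D (Pi.single a 1) = mon a.2.2 a.2.1 := by
  rw [Phi_apply, Finset.sum_eq_single a.1]
  · rw [Finset.sum_eq_single a.2.2]
    · rw [xt, Finset.sum_eq_single a.2.1]
      · have h1 : (⟨a.1, (a.2.1, a.2.2)⟩ : EI ι D) = a := rfl
        rw [h1, Pi.single_eq_same, map_one, one_mul]
      · intro J _ hJ
        rw [Pi.single_eq_of_ne, map_zero, zero_mul]
        intro h
        apply hJ
        have h2 : (⟨a.1, (J, a.2.2)⟩ : EI ι D) = ⟨a.1, (a.2.1, a.2.2)⟩ := h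
        have h3 := eq_of_heq (Sigma.mk.inj h2).2
        exact (Prod.mk.inj h3).1
      · intro h; exact absurd (Finset.mem_univ _) h
    · intro I _ hI
      rw [xt]
      refine Finset.sum_eq_zero fun J _ => ?_
      rw [Pi.single_eq_of_ne, map_zero, zero_mul]
      intro h
      apply hI
      have h2 : (⟨a.1, (J, I)⟩ : EI ι D) = ⟨a.1, (a.2.1, a.2.2)⟩ := h
      have h3 := eq_of_heq (Sigma.mk.inj h2).2
      exact (Prod.mk.inj h3).2
    · intro h; exact absurd (Finset.mem_univ _) h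
  · intro i _ hi
    refine Finset.sum_eq_zero fun I _ => ?_
    rw [xt]
    refine Finset.sum_eq_zero fun J _ => ?_
    rw [Pi.single_eq_of_ne, map_zero, zero_mul]
    intro h
    exact hi (congrArg Sigma.fst h)
  · intro h; exact absurd (Finset.mem_univ _) h

lemma exists_Phi {f : MvPolynomial (ι × ι) ℂ} (hf : f.totalDegree ≤ D) :
    ∃ e : EI ι D → ℂ, Phi D e = f := by
  have h1 : f ∈ LinearMap.range (Phi (ι := ι) D) := by
    rw [f.as_sum]
    refine Submodule.sum_mem _ fun m hm => ?_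
    have h2 : monomial m (coeff m f) = coeff m f • monomial m (1 : ℂ) := by
      rw [smul_monomial, smul_eq_mul, mul_one]
    rw [h2]
    refine Submodule.smul_mem _ _ ?_
    have h3 := le_totalDegree hm
    obtain ⟨n, q, hq⟩ := exists_seq m
    have h4 : (m.sum fun _ e => e) = n := by
      rw [← hq, Finsupp.sum_fintype _ _ (fun _ => rfl)]
      simp only [Finsupp.finsetSum_apply]
      rw [Finset.sum_comm]
      simp [Finsupp.single_apply]
    have h5 : n < D + 1 := by omega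
    refine ⟨Pi.single ⟨⟨n, h5⟩, (fun k => (q k).2, fun k => (q k).1)⟩ 1, ?_⟩
    rw [Phi_single, TSys.mon_eq]
    change monomial (∑ k, Finsupp.single (q k) 1) 1 = _
    rw [hq]
  exact h1

/-- The form on the coefficients. -/
noncomputable def GG (D : ℕ) (Q : Matrix ι ι ℚ) : Matrix (EI ι D) (EI ι D) ℚ :=
  Matrix.blockDiagonal' fun i : Fin (D + 1) => Matrix.of fun a b =>
    if a.2 = b.2 then TP Q i a.1 b.1 else 0

lemma bf_eq {B : Type} [Fintype B] [DecidableEq B] {K : Type} [Field K] (G : Matrix B B K)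
    (v w : B → K) : bf G v w = v ⬝ᵥ (G *ᵥ w) := by
  simp only [bf, dotProduct, Matrix.mulVec, Finset.mul_sum, mul_assoc]

lemma bf_GG (Q : Matrix ι ι ℚ) (v w : EI ι D → ℂ) :
    bf ((GG D Q).map fun q : ℚ => (q : ℂ)) v w =
      ∑ i : Fin (D + 1), ∑ I : Fin i → ι, bf (TP (qc Q) i) (fun J => v ⟨i, (J, I)⟩)
        fun J => w ⟨i, (J, I)⟩ := by
  have hTP : ∀ (i : ℕ) (J J' : Fin i → ι), ((TP Q i J J' : ℚ) : ℂ) = TP (qc Q) i J J' := by
    intro i J J'
    rw [TP_apply, TP_apply, Rat.cast_prod]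
    rfl
  rw [bf, Fintype.sum_sigma]
  refine Finset.sum_congr rfl fun i _ => ?_
  rw [Fintype.sum_prod_type, Finset.sum_comm]
  refine Finset.sum_congr rfl fun I _ => ?_
  rw [bf]
  refine Finset.sum_congr rfl fun J _ => ?_
  rw [Fintype.sum_sigma, Finset.sum_eq_single i]
  · rw [Fintype.sum_prod_type]
    refine Finset.sum_congr rfl fun J' _ => ?_
    rw [Finset.sum_eq_single I]
    · rw [Matrix.map_apply, GG, Matrix.blockDiagonal'_apply_eq, Matrix.of_apply, if_pos rfl, hTP]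
    · intro I' _ hI'
      rw [Matrix.map_apply, GG, Matrix.blockDiagonal'_apply_eq, Matrix.of_apply,
        if_neg (Ne.symm hI'), Rat.cast_zero, mul_zero, zero_mul]
    · intro h; exact absurd (Finset.mem_univ _) h
  · intro i' _ hi'
    refine Finset.sum_eq_zero fun b _ => ?_
    rw [Matrix.map_apply, GG, Matrix.blockDiagonal'_apply_ne _ _ _ (Ne.symm hi'), Rat.cast_zero,
      mul_zero, zero_mul]
  · intro h; exact absurd (Finset.mem_univ _) h

lemma bf_tpow {Q g : Matrix ι ι ℂ} (hg : g.transpose * Q * g = Q) (i : ℕ)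
    (v w : (Fin i → ι) → ℂ) : bf (TP Q i) (tpow g i v) (tpow g i w) = bf (TP Q i) v w := by
  have h1 : (TP g i).transpose * TP Q i * TP g i = TP Q i := by
    rw [← TP_transpose, ← TP_mul, ← TP_mul, hg]
  rw [bf_eq, bf_eq, tpow_eq, tpow_eq]
  conv_rhs => rw [← h1]
  rw [← Matrix.mulVec_mulVec, ← Matrix.mulVec_mulVec, Matrix.dotProduct_mulVec v,
    Matrix.vecMul_transpose]

lemma bf_RR {Q : Matrix ι ι ℚ} {g : Matrix ι ι ℂ} (hg : g.transpose * qc Q * g = qc Q)
    (v w : EI ι D → ℂ) : bf ((GG D Q).map fun q : ℚ => (q : ℂ)) (RR D g v) (RR D g w) =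
      bf ((GG D Q).map fun q : ℚ => (q : ℂ)) v w := by
  rw [bf_GG, bf_GG]
  refine Finset.sum_congr rfl fun i _ => Finset.sum_congr rfl fun I _ => ?_
  exact bf_tpow hg i (fun J => v ⟨i, (J, I)⟩) fun J => w ⟨i, (J, I)⟩

lemma bf_gram {Q C B : Matrix ι ι ℂ} (h : Q * C = B.conjTranspose * B) (i : ℕ)
    (x : (Fin i → ι) → ℂ) : bf (TP Q i) x (tpow C i fun J => starRingEnd ℂ (x J)) =
      ((∑ J, Complex.normSq ((TP B i *ᵥ fun J => starRingEnd ℂ (x J)) J) : ℝ) : ℂ) := by
  have h1 : TP B.conjTranspose i = (TP B i).conjTranspose := by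
    ext I J
    rw [Matrix.conjTranspose_apply, TP_apply, TP_apply, star_prod]
    rfl
  rw [bf_eq, tpow_eq, Matrix.mulVec_mulVec, ← TP_mul, h, TP_mul, h1, ← Matrix.mulVec_mulVec,
    Matrix.dotProduct_mulVec]
  have h2 : x ᵥ* (TP B i).conjTranspose = Star.star (TP B i *ᵥ fun J => starRingEnd ℂ (x J)) := by
    rw [Matrix.star_mulVec]
    congr 1
    funext J
    simp
  rw [h2, dotProduct]
  push_cast
  refine Finset.sum_congr rfl fun J _ => ?_
  rw [Pi.star_apply, Complex.star_def, mul_comm, Complex.mul_conj]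

lemma pos_GG {Q : Matrix ι ι ℚ} {C B : Matrix ι ι ℂ} (hB : B.det ≠ 0)
    (h : qc Q * C = B.conjTranspose * B) (x : EI ι D → ℂ)
    (hx : bf ((GG D Q).map fun q : ℚ => (q : ℂ)) x (RR D C fun a => starRingEnd ℂ (x a)) = 0) :
    x = 0 := by
  rw [bf_GG] at hx
  have h1 : ∀ (i : Fin (D + 1)) (I : Fin i → ι), bf (TP (qc Q) i) (fun J => x ⟨i, (J, I)⟩)
      (fun J => RR D C (fun a => starRingEnd ℂ (x a)) ⟨i, (J, I)⟩) =
      ((∑ J, Complex.normSq ((TP B i *ᵥ fun J => starRingEnd ℂ (x ⟨i, (J, I)⟩)) J) : ℝ) : ℂ) :=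
    fun i I => bf_gram h i fun J => x ⟨i, (J, I)⟩
  simp only [h1] at hx
  rw [← Complex.ofReal_zero] at hx
  simp only [← Complex.ofReal_sum] at hx
  have h2 := Complex.ofReal_injective hx
  rw [Finset.sum_eq_zero_iff_of_nonneg] at h2
  · funext ⟨i, J, I⟩
    have h3 := h2 i (Finset.mem_univ _)
    rw [Finset.sum_eq_zero_iff_of_nonneg] at h3
    · have h4 := h3 I (Finset.mem_univ _)
      rw [Finset.sum_eq_zero_iff_of_nonneg fun _ _ => Complex.normSq_nonneg _] at h4
      have h5 : (TP B i *ᵥ fun J => starRingEnd ℂ (x ⟨i, (J, I)⟩)) = 0 := by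
        funext L
        exact Complex.normSq_eq_zero.1 (h4 L (Finset.mem_univ _))
      have h6 : (fun J => starRingEnd ℂ (x ⟨i, (J, I)⟩)) = 0 := by
        have h7 := congrArg (fun v => TP B⁻¹ i *ᵥ v) h5
        simp only [Matrix.mulVec_mulVec, (TP_det hB i).2, Matrix.one_mulVec,
          Matrix.mulVec_zero] at h7
        exact h7
      have h8 := congrFun h6 J
      exact (map_eq_zero (starRingEnd ℂ)).1 h8
    · intro I _
      exact Finset.sum_nonneg fun _ _ => Complex.normSq_nonneg _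
  · intro i _
    exact Finset.sum_nonneg fun I _ => Finset.sum_nonneg fun _ _ => Complex.normSq_nonneg _

end Pool.Agent.Q60.ED
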