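import Pool.Agent.Q60.ED.Sep2

/-!
# Ideals of polynomial functions of matrices and one-parameter subgroups
-/

set_option linter.unusedSectionVars false

namespace Pool.Agent.Q60.ED

open MvPolynomial Algebra Cardinal Module

variable {K : Type} [Field K] {ι : Type} [Fintype ι] [DecidableEq ι]

/-- The value of a polynomial function at a matrix. -/
noncomputable def evM (h : Matrix ι ι K) : MvPolynomial (ι × ι) K →ₐ[K] K :=
  aeval fun p => h p.1 p.2

/-- The right translation by a matrix. -/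
noncomputable def rho (h : Matrix ι ι K) : MvPolynomial (ι × ι) K →ₐ[K] MvPolynomial (ι × ι) K :=
  aeval fun p => ∑ k, X (p.1, k) * C (h k p.2)

@[simp] lemma evM_X (h : Matrix ι ι K) (p : ι × ι) : evM h (X p) = h p.1 p.2 := aeval_X _ _

@[simp] lemma evM_C (h : Matrix ι ι K) (c : K) : evM h (C c) = c := aeval_C _ _

@[simp] lemma rho_X (h : Matrix ι ι K) (p : ι × ι) :
    rho h (X p) = ∑ k, X (p.1, k) * C (h k p.2) := aeval_X _ _

@[simp] lemma rho_C (h : Matrix ι ι K) (c : K) : rho h (C c) = C c := aeval_C _ _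

lemma evM_rho (g h : Matrix ι ι K) (f : MvPolynomial (ι × ι) K) :
    evM g (rho h f) = evM (g * h) f := by
  have h1 : (evM g).comp (rho h) = evM (g * h) := by
    refine MvPolynomial.algHom_ext fun p => ?_
    rw [AlgHom.comp_apply, rho_X, map_sum, evM_X, Matrix.mul_apply]
    refine Finset.sum_congr rfl fun k _ => ?_
    rw [map_mul, evM_X, evM_C]
  rw [← h1, AlgHom.comp_apply]

lemma rho_rho (g h : Matrix ι ι K) (f : MvPolynomial (ι × ι) K) :
    rho g (rho h f) = rho (g * h) f := by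
  have h1 : (rho g).comp (rho h) = rho (g * h) := by
    refine MvPolynomial.algHom_ext fun p => ?_
    rw [AlgHom.comp_apply, rho_X, map_sum, rho_X]
    simp only [map_mul, rho_X, rho_C, Matrix.mul_apply, map_sum, Finset.sum_mul, Finset.mul_sum]
    rw [Finset.sum_comm]
    refine Finset.sum_congr rfl fun k _ => Finset.sum_congr rfl fun l _ => ?_
    ring
  rw [← h1, AlgHom.comp_apply]

lemma rho_one (f : MvPolynomial (ι × ι) K) : rho 1 f = f := by
  have h1 : rho (1 : Matrix ι ι K) = AlgHom.id K _ := by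
    refine MvPolynomial.algHom_ext fun p => ?_
    rw [rho_X]
    simp only [Matrix.one_apply, AlgHom.id_apply]
    rw [Finset.sum_eq_single p.2]
    · simp
    · intro k _ hk
      rw [if_neg hk, map_zero, mul_zero]
    · intro h; exact absurd (Finset.mem_univ _) h
  rw [h1, AlgHom.id_apply]

/-- The one-parameter family `z ↦ ∑ z ^ (w - d) E_w`. -/
noncomputable def coch (d : ℕ) (E : ℕ → Matrix ι ι K) (z : K) : Matrix ι ι K :=
  (z ^ d)⁻¹ • ∑ w ∈ Finset.range (2 * d + 1), z ^ w • E w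

/-- The product of an ideal by a one-parameter family. -/
noncomputable def star (P : Ideal (MvPolynomial (ι × ι) K)) (c : K → Matrix ι ι K) :
    Ideal (MvPolynomial (ι × ι) K) :=
  ⨅ z : {z : K // z ≠ 0}, P.comap (rho (c z)).toRingHom

lemma mem_star {P : Ideal (MvPolynomial (ι × ι) K)} {c : K → Matrix ι ι K}
    {f : MvPolynomial (ι × ι) K} : f ∈ star P c ↔ ∀ z, z ≠ 0 → rho (c z) f ∈ P := by
  rw [star, Ideal.mem_iInf]
  constructor
  · intro h z hz; exact h ⟨z, hz⟩
  · intro h z; exact h z.1 z.2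

lemma star_le {P : Ideal (MvPolynomial (ι × ι) K)} {c : K → Matrix ι ι K} (hc : c 1 = 1) :
    star P c ≤ P := by
  intro f hf
  have h1 := mem_star.1 hf 1 one_ne_zero
  rwa [hc, rho_one] at h1

section Bd

variable {σ : Type}

/-- Degree at most `n`, coefficients of total degree at most `k`. -/
def Bd (G : Polynomial (MvPolynomial σ K)) (n k : ℕ) : Prop :=
  G.natDegree ≤ n ∧ ∀ j, (G.coeff j).totalDegree ≤ k

lemma Bd.mul {G H : Polynomial (MvPolynomial σ K)} {n k m l : ℕ} (hG : Bd G n k) (hH : Bd H m l) :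
    Bd (G * H) (n + m) (k + l) := by
  refine ⟨Polynomial.natDegree_mul_le.trans (add_le_add hG.1 hH.1), fun j => ?_⟩
  rw [Polynomial.coeff_mul]
  refine totalDegree_finsetSum_le fun p _ => ?_
  exact (totalDegree_mul _ _).trans (add_le_add (hG.2 _) (hH.2 _))

lemma Bd.one : Bd (1 : Polynomial (MvPolynomial σ K)) 0 0 := by
  refine ⟨by simp, fun j => ?_⟩
  rw [Polynomial.coeff_one]
  split_ifs
  · exact (totalDegree_one (σ := σ) (R := K)).le
  · exact (totalDegree_zero (σ := σ) (R := K)).le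

lemma Bd.pow {G : Polynomial (MvPolynomial σ K)} {n k : ℕ} (hG : Bd G n k) (m : ℕ) :
    Bd (G ^ m) (m * n) (m * k) := by
  induction m with
  | zero => simpa using Bd.one (σ := σ) (K := K)
  | succ m ih =>
    rw [pow_succ, Nat.succ_mul, Nat.succ_mul]
    exact ih.mul hG

lemma Bd.prod {τ : Type} (s : Finset τ) {G : τ → Polynomial (MvPolynomial σ K)} {n k : τ → ℕ}
    (h : ∀ i ∈ s, Bd (G i) (n i) (k i)) : Bd (∏ i ∈ s, G i) (∑ i ∈ s, n i) (∑ i ∈ s, k i) := by
  classical
  induction s using Finset.induction_on with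
  | empty => simpa using Bd.one (σ := σ) (K := K)
  | insert i s hi ih =>
    rw [Finset.prod_insert hi, Finset.sum_insert hi, Finset.sum_insert hi]
    exact (h i (Finset.mem_insert_self _ _)).mul (ih fun j hj => h j (Finset.mem_insert_of_mem hj))

lemma Bd.sum {τ : Type} (s : Finset τ) {G : τ → Polynomial (MvPolynomial σ K)} {n k : ℕ}
    (h : ∀ i ∈ s, Bd (G i) n k) : Bd (∑ i ∈ s, G i) n k := by
  refine ⟨Polynomial.natDegree_sum_le_of_forall_le _ _ fun i hi => (h i hi).1, fun j => ?_⟩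
  rw [Polynomial.finsetSum_coeff]
  exact totalDegree_finsetSum_le fun i hi => (h i hi).2 j

lemma Bd.C_mul {G : Polynomial (MvPolynomial σ K)} {n k : ℕ} (hG : Bd G n k) (c : K) :
    Bd (Polynomial.C (C c) * G) n k := by
  refine ⟨(Polynomial.natDegree_C_mul_le _ _).trans hG.1, fun j => ?_⟩
  rw [Polynomial.coeff_C_mul]
  refine (totalDegree_mul _ _).trans ?_
  rw [totalDegree_C, zero_add]
  exact hG.2 j

lemma Bd.X_pow_mul_C (n : ℕ) {f : MvPolynomial σ K} {k : ℕ} (hf : f.totalDegree ≤ k) :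
    Bd (Polynomial.X ^ n * Polynomial.C f) n k := by
  refine ⟨?_, fun j => ?_⟩
  · rw [mul_comm]; exact Polynomial.natDegree_C_mul_X_pow_le _ _
  · rw [mul_comm, Polynomial.coeff_C_mul_X_pow]
    split_ifs
    · exact hf
    · rw [totalDegree_zero]; exact Nat.zero_le _

lemma Bd.mono {G : Polynomial (MvPolynomial σ K)} {n k m l : ℕ} (hG : Bd G n k) (h1 : n ≤ m)
    (h2 : k ≤ l) : Bd G m l := ⟨hG.1.trans h1, fun j => (hG.2 j).trans h2⟩

end Bd

section Lin

variable (d : ℕ) (E : ℕ → Matrix ι ι K) (D : ℕ)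

/-- The coordinate functions of `x ↦ x E_w`. -/
noncomputable def xE (w : ℕ) (p : ι × ι) : MvPolynomial (ι × ι) K :=
  ∑ k, X (p.1, k) * C (E w k p.2)

/-- The coordinate functions of `x ↦ z ^ d x c(z)` as polynomials in `z`. -/
noncomputable def Lp (p : ι × ι) : Polynomial (MvPolynomial (ι × ι) K) :=
  ∑ w ∈ Finset.range (2 * d + 1), Polynomial.X ^ w * Polynomial.C (xE E w p)

/-- The functions `x ↦ z ^ (d D) f (x c(z))` as polynomials in `z`. -/
noncomputable def Gf : MvPolynomial (ι × ι) K →ₗ[K] Polynomial (MvPolynomial (ι × ι) K) :=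
  (basisMonomials (ι × ι) K).constr K fun s =>
    Polynomial.X ^ (d * (D - ∑ p, s p)) * Polynomial.C 1 * ∏ p, Lp d E p ^ (s p)

variable {d E D}

lemma Gf_monomial (s : ι × ι →₀ ℕ) : Gf d E D (monomial s 1) =
    Polynomial.X ^ (d * (D - ∑ p, s p)) * Polynomial.C 1 * ∏ p, Lp d E p ^ (s p) := by
  have h1 := (basisMonomials (ι × ι) K).constr_basis K (fun s =>
    Polynomial.X ^ (d * (D - ∑ p, s p)) * Polynomial.C 1 * ∏ p, Lp d E p ^ (s p)) s
  rw [coe_basisMonomials] at h1
  exact h1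

lemma Gf_eq (f : MvPolynomial (ι × ι) K) : Gf d E D f =
    ∑ s ∈ f.support, Polynomial.C (C (coeff s f)) * Gf d E D (monomial s 1) := by
  conv_lhs => rw [f.as_sum]
  rw [map_sum]
  refine Finset.sum_congr rfl fun s _ => ?_
  have h1 : monomial s (coeff s f) = coeff s f • monomial s (1 : K) := by
    rw [smul_monomial, smul_eq_mul, mul_one]
  rw [h1, map_smul]
  ext j : 1
  rw [Polynomial.coeff_smul, Polynomial.coeff_C_mul, MvPolynomial.smul_eq_C_mul]

lemma totalDegree_xE (w : ℕ) (p : ι × ι) : (xE E w p).totalDegree ≤ 1 := by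
  refine totalDegree_finsetSum_le fun k _ => ?_
  refine (totalDegree_mul _ _).trans ?_
  rw [totalDegree_C, add_zero, totalDegree_X]

lemma sum_le_of_mem {f : MvPolynomial (ι × ι) K} (hf : f.totalDegree ≤ D) {s : ι × ι →₀ ℕ}
    (hs : s ∈ f.support) : ∑ p, s p ≤ D := by
  refine le_trans ?_ hf
  have h1 := le_totalDegree hs
  rwa [Finsupp.sum_fintype _ _ (fun _ => rfl)] at h1

lemma Gf_bd {f : MvPolynomial (ι × ι) K} (hf : f.totalDegree ≤ D) :
    Bd (Gf d E D f) (2 * d * D) D := by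
  rw [Gf_eq]
  refine Bd.sum _ fun s hs => ?_
  refine Bd.C_mul ?_ _
  rw [Gf_monomial]
  have h0 := sum_le_of_mem hf hs
  have h1 : Bd (∏ p, Lp d E p ^ (s p)) (∑ p, s p * (2 * d)) (∑ p, s p * 1) := by
    refine Bd.prod _ fun p _ => Bd.pow ?_ _
    refine Bd.sum _ fun w hw => ?_
    exact (Bd.X_pow_mul_C w (totalDegree_xE w p)).mono
      (Nat.lt_succ_iff.1 (Finset.mem_range.1 hw)) le_rfl
  have h2 : Bd (Polynomial.X ^ (d * (D - ∑ p, s p)) * Polynomial.C (1 : MvPolynomial (ι × ι) K))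
      (d * (D - ∑ p, s p)) 0 := Bd.X_pow_mul_C _ (totalDegree_one.le)
  refine (h2.mul h1).mono ?_ ?_
  · rw [← Finset.sum_mul]
    obtain ⟨t, ht⟩ := Nat.exists_eq_add_of_le h0
    rw [ht]
    have h3 : ∑ p, s p + t - ∑ p, s p = t := by omega
    rw [h3]
    nlinarith [Nat.zero_le (d * t), Nat.zero_le d, Nat.zero_le t]
  · rw [zero_add]
    simpa using h0

lemma Gf_eval {f : MvPolynomial (ι × ι) K} (hf : f.totalDegree ≤ D) {z : K} (hz : z ≠ 0) :
    (Gf d E D f).eval (C z) = C (z ^ (d * D)) * rho (coch d E z) f := by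
  have hL : ∀ p, (Lp d E p).eval (C z) = C (z ^ d) * rho (coch d E z) (X p) := by
    intro p
    rw [Lp, Polynomial.eval_finsetSum, rho_X, Finset.mul_sum]
    simp only [Polynomial.eval_mul, Polynomial.eval_pow, Polynomial.eval_X, Polynomial.eval_C, xE,
      Finset.mul_sum]
    rw [Finset.sum_comm]
    refine Finset.sum_congr rfl fun k _ => ?_
    have h1 : coch d E z k p.2 = (z ^ d)⁻¹ * ∑ w ∈ Finset.range (2 * d + 1), z ^ w * E w k p.2 := by
      rw [coch, Matrix.smul_apply, Matrix.sum_apply, smul_eq_mul]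
      rfl
    rw [h1]
    have h2 : C (z ^ d) * (X (p.1, k) * C ((z ^ d)⁻¹ * ∑ w ∈ Finset.range (2 * d + 1),
        z ^ w * E w k p.2)) = X (p.1, k) * (C (z ^ d * (z ^ d)⁻¹) *
          C (∑ w ∈ Finset.range (2 * d + 1), z ^ w * E w k p.2) : MvPolynomial (ι × ι) K) := by
      rw [map_mul C (z ^ d)⁻¹, map_mul C (z ^ d)]
      ring
    rw [h2, mul_inv_cancel₀ (pow_ne_zero _ hz), map_one, one_mul, map_sum, Finset.mul_sum]
    refine Finset.sum_congr rfl fun w _ => ?_
    rw [map_mul, map_pow]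
    ring
  rw [Gf_eq, Polynomial.eval_finsetSum]
  conv_rhs => rw [f.as_sum, map_sum, Finset.mul_sum]
  refine Finset.sum_congr rfl fun s hs => ?_
  have h0 := sum_le_of_mem hf hs
  rw [Polynomial.eval_mul, Polynomial.eval_C, Gf_monomial, Polynomial.eval_mul,
    Polynomial.eval_mul, Polynomial.eval_pow, Polynomial.eval_X, Polynomial.eval_C, mul_one,
    Polynomial.eval_prod]
  simp only [Polynomial.eval_pow, hL, mul_pow, Finset.prod_mul_distrib]
  rw [Finset.prod_pow_eq_pow_sum, monomial_eq, map_mul, rho_C]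
  have h3 : (s.prod fun n e => (X n : MvPolynomial (ι × ι) K) ^ e) = ∏ p, X p ^ s p :=
    Finsupp.prod_fintype _ _ fun _ => pow_zero _
  rw [h3, map_prod]
  simp only [map_pow]
  have h4 : d * D = d * (D - ∑ p, s p) + d * ∑ p, s p := by
    rw [← mul_add]; congr 1; omega
  rw [h4, pow_add, pow_mul _ d (∑ p, s p)]
  ring

end Lin

end Pool.Agent.Q60.ED
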