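import Mathlib

/-!
# Transcendence degrees of quotients
-/

namespace Pool.Agent.Q60.ED

open MvPolynomial Algebra Cardinal

variable {K : Type} [Field K]

/-- A surjection of domains with a nonzero kernel lowers the transcendence degree. -/
theorem trdeg_lt_of_surjective {A B : Type} [CommRing A] [IsDomain A] [CommRing B] [IsDomain B]
    [Algebra K A] [Algebra K B] (f : A →ₐ[K] B) (hf : Function.Surjective f) {a : A} (ha : a ≠ 0)
    (hfa : f a = 0) (hfin : trdeg K A < ℵ₀) : trdeg K B < trdeg K A := by
  refine lt_of_le_of_ne (trdeg_le_of_surjective f hf) fun heq => ?_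
  obtain ⟨ι, x, hx⟩ := exists_isTranscendenceBasis' K B
  choose y hy using fun i => hf (x i)
  have hxy : (f ∘ y) = x := funext fun i => hy i
  have hyi : AlgebraicIndependent K y := by
    apply AlgebraicIndependent.of_comp f
    rw [hxy]
    exact hx.1
  have hyb : IsTranscendenceBasis K y := by
    apply hyi.isTranscendenceBasis_of_trdeg_le hfin
    rw [← heq, ← hx.cardinalMk_eq_trdeg]
  have halg := hyb.isAlgebraic
  obtain ⟨p, hp0, hp⟩ := (halg.isAlgebraic a).exists_nonzero_coeff_and_aeval_eq_zero
    (mem_nonZeroDivisors_of_ne_zero ha)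
  have h1 : f (algebraMap _ A (p.coeff 0)) = 0 := by
    have h2 : Polynomial.aeval a p = algebraMap _ A (p.coeff 0) +
        a * Polynomial.aeval a p.divX := by
      conv_lhs => rw [← Polynomial.X_mul_divX_add p]
      rw [map_add, map_mul, Polynomial.aeval_X, Polynomial.aeval_C]
      ring
    have h3 := congrArg f h2
    rw [hp, map_zero, map_add, map_mul, hfa, zero_mul, add_zero] at h3
    exact h3.symm
  obtain ⟨c, hc⟩ : ∃ c : MvPolynomial ι K, aeval y c = algebraMap _ A (p.coeff 0) := by
    exact (Algebra.adjoin_range_eq_range_aeval K y).le (p.coeff 0).2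
  rw [← hc, ← AlgHom.comp_apply, comp_aeval] at h1
  have h5 : aeval x c = 0 := by
    rw [← hxy]
    exact h1
  have h6 := hx.1.eq_zero_of_aeval_eq_zero c h5
  rw [h6, map_zero] at hc
  apply hp0
  exact Subtype.ext hc.symm

/-- The quotient of a polynomial ring in finitely many variables has finite transcendence
degree. -/
theorem trdeg_lt_aleph0 {σ : Type} [Finite σ] {A : Type} [CommRing A] [Algebra K A]
    (f : MvPolynomial σ K →ₐ[K] A) (hf : Function.Surjective f) : trdeg K A < ℵ₀ := by
  refine (trdeg_le_of_surjective f hf).trans_lt ?_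
  rw [MvPolynomial.trdeg_of_isDomain]
  simp

theorem trdeg_le_card {σ : Type} [Fintype σ] {A : Type} [CommRing A] [Algebra K A]
    (f : MvPolynomial σ K →ₐ[K] A) (hf : Function.Surjective f) :
    trdeg K A ≤ Fintype.card σ := by
  refine (trdeg_le_of_surjective f hf).trans ?_
  rw [MvPolynomial.trdeg_of_isDomain]
  simp

end Pool.Agent.Q60.ED
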